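import Pool.Agent.H145.Euc.Heights

namespace Pool.Agent.H145.Euc

open SignType

/-- codes of the elements of a one-element extension -/
def ocode (m : ℕ) : Option (Fin m) → ℕ
  | none => m
  | some i => i.val

lemma ocode_inj (m : ℕ) : Function.Injective (ocode m) := by
  rintro (_ | a) (_ | b) h
  · rfl
  · have := b.isLt; simp only [ocode] at h; omega
  · have := a.isLt; simp only [ocode] at h; omega
  · simp only [ocode] at h; rw [Fin.ext h]

lemma ocode_lt (m : ℕ) (e : Option (Fin m)) : ocode m e < m + 1 := by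
  rcases e with _ | a
  · simp [ocode]
  · have := a.isLt; simp only [ocode]; omega

/-- certificates for a uniform rank four oriented matroid with Euclidean programs at infinity -/
structure Cert (N m off : ℕ) (hN : ℕ → ℕ → ℕ) : Prop where
  fin : ∀ x y, x < y → y < m → ∃ L : List (ℕ × Bool), L.all (fun p => p.1 + 1 < m + 1) = true ∧
    lineOK N (m + 1) x y (L ++ [(m, true)]) = true ∧
    ∀ F, F < m → F ≠ x → F ≠ y → ∃ b, heightLineOK F off (hN F) x y L b = true
  inf : ∀ x, x < m → ∃ L : List (ℕ × Bool), lineOK N (m + 1) x m L = true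

lemma Cert.LM {N m off : ℕ} {hN : ℕ → ℕ → ℕ} (h : Cert N m off hN) (x y : ℕ) (hxy : x < y)
    (hy : y < m + 1) : LM N (m + 1) x y := by
  by_cases hym : y = m
  · subst hym
    obtain ⟨L, hL⟩ := h.inf x hxy
    exact LM_of_lineOK N _ x _ hxy L hL
  · obtain ⟨L, -, hL, -⟩ := h.fin x y hxy (by omega)
    exact LM_of_lineOK N _ x _ hxy _ hL

lemma fin_four {m : ℕ} (hm : 4 ≤ m) :
    ∃ a b c d : Fin m, a ≠ b ∧ a ≠ c ∧ a ≠ d ∧ b ≠ c ∧ b ≠ d ∧ c ≠ d := by
  refine ⟨⟨0, by omega⟩, ⟨1, by omega⟩, ⟨2, by omega⟩, ⟨3, by omega⟩, ?_⟩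
  simp

/-- the oriented matroid given by a table -/
def tabO (N m off : ℕ) (hN : ℕ → ℕ → ℕ) (hm : 4 ≤ m) (h : Cert N m off hN) :
    Chirotope (Fin m) 2 :=
  tabChirotope N (m + 1) (fun i : Fin m => i.val) (fun _ _ h => Fin.ext h)
    (fun e => by have := e.isLt; omega) h.LM (fin_four hm)

/-- its extension by the element at infinity -/
def tabOg (N m off : ℕ) (hN : ℕ → ℕ → ℕ) (hm : 4 ≤ m) (h : Cert N m off hN) :
    Chirotope (Option (Fin m)) 2 :=
  tabChirotope N (m + 1) (ocode m) (ocode_inj m) (ocode_lt m) h.LM (by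
    obtain ⟨a, b, c, d, h1, h2, h3, h4, h5, h6⟩ := fin_four hm
    exact ⟨some a, some b, some c, some d, fun h => h1 (Option.some.inj h),
      fun h => h2 (Option.some.inj h), fun h => h3 (Option.some.inj h),
      fun h => h4 (Option.some.inj h), fun h => h5 (Option.some.inj h),
      fun h => h6 (Option.some.inj h)⟩)

lemma tabO_X (N m off : ℕ) (hN : ℕ → ℕ → ℕ) (hm : 4 ≤ m) (h : Cert N m off hN)
    (a b c d : Fin m) : (tabO N m off hN hm h).X a b c d = Xn N a b c d := rfl

lemma tabOg_X (N m off : ℕ) (hN : ℕ → ℕ → ℕ) (hm : 4 ≤ m) (h : Cert N m off hN)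
    (a b c d : Option (Fin m)) : (tabOg N m off hN hm h).X a b c d =
      Xn N (ocode m a) (ocode m b) (ocode m c) (ocode m d) := rfl

lemma tabO_uniform (N m off : ℕ) (hN : ℕ → ℕ → ℕ) (hm : 4 ≤ m) (h : Cert N m off hN) :
    (tabO N m off hN hm h).Uniform := by
  intro v hv
  have hne : ∀ a b : Fin 4, a ≠ b → (v a).val ≠ (v b).val :=
    fun a b hab h => hab (hv (Fin.ext h))
  exact Xn_ne_zero N (hne 0 1 (by decide)) (hne 0 2 (by decide)) (hne 0 3 (by decide))
    (hne 1 2 (by decide)) (hne 1 3 (by decide)) (hne 2 3 (by decide))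

lemma tabOg_uniform (N m off : ℕ) (hN : ℕ → ℕ → ℕ) (hm : 4 ≤ m) (h : Cert N m off hN) :
    (tabOg N m off hN hm h).Uniform := by
  intro v hv
  have hne : ∀ a b : Fin 4, a ≠ b → ocode m (v a) ≠ ocode m (v b) :=
    fun a b hab h => hab (hv (ocode_inj m h))
  exact Xn_ne_zero N (hne 0 1 (by decide)) (hne 0 2 (by decide)) (hne 0 3 (by decide))
    (hne 1 2 (by decide)) (hne 1 3 (by decide)) (hne 2 3 (by decide))

/-- bit mask of a set -/
def maskOf (m : ℕ) (T : Finset (Option (Fin m))) : ℕ := ∑ e ∈ T, 2 ^ ocode m e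

lemma maskOf_inj (m : ℕ) : Function.Injective (maskOf m) := by
  intro S T h
  have h1 : ∀ S : Finset (Option (Fin m)), maskOf m S = ∑ i ∈ S.image (ocode m), 2 ^ i := by
    intro S
    rw [Finset.sum_image (fun a _ b _ h => ocode_inj m h)]
    rfl
  rw [h1 S, h1 T] at h
  have h2 := Finset.geomSum_injective (n := 2) le_rfl h
  exact Finset.image_injective (ocode_inj m) h2

lemma maskOf_three (m : ℕ) {a b c : Option (Fin m)} (h1 : a ≠ b) (h2 : a ≠ c) (h3 : b ≠ c) :
    maskOf m {a, b, c} = 2 ^ ocode m a + 2 ^ ocode m b + 2 ^ ocode m c := by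
  unfold maskOf
  rw [Finset.sum_insert (by simp [h1, h2]), Finset.sum_insert (by simp [h3]),
    Finset.sum_singleton]
  ring

/-- the height function on sets -/
def hSet (m off : ℕ) (hN : ℕ → ℕ) (f : Option (Fin m)) (T : Finset (Option (Fin m))) : ℤ :=
  if f ∈ T then 0 else ((hN (maskOf m T) : ℤ) - off) * 131072 + ((maskOf m T : ℕ) : ℤ)

lemma hSet_eq_hZ (m off : ℕ) (hN : ℕ → ℕ) {f x y z : Option (Fin m)} (hfx : f ≠ x)
    (hfy : f ≠ y) (hzx : z ≠ x) (hzy : z ≠ y) (hxy : x ≠ y) :
    hSet m off hN f {z, x, y} = hZ (ocode m f) off hN (ocode m x) (ocode m y) (ocode m z) := by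
  unfold hSet hZ
  have h1 : f ∈ ({z, x, y} : Finset (Option (Fin m))) ↔ ocode m z = ocode m f := by
    simp only [Finset.mem_insert, Finset.mem_singleton]
    constructor
    · rintro (h | h | h)
      · rw [h]
      · exact absurd h hfx
      · exact absurd h hfy
    · intro h; left; exact (ocode_inj m h).symm
  have h2 : maskOf m {z, x, y} = 2 ^ ocode m x + 2 ^ ocode m y + 2 ^ ocode m z := by
    rw [maskOf_three m hzx hzy hxy]; ring
  rw [h2]
  by_cases h3 : ocode m z = ocode m f
  · rw [if_pos (h1.mpr h3), if_pos h3]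
  · rw [if_neg (fun h => h3 (h1.mp h)), if_neg h3]

lemma maskOf_lt (m : ℕ) (hm : m + 1 ≤ 16) (T : Finset (Option (Fin m))) (hT : T.card = 3) :
    maskOf m T < 131072 := by
  obtain ⟨a, b, c, h1, h2, h3, rfl⟩ := Finset.card_eq_three.mp hT
  rw [maskOf_three m h1 h2 h3]
  have b1 := pow_bound (ocode_lt m a) hm
  have b2 := pow_bound (ocode_lt m b) hm
  have b3 := pow_bound (ocode_lt m c) hm
  omega

theorem tabO_mandel (N m off : ℕ) (hN : ℕ → ℕ → ℕ) (hm : 4 ≤ m) (hm' : m + 1 ≤ 16)
    (h : Cert N m off hN) : (tabO N m off hN hm h).Mandel := by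
  refine ⟨tabOg N m off hN hm h, fun v => rfl, ?_, ?_, ?_⟩
  · intro S hS hcl
    have hS' : S.card ≤ 3 := by omega
    obtain ⟨T, hST, hT⟩ := Finset.exists_superset_card_eq hS' (by simp; omega)
    obtain ⟨a, b, c, h1, h2, h3, rfl⟩ := Finset.card_eq_three.mp hT
    have h4 := hcl ![some a, some b, some c] ?_
    · have hU := tabOg_uniform N m off hN hm h
      exact Chirotope.U4 hU none (some a) (some b) (some c) (by simp) (by simp) (by simp)
        (by simpa using h1) (by simpa using h2) (by simpa using h3) h4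
    · rintro s ⟨t, ht, rfl⟩
      have ht' := hST ht
      have hX := (tabOg N m off hN hm h).X_alt
      simp only [Finset.mem_insert, Finset.mem_singleton] at ht'
      rcases ht' with rfl | rfl | rfl
      · exact hX.e12 _ _ _
      · exact hX.e13 _ _ _
      · exact hX.e14 _ _ _
  · intro hcl
    obtain ⟨a, b, c, d, h1, h2, h3, h4, h5, h6⟩ := fin_four hm
    have h7 := hcl ![some a, some b, some c, some d] (by
      exact Chirotope.U4 (tabOg_uniform N m off hN hm h) (some a) (some b) (some c) (some d)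
        (by simpa using h1) (by simpa using h2) (by simpa using h3) (by simpa using h4)
        (by simpa using h5) (by simpa using h6))
    obtain ⟨i, hi⟩ := h7
    fin_cases i <;> simp at hi
  · intro f _ _
    have hU := tabOg_uniform N m off hN hm h
    have hX := (tabOg N m off hN hm h).X_alt
    refine Chirotope.euclidean_of_heights _ hU none (some f) (by simp)
      (hSet m off (hN f.val) (some f)) ?_ ?_ ?_
    · intro T hT
      unfold hSet
      rw [if_pos hT]
    · have key : ∀ x y z w : Option (Fin m), ocode m x < ocode m y → none ≠ x → none ≠ y →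
          some f ≠ x → some f ≠ y → x ≠ y → z ≠ x →
          z ≠ y → w ≠ x → w ≠ y → z ≠ w → none ≠ z → none ≠ w →
          (tabOg N m off hN hm h).X z w x y = (tabOg N m off hN hm h).X (some f) none x y *
            (tabOg N m off hN hm h).X none z x y * (tabOg N m off hN hm h).X none w x y *
            SignType.sign (hSet m off (hN f.val) (some f) {z, x, y} -
              hSet m off (hN f.val) (some f) {w, x, y}) := by
        intro x y z w hlt h1 h2 h3 h4 h5 h6 h7 h8 h9 h10 h11 h12
        have hcode : ∀ e : Option (Fin m), none ≠ e → ocode m e + 1 < m + 1 := by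
          intro e he
          rcases e with _ | e
          · exact absurd rfl he
          · have := e.isLt; simp only [ocode]; omega
        have hcne : ∀ a b : Option (Fin m), a ≠ b → ocode m a ≠ ocode m b :=
          fun a b hab h => hab (ocode_inj m h)
        obtain ⟨L, hL1, hL2, hL3⟩ := h.fin (ocode m x) (ocode m y) hlt
          (by have := hcode y h2; omega)
        obtain ⟨b, hb⟩ := hL3 f.val f.isLt (hcne _ _ h3) (hcne _ _ h4)
        have e := line_heights (N := N) (n := m + 1) (F := f.val) (off := off)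
          (hN := hN f.val) (x := ocode m x) (y := ocode m y) (L := L) (b := b) hm' hlt
          (by have := hcode y h2; omega) (by have := f.isLt; omega) (hcne _ _ h3) (hcne _ _ h4)
          hL1 hL2 hb (ocode m z) (ocode m w) (hcode z h11) (hcode w h12) (hcne _ _ h6)
          (hcne _ _ h7) (hcne _ _ h8) (hcne _ _ h9) (hcne _ _ h10)
        rw [hSet_eq_hZ m off (hN f.val) h3 h4 h6 h7 h5, hSet_eq_hZ m off (hN f.val) h3 h4 h8 h9 h5]
        exact e
      intro x y z w h1 h2 h3 h4 h5 h6 h7 h8 h9 h10 h11 h12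
      have hcne : ocode m x ≠ ocode m y := fun h => h5 (ocode_inj m h)
      rcases lt_or_gt_of_ne hcne with hlt | hlt
      · exact key x y z w hlt h1 h2 h3 h4 h5 h6 h7 h8 h9 h10 h11 h12
      · have e := key y x z w hlt h2 h1 h4 h3 h5.symm h7 h6 h9 h8 h10 h11 h12
        rw [hX.s34 z w x y, hX.s34 (some f) none x y, hX.s34 none z x y,
          hX.s34 none w x y, Finset.pair_comm y x] at e
        have r : ∀ a b c d s : SignType, -a = -b * -c * -d * s → a = b * c * d * s := by decide
        exact r _ _ _ _ _ e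
    · intro T T' hT hT' _ _ hf hf' he
      unfold hSet at he
      rw [if_neg hf, if_neg hf'] at he
      have b1 := maskOf_lt m hm' T hT
      have b2 := maskOf_lt m hm' T' hT'
      apply maskOf_inj m
      omega

section cycles

/-- check of an upward step -/
def upOK (N g f a b c w : ℕ) : Bool :=
  g != a && g != b && g != c && g != w && f != a && f != b && a != b && a != c && a != w &&
    b != c && b != w && c != w && decide (Xn N f g a b * Xn N c w a b * Xn N g c a b *
      Xn N g w a b = -1)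

/-- check of a directed cycle: an instruction `w < m` replaces the third element, `m` rotates,
larger values swap the first two -/
def cyc (N m g f a0 b0 c0 : ℕ) : Bool → ℕ → ℕ → ℕ → List ℕ → Bool
  | t, a, b, c, [] => t && a == a0 && b == b0 && c == c0
  | t, a, b, c, w :: l =>
    if w < m then upOK N g f a b c w && cyc N m g f a0 b0 c0 true a b w l
    else if w = m then cyc N m g f a0 b0 c0 t b c a l
    else cyc N m g f a0 b0 c0 t b a c l

lemma cyc_reach (N m : ℕ) (M : Chirotope (Fin m) 2) (s : SignType)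
    (hM : ∀ a b c d : Fin m, M.X a b c d = s * Xn N a b c d) (hs : s ≠ 0) (g f a0 b0 c0 : Fin m)
    (l : List ℕ) :
    ∀ (t : Bool) (a b c : Fin m), cyc N m g f a0 b0 c0 t a b c l = true →
      Reach M.X g f a0 b0 c0 t a b c → Reach M.X g f a0 b0 c0 true a0 b0 c0 := by
  induction l with
  | nil =>
    intro t a b c h hr
    simp only [cyc, Bool.and_eq_true, beq_iff_eq] at h
    obtain ⟨⟨⟨h1, h2⟩, h3⟩, h4⟩ := h
    have e1 := Fin.ext h2
    have e2 := Fin.ext h3
    have e3 := Fin.ext h4
    subst e1 e2 e3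
    rw [h1] at hr
    exact hr
  | cons w l ih =>
    intro t a b c h hr
    simp only [cyc] at h
    by_cases hw : w < m
    · rw [if_pos hw, Bool.and_eq_true] at h
      obtain ⟨h1, h2⟩ := h
      refine ih true a b ⟨w, hw⟩ h2 (Reach.step hr ?_)
      unfold upOK at h1
      simp only [Bool.and_eq_true, bne_iff_ne, decide_eq_true_eq] at h1
      obtain ⟨⟨⟨⟨⟨⟨⟨⟨⟨⟨⟨⟨k1, k2⟩, k3⟩, k4⟩, k5⟩, k6⟩, k7⟩, k8⟩, k9⟩, k10⟩, k11⟩, k12⟩, k13⟩ := h1
      refine ⟨fun h => k1 (congrArg Fin.val h), fun h => k2 (congrArg Fin.val h),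
        fun h => k3 (congrArg Fin.val h), fun h => k4 (congrArg Fin.val h),
        fun h => k5 (congrArg Fin.val h), fun h => k6 (congrArg Fin.val h),
        fun h => k7 (congrArg Fin.val h), fun h => k8 (congrArg Fin.val h),
        fun h => k9 (congrArg Fin.val h), fun h => k10 (congrArg Fin.val h),
        fun h => k11 (congrArg Fin.val h), fun h => k12 (congrArg Fin.val h), ?_⟩
      rw [hM, hM, hM, hM, ← k13]
      have r : ∀ s p q u v : SignType, s ≠ 0 → s * p * (s * q) * (s * u) * (s * v) =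
        p * q * u * v := by decide
      exact r _ _ _ _ _ hs
    · rw [if_neg hw] at h
      by_cases hw2 : w = m
      · rw [if_pos hw2] at h
        exact ih t b c a h (Reach.rot hr)
      · rw [if_neg hw2] at h
        exact ih t b a c h (Reach.swap hr)

/-- A checked cycle refutes Euclideanness. -/
theorem not_euclidean_of_cyc (N m : ℕ) (M : Chirotope (Fin m) 2) (s : SignType)
    (hM : ∀ a b c d : Fin m, M.X a b c d = s * Xn N a b c d) (hs : s ≠ 0) (hU : M.Uniform)
    (g f a0 b0 c0 : Fin m) (l : List ℕ)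
    (hd : (f != g && f != a0 && f != b0 && f != c0 && g != a0 && g != b0 && g != c0 &&
      a0 != b0 && a0 != c0 && b0 != c0) = true)
    (h : cyc N m g f a0 b0 c0 false a0 b0 c0 l = true) : ¬ M.EuclideanProgram g f := by
  simp only [Bool.and_eq_true, bne_iff_ne] at hd
  obtain ⟨⟨⟨⟨⟨⟨⟨⟨⟨h1, h2⟩, h3⟩, h4⟩, h5⟩, h6⟩, h7⟩, h8⟩, h9⟩, h10⟩ := hd
  exact M.not_euclidean_of_cycle hU g f h1 a0 b0 c0
    (Chirotope.U4 hU _ _ _ _ h5 h6 h7 h8 h9 h10) h2 h3 h4
    (cyc_reach N m M s hM hs g f a0 b0 c0 l false a0 b0 c0 h Reach.start)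

end cycles

end Pool.Agent.H145.Euc
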