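import Pool.Agent.H145.Euc.Defs

namespace Pool.Agent.H145.Euc

open SignType

lemma gp3_mul (s x y z : SignType) (h : GP3 x y z) : GP3 (s * x) (s * y) (s * z) := by
  revert s x y z; decide

lemma gp3_of_mul (s x y z : SignType) (hs : s ≠ 0) (h : GP3 (s * x) (s * y) (s * z)) :
    GP3 x y z := by
  revert s x y z; decide

lemma gp3_swap12 (x y z : SignType) (h : GP3 x y z) : GP3 y x z := by
  revert x y z; decide

lemma gp3_sign {x y z : ℤ} (h : x + y + z = 0) :
    GP3 (SignType.sign x) (SignType.sign y) (SignType.sign z) := by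
  rcases lt_trichotomy x 0 with hx | hx | hx <;> rcases lt_trichotomy y 0 with hy | hy | hy <;>
    rcases lt_trichotomy z 0 with hz | hz | hz <;>
    first
      | omega
      | (simp only [hx, hy, hz, sign_neg, sign_pos, sign_zero, GP3]; decide)

/-- a four-place sign function is alternating -/
structure Alt4 {E : Type*} (X : E → E → E → E → SignType) : Prop where
  s12 : ∀ a b c d, X b a c d = - X a b c d
  s23 : ∀ a b c d, X a c b d = - X a b c d
  s34 : ∀ a b c d, X a b d c = - X a b c d

section alt

variable {E : Type*} {X : E → E → E → E → SignType}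

lemma neg_self_eq (s : SignType) (h : s = -s) : s = 0 := by
  revert s; decide

lemma Alt4.e12 (h : Alt4 X) (a c d : E) : X a a c d = 0 := neg_self_eq _ (h.s12 a a c d)
lemma Alt4.e23 (h : Alt4 X) (a b d : E) : X a b b d = 0 := neg_self_eq _ (h.s23 a b b d)
lemma Alt4.e34 (h : Alt4 X) (a b c : E) : X a b c c = 0 := neg_self_eq _ (h.s34 a b c c)
lemma Alt4.e13 (h : Alt4 X) (a b d : E) : X a b a d = 0 := by
  rw [h.s23, h.e12]; rfl
lemma Alt4.e24 (h : Alt4 X) (a b c : E) : X a b c b = 0 := by
  rw [h.s34, h.e23]; rfl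
lemma Alt4.e14 (h : Alt4 X) (a b c : E) : X a b c a = 0 := by
  rw [h.s34, h.e13]; rfl
lemma Alt4.s13 (h : Alt4 X) (a b c d : E) : X c b a d = - X a b c d := by
  rw [h.s12, h.s23, h.s12]; simp
lemma Alt4.s24 (h : Alt4 X) (a b c d : E) : X a d c b = - X a b c d := by
  rw [h.s23, h.s34, h.s23]; simp
lemma Alt4.s14 (h : Alt4 X) (a b c d : E) : X d b c a = - X a b c d := by
  rw [h.s12, h.s24, h.s12]; simp

end alt

/-- the three-term condition of a four-place function at the line `x, y` -/
def GPat {E : Type*} (X : E → E → E → E → SignType) (x y a b c d : E) : Prop :=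
  GP3 (X a b x y * X c d x y) (-(X a c x y * X b d x y)) (X a d x y * X b c x y)

section gpat

variable {E : Type*} {X : E → E → E → E → SignType}

lemma GPat.swap_ab (hX : Alt4 X) {x y a b c d : E} (h : GPat X x y a b c d) :
    GPat X x y b a c d := by
  unfold GPat at *
  rw [hX.s12 a b x y]
  generalize X a b x y = p at *
  generalize X c d x y = q at *
  generalize X a c x y = r at *
  generalize X b d x y = s at *
  generalize X a d x y = t at *
  generalize X b c x y = u at *
  revert p q r s t u; decide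

lemma GPat.swap_bc (hX : Alt4 X) {x y a b c d : E} (h : GPat X x y a b c d) :
    GPat X x y a c b d := by
  unfold GPat at *
  rw [hX.s12 b c x y]
  generalize X a b x y = p at *
  generalize X c d x y = q at *
  generalize X a c x y = r at *
  generalize X b d x y = s at *
  generalize X a d x y = t at *
  generalize X b c x y = u at *
  revert p q r s t u; decide

lemma GPat.swap_cd (hX : Alt4 X) {x y a b c d : E} (h : GPat X x y a b c d) :
    GPat X x y a b d c := by
  unfold GPat at *
  rw [hX.s12 c d x y]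
  generalize X a b x y = p at *
  generalize X c d x y = q at *
  generalize X a c x y = r at *
  generalize X b d x y = s at *
  generalize X a d x y = t at *
  generalize X b c x y = u at *
  revert p q r s t u; decide

lemma GPat.swap_xy (hX : Alt4 X) {x y a b c d : E} (h : GPat X x y a b c d) :
    GPat X y x a b c d := by
  unfold GPat at *
  rw [hX.s34 a b x y, hX.s34 c d x y, hX.s34 a c x y, hX.s34 b d x y, hX.s34 a d x y,
    hX.s34 b c x y]
  simpa using h

lemma gpat_ab (hX : Alt4 X) (x y a c d : E) : GPat X x y a a c d := by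
  unfold GPat
  rw [hX.e12]
  generalize X c d x y = q
  generalize X a c x y = r
  generalize X a d x y = t
  revert q r t; decide

lemma gpat_ax (hX : Alt4 X) (x y b c d : E) : GPat X x y x b c d := by
  unfold GPat
  rw [hX.e13, hX.e13, hX.e13]
  left; simp

lemma gpat_xy (hX : Alt4 X) (x a b c d : E) : GPat X x x a b c d := by
  unfold GPat
  left; simp [hX.e34]

/-- the three-term conditions are automatic when two of the six elements agree -/
lemma gpat_of_eq (hX : Alt4 X) {x y a b c d : E}
    (h : ¬ (a ≠ b ∧ a ≠ c ∧ a ≠ d ∧ b ≠ c ∧ b ≠ d ∧ c ≠ d ∧ x ≠ y ∧ x ≠ a ∧ x ≠ b ∧ x ≠ c ∧ x ≠ d ∧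
      y ≠ a ∧ y ≠ b ∧ y ≠ c ∧ y ≠ d)) : GPat X x y a b c d := by
  by_cases h1 : a = b
  · subst h1; exact gpat_ab hX _ _ _ _ _
  by_cases h2 : a = c
  · subst h2; exact (gpat_ab hX _ _ _ _ _).swap_bc hX
  by_cases h3 : a = d
  · subst h3; exact ((gpat_ab hX _ _ _ _ _).swap_bc hX).swap_cd hX
  by_cases h4 : b = c
  · subst h4
    exact (((gpat_ab hX x y b a d)).swap_bc hX).swap_ab hX
  by_cases h5 : b = d
  · subst h5
    exact ((((gpat_ab hX x y b a c)).swap_bc hX).swap_ab hX).swap_cd hX
  by_cases h6 : c = d
  · subst h6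
    exact ((((((gpat_ab hX x y c a b)).swap_bc hX).swap_ab hX).swap_cd hX)).swap_bc hX
  by_cases h7 : x = y
  · subst h7; exact gpat_xy hX _ _ _ _ _
  have key : ∀ x y a b c d : E, x = a ∨ x = b ∨ x = c ∨ x = d → GPat X x y a b c d := by
    intro x y a b c d h
    rcases h with h | h | h | h
    · subst h; exact gpat_ax hX _ _ _ _ _
    · subst h; exact (gpat_ax hX _ _ _ _ _).swap_ab hX
    · subst h; exact ((gpat_ax hX _ _ _ _ _).swap_ab hX).swap_bc hX
    · subst h; exact (((gpat_ax hX _ _ _ _ _).swap_ab hX).swap_bc hX).swap_cd hX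
  by_cases h8 : x = a ∨ x = b ∨ x = c ∨ x = d
  · exact key _ _ _ _ _ _ h8
  by_cases h9 : y = a ∨ y = b ∨ y = c ∨ y = d
  · exact (key _ _ _ _ _ _ h9).swap_xy hX
  exfalso
  apply h
  push Not at h8 h9
  exact ⟨h1, h2, h3, h4, h5, h6, h7, h8.1, h8.2.1, h8.2.2.1, h8.2.2.2, h9.1, h9.2.1, h9.2.2.1,
    h9.2.2.2⟩

/-- a rank-two model: the line is realized by integer vectors -/
lemma gpat_of_model {x y a b c d : E} (v : E → ℤ × ℤ) (e : E → SignType)
    (hab : X a b x y = e a * e b * SignType.sign ((v a).1 * (v b).2 - (v a).2 * (v b).1))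
    (hac : X a c x y = e a * e c * SignType.sign ((v a).1 * (v c).2 - (v a).2 * (v c).1))
    (had : X a d x y = e a * e d * SignType.sign ((v a).1 * (v d).2 - (v a).2 * (v d).1))
    (hbc : X b c x y = e b * e c * SignType.sign ((v b).1 * (v c).2 - (v b).2 * (v c).1))
    (hbd : X b d x y = e b * e d * SignType.sign ((v b).1 * (v d).2 - (v b).2 * (v d).1))
    (hcd : X c d x y = e c * e d * SignType.sign ((v c).1 * (v d).2 - (v c).2 * (v d).1)) :
    GPat X x y a b c d := by
  unfold GPat
  rw [hab, hac, had, hbc, hbd, hcd]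
  have h1 : ∀ p q r s : SignType, ∀ i j : ℤ,
      (p * q * SignType.sign i) * (r * s * SignType.sign j) =
        (p * q * r * s) * SignType.sign (i * j) := by
    intro p q r s i j
    rw [sign_mul]
    generalize SignType.sign i = i'
    generalize SignType.sign j = j'
    revert p q r s i' j'; decide
  have h2 : ∀ i : ℤ, - SignType.sign i = SignType.sign (-i) := by
    intro i; rw [Left.sign_neg]
  rw [h1, h1, h1]
  have h3 : ∀ s t : SignType, -(s * t) = s * (-t) := by decide
  rw [h3, h2]
  have e2 : e a * e c * e b * e d = e a * e b * e c * e d := by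
    generalize e a = p
    generalize e b = q
    generalize e c = r
    generalize e d = s
    revert p q r s; decide
  have e3 : e a * e d * e b * e c = e a * e b * e c * e d := by
    generalize e a = p
    generalize e b = q
    generalize e c = r
    generalize e d = s
    revert p q r s; decide
  rw [e2, e3]
  apply gp3_mul
  apply gp3_sign
  ring

end gpat

namespace Chirotope

variable {E : Type*}

/-- the four-place function of a rank-four chirotope -/
def X (M : Chirotope E 2) (a b c d : E) : SignType := M.χ ![a, b, c, d]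

lemma χ_eq_X (M : Chirotope E 2) (v : Fin 4 → E) : M.χ v = M.X (v 0) (v 1) (v 2) (v 3) := by
  unfold X
  congr 1
  funext i
  fin_cases i <;> rfl

lemma X_alt (M : Chirotope E 2) : Alt4 M.X := by
  constructor
  · intro a b c d
    have := M.alt ![a, b, c, d] 0 1 (by decide)
    rw [M.χ_eq_X] at this
    exact this
  · intro a b c d
    have := M.alt ![a, b, c, d] 1 2 (by decide)
    rw [M.χ_eq_X] at this
    exact this
  · intro a b c d
    have := M.alt ![a, b, c, d] 2 3 (by decide)
    rw [M.χ_eq_X] at this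
    exact this

lemma X_gp (M : Chirotope E 2) (x y a b c d : E) : GPat M.X x y a b c d := M.gp ![x, y] a b c d

/-- build a rank-four chirotope from a four-place function -/
def ofFun (X : E → E → E → E → SignType) (hX : Alt4 X) (hne : ∃ a b c d, X a b c d ≠ 0)
    (hex : ∀ v w : Fin 4 → E, X (v 0) (v 1) (v 2) (v 3) ≠ 0 → X (w 0) (w 1) (w 2) (w 3) ≠ 0 →
      ∀ i, ∃ j, X (Function.update v i (w j) 0) (Function.update v i (w j) 1)
        (Function.update v i (w j) 2) (Function.update v i (w j) 3) ≠ 0)
    (hgp : ∀ x y a b c d, GPat X x y a b c d) : Chirotope E 2 where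
  χ v := X (v 0) (v 1) (v 2) (v 3)
  ne_zero := by
    obtain ⟨a, b, c, d, h⟩ := hne
    exact ⟨![a, b, c, d], h⟩
  alt := by
    intro v i j hij
    have h : ∀ i j : Fin 4, i < j →
        X ((v ∘ Equiv.swap i j) 0) ((v ∘ Equiv.swap i j) 1) ((v ∘ Equiv.swap i j) 2)
          ((v ∘ Equiv.swap i j) 3) = - X (v 0) (v 1) (v 2) (v 3) := by
      intro i j hij
      fin_cases i <;> fin_cases j <;> first | (exact absurd hij (by decide)) | skip
      · exact hX.s12 _ _ _ _
      · exact hX.s13 _ _ _ _
      · exact hX.s14 _ _ _ _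
      · exact hX.s23 _ _ _ _
      · exact hX.s24 _ _ _ _
      · exact hX.s34 _ _ _ _
    rcases lt_or_gt_of_ne hij with h1 | h1
    · exact h i j h1
    · rw [Equiv.swap_comm]; exact h j i h1
  exch := hex
  gp := by
    intro u a b c d
    exact hgp (u 0) (u 1) a b c d

lemma ofFun_X (X : E → E → E → E → SignType) (hX hne hex hgp) (a b c d : E) :
    (ofFun X hX hne hex hgp).X a b c d = X a b c d := rfl

end Chirotope

end Pool.Agent.H145.Euc
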