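import Pool.Agent.H145.Euc.Assemble

namespace Pool.Agent.H145.Euc

/-- a line of the certificate -/
structure LineData where
  /-- first element -/
  x : ℕ
  /-- second element -/
  y : ℕ
  /-- the line with signs -/
  l : List (ℕ × Bool)

/-- height lookup -/
def hLook (ht : List ℕ) (p : ℕ) (F msk : ℕ) : ℕ := (ht.getD F 0 >>> (8 * (msk % p))) % 256

/-- check of a finite line with all its heights -/
def finLineOK (N m off : ℕ) (ht : List ℕ) (p : ℕ) (d : LineData) : Bool :=
  d.l.all (fun q => decide (q.1 + 1 < m + 1)) && lineOK N (m + 1) d.x d.y (d.l ++ [(m, true)]) &&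
    (List.range m).all (fun F => F == d.x || F == d.y ||
      (match lineDir F d.x d.y d.l with
        | true => heightLineOK F off (hLook ht p F) d.x d.y d.l true
        | false => heightLineOK F off (hLook ht p F) d.x d.y d.l false))

/-- all pairs are covered -/
def covers (m : ℕ) (ls : List LineData) : Bool :=
  (List.range m).all (fun x => (List.range m).all (fun y =>
    !(decide (x < y)) || ls.any (fun d => d.x == x && d.y == y)))

/-- all lines through infinity -/
def infOK (N m : ℕ) (ls : List LineData) : Bool :=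
  (List.range m).all (fun x => ls.any (fun d => d.x == x && lineOK N (m + 1) x m d.l))

lemma cert_of_check (N m off : ℕ) (ht : List ℕ) (p : ℕ) (lf li : List LineData)
    (h1 : lf.all (finLineOK N m off ht p) = true) (h2 : covers m lf = true)
    (h3 : infOK N m li = true) : Cert N m off (hLook ht p) := by
  constructor
  · intro x y hxy hy
    unfold covers at h2
    rw [List.all_eq_true] at h2
    have h4 := h2 x (List.mem_range.mpr (by omega))
    rw [List.all_eq_true] at h4
    have h5 := h4 y (List.mem_range.mpr hy)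
    simp only [hxy, decide_true, Bool.not_true, Bool.false_or, List.any_eq_true,
      Bool.and_eq_true, beq_iff_eq] at h5
    obtain ⟨d, hd, rfl, rfl⟩ := h5
    rw [List.all_eq_true] at h1
    have h6 := h1 d hd
    unfold finLineOK at h6
    rw [Bool.and_eq_true, Bool.and_eq_true] at h6
    obtain ⟨⟨h7, h8⟩, h9⟩ := h6
    refine ⟨d.l, ?_, h8, ?_⟩
    · exact h7
    · intro F hF hFx hFy
      rw [List.all_eq_true] at h9
      have h10 := h9 F (List.mem_range.mpr hF)
      simp only [Bool.or_eq_true, beq_iff_eq, hFx, hFy, false_or] at h10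
      revert h10
      cases lineDir F d.x d.y d.l
      · intro h10; exact ⟨false, h10⟩
      · intro h10; exact ⟨true, h10⟩
  · intro x hx
    unfold infOK at h3
    rw [List.all_eq_true] at h3
    have h4 := h3 x (List.mem_range.mpr hx)
    simp only [List.any_eq_true, Bool.and_eq_true, beq_iff_eq] at h4
    obtain ⟨d, _, _, h5⟩ := h4
    exact ⟨d.l, h5⟩

/-- a cycle certificate -/
structure CycData where
  /-- infinity -/
  g : ℕ
  /-- objective -/
  f : ℕ
  /-- start -/
  a : ℕ
  /-- start -/
  b : ℕ
  /-- start -/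
  c : ℕ
  /-- instructions -/
  l : List ℕ

/-- distinctness check -/
def distOK (d : CycData) : Bool :=
  d.f != d.g && d.f != d.a && d.f != d.b && d.f != d.c && d.g != d.a && d.g != d.b &&
      d.g != d.c && d.a != d.b && d.a != d.c && d.b != d.c

/-- check of a cycle certificate -/
def cycOK (N m : ℕ) (d : CycData) : Bool :=
  decide (d.g < m) && decide (d.f < m) && decide (d.a < m) && decide (d.b < m) &&
    decide (d.c < m) && distOK d &&
    cyc N m d.g d.f d.a d.b d.c false d.a d.b d.c d.l

lemma not_euclidean_of_cycOK (N m : ℕ) (M : Chirotope (Fin m) 2) (s : SignType)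
    (hM : ∀ a b c d : Fin m, M.X a b c d = s * Xn N a b c d) (hs : s ≠ 0) (hU : M.Uniform)
    (d : CycData) (h : cycOK N m d = true) (g f : Fin m) (hg : d.g = g) (hf : d.f = f) :
    ¬ M.EuclideanProgram g f := by
  unfold cycOK at h
  simp only [Bool.and_eq_true, decide_eq_true_eq] at h
  obtain ⟨⟨⟨⟨⟨⟨_, _⟩, h3⟩, h4⟩, h5⟩, h6⟩, h7⟩ := h
  have h8 : ∀ a b : Fin m, (a.val != b.val) = (a != b) := by
    intro a b
    rw [Bool.eq_iff_iff, bne_iff_ne, bne_iff_ne]
    exact ⟨fun h h' => h (congrArg Fin.val h'), fun h h' => h (Fin.ext h')⟩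
  refine not_euclidean_of_cyc N m M s hM hs hU g f ⟨d.a, h3⟩ ⟨d.b, h4⟩ ⟨d.c, h5⟩ d.l ?_ ?_
  · rw [← h8, ← h8, ← h8, ← h8, ← h8, ← h8, ← h8, ← h8, ← h8, ← h8, ← hg, ← hf]
    exact h6
  · rw [← hg, ← hf]
    exact h7

end Pool.Agent.H145.Euc
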