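import Mathlib

/-!
Oriented matroids of rank `k + 2`, given by chirotopes, single-element extensions,
Euclidean oriented matroid programs and Mandel oriented matroids.
-/

namespace Pool.Agent.H145.Euc

/-- The three-term Grassmann-Pluecker condition on three signs: either all of them are zero
or both a positive and a negative sign occur. -/
def GP3 (x y z : SignType) : Prop :=
  (x = 0 ∧ y = 0 ∧ z = 0) ∨ ((x = 1 ∨ y = 1 ∨ z = 1) ∧ (x = -1 ∨ y = -1 ∨ z = -1))

instance (x y z : SignType) : Decidable (GP3 x y z) := by unfold GP3; infer_instance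

/-- An oriented matroid of rank `k + 2` on the ground set `E`, presented by a chirotope:
an alternating, not identically zero sign map on `(k+2)`-tuples whose support satisfies the
basis exchange property and which satisfies all three-term Grassmann-Pluecker conditions. -/
structure Chirotope (E : Type*) (k : ℕ) where
  /-- the sign map on ordered `(k+2)`-tuples -/
  χ : (Fin (k + 2) → E) → SignType
  /-- it is not identically zero -/
  ne_zero : ∃ v, χ v ≠ 0
  /-- it is alternating -/
  alt : ∀ (v : Fin (k + 2) → E) (i j : Fin (k + 2)), i ≠ j → χ (v ∘ Equiv.swap i j) = - χ v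
  /-- its support satisfies basis exchange -/
  exch : ∀ v w : Fin (k + 2) → E, χ v ≠ 0 → χ w ≠ 0 →
    ∀ i, ∃ j, χ (Function.update v i (w j)) ≠ 0
  /-- the three-term Grassmann-Pluecker conditions -/
  gp : ∀ (u : Fin k → E) (a b c d : E),
    GP3 (χ (Matrix.vecCons a (Matrix.vecCons b u)) * χ (Matrix.vecCons c (Matrix.vecCons d u)))
      (-(χ (Matrix.vecCons a (Matrix.vecCons c u)) * χ (Matrix.vecCons b (Matrix.vecCons d u))))
      (χ (Matrix.vecCons a (Matrix.vecCons d u)) * χ (Matrix.vecCons b (Matrix.vecCons c u)))

namespace Chirotope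

variable {E : Type*} {k : ℕ}

/-- `e` is a loop: it lies in no basis. -/
def IsLoop (M : Chirotope E k) (e : E) : Prop := ∀ v, M.χ v ≠ 0 → e ∉ Set.range v

/-- `e` is a coloop: it lies in every basis. -/
def IsColoop (M : Chirotope E k) (e : E) : Prop := ∀ v, M.χ v ≠ 0 → e ∈ Set.range v

/-- `M` is uniform: every tuple of pairwise distinct elements is a basis. -/
def Uniform (M : Chirotope E k) : Prop := ∀ v, Function.Injective v → M.χ v ≠ 0

/-- `e` lies in the closure of `S` in the underlying matroid: every cocircuit
`a ↦ χ (a, u)` that vanishes on `S` vanishes at `e`. -/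
def InCl (M : Chirotope E k) (e : E) (S : Set E) : Prop :=
  ∀ u : Fin (k + 1) → E, (∀ s ∈ S, M.χ (Matrix.vecCons s u) = 0) → M.χ (Matrix.vecCons e u) = 0

/-- `N` is a single-element extension of `M`; the new element is `none`. -/
def IsExt (M : Chirotope E k) (N : Chirotope (Option E) k) : Prop :=
  ∀ v : Fin (k + 2) → E, N.χ (some ∘ v) = M.χ v

/-- The oriented matroid program `(M, g, f)` is Euclidean: for every flat `A` of corank one with
`g ∉ A` (spanned by the independent tuple `u`), there is a single-element extension by a
non-loop `p` in `cl A ∩ cl {f, g}`. -/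
def EuclideanProgram (M : Chirotope E k) (g f : E) : Prop :=
  ∀ u : Fin (k + 1) → E, M.χ (Matrix.vecCons g u) ≠ 0 →
    ∃ N : Chirotope (Option E) k, M.IsExt N ∧ ¬ N.IsLoop none ∧
      N.InCl none (some '' Set.range u) ∧ N.InCl none {some f, some g}

/-- The new element of the extension `N` lies in general position: it is in the closure of no
set of fewer than `k + 2` (the rank) old elements. -/
def GeneralPosition (N : Chirotope (Option E) k) : Prop :=
  ∀ S : Finset E, S.card < k + 2 → ¬ N.InCl none (some '' (S : Set E))

/-- `M` is Mandel: it has an extension by `g = none` in general position, `g` not a coloop, such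
that all programs `(M ∪ g, g, f)`, `f` neither a loop nor a coloop of `M`, are Euclidean. -/
def Mandel (M : Chirotope E k) : Prop :=
  ∃ N : Chirotope (Option E) k, M.IsExt N ∧ N.GeneralPosition ∧ ¬ N.IsColoop none ∧
    ∀ f : E, ¬ M.IsLoop f → ¬ M.IsColoop f → N.EuclideanProgram none (some f)

/-- No oriented matroid program `(M, g, f)` (`g ≠ f`, `g` not a loop, `f` not a coloop) is
Euclidean. -/
def TotallyNonEuclidean (M : Chirotope E k) : Prop :=
  ∀ g f : E, g ≠ f → ¬ M.IsLoop g → ¬ M.IsColoop f → ¬ M.EuclideanProgram g f

/-- All oriented matroid programs of `M` are Euclidean. -/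
def Euclidean (M : Chirotope E k) : Prop :=
  ∀ g f : E, g ≠ f → ¬ M.IsLoop g → ¬ M.IsColoop f → M.EuclideanProgram g f

/-- `M` and `M'` are the same oriented matroid: their chirotopes agree up to a global sign. -/
def SameOM (M M' : Chirotope E k) : Prop :=
  (∀ v, M'.χ v = M.χ v) ∨ (∀ v, M'.χ v = - M.χ v)

/-- `M'` is obtained from `M` by reversing the sign of exactly the ordered bases with underlying
set `B`, where `B` has `k + 2` elements (up to a global sign). -/
def Mutant (M M' : Chirotope E k) : Prop :=
  ∃ B : Set E, B.ncard = k + 2 ∧ ∃ s : SignType, s ≠ 0 ∧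
    (∀ v : Fin (k + 2) → E, Set.range v = B → M'.χ v = - (s * M.χ v)) ∧
    (∀ v : Fin (k + 2) → E, Set.range v ≠ B → M'.χ v = s * M.χ v)

/-- `M'` can be reached from `M` through at most `n` mutation-flips, all intermediate oriented
matroids being uniform. -/
inductive FlipDistLE : ℕ → Chirotope E k → Chirotope E k → Prop
  | refl (n : ℕ) {M M' : Chirotope E k} : SameOM M M' → FlipDistLE n M M'
  | step (n : ℕ) {M M' M'' : Chirotope E k} : FlipDistLE n M M' → M'.Uniform → Mutant M' M'' →
      FlipDistLE (n + 1) M M''

end Chirotope

end Pool.Agent.H145.Euc
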