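import Pool.Agent.H145.Euc.Basic

/-! Chirotopes of arbitrary rank from sign functions on finite sets. -/

namespace Pool.Agent.H145.Euc

open SignType Matrix

noncomputable section gen

variable {E : Type*} (code : E → ℤ)

/-- sign of the Vandermonde determinant of the codes of a tuple -/
def vs {r : ℕ} (v : Fin r → E) : SignType :=
  SignType.sign (Matrix.det (Matrix.vandermonde (fun i => code (v i))))

/-- order sign of two elements -/
def sgc (a b : E) : SignType := SignType.sign (code b - code a)

lemma sgc_neg (a b : E) : sgc code b a = - sgc code a b := by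
  unfold sgc
  rw [← Left.sign_neg]
  congr 1
  ring

lemma sgc_self (a : E) : sgc code a a = 0 := by simp [sgc]

lemma sgc_ne {code : E → ℤ} (hc : Function.Injective code) {a b : E} (h : a ≠ b) :
    sgc code a b ≠ 0 := by
  unfold sgc
  rw [ne_eq, sign_eq_zero_iff, sub_eq_zero]
  exact fun h' => h (hc h'.symm)

lemma sign_prod {ι : Type*} (s : Finset ι) (f : ι → ℤ) :
    SignType.sign (∏ i ∈ s, f i) = ∏ i ∈ s, SignType.sign (f i) :=
  map_prod signHom f s

lemma vs_cons {r : ℕ} (a : E) (u : Fin r → E) :
    vs code (vecCons a u) = (∏ j, sgc code a (u j)) * vs code u := by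
  unfold vs sgc
  rw [det_vandermonde, det_vandermonde, Fin.prod_univ_succ, sign_mul]
  congr 1
  · rw [Fin.prod_Ioi_zero (fun j => (code (vecCons a u j) - code (vecCons a u 0))), sign_prod]
    rfl
  · congr 1
    apply Finset.prod_congr rfl
    intro i _
    rw [Fin.prod_Ioi_succ (fun j => (code (vecCons a u j) - code (vecCons a u i.succ)))]
    rfl

lemma vs_perm {r : ℕ} (v : Fin r → E) (σ : Equiv.Perm (Fin r)) :
    vs code (v ∘ σ) = SignType.sign ((Equiv.Perm.sign σ : ℤˣ) : ℤ) * vs code v := by
  unfold vs
  rw [← sign_mul]
  congr 1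
  have := Matrix.det_permute σ (Matrix.vandermonde (fun i => code (v i)))
  rw [← Int.cast_id (n := ((Equiv.Perm.sign σ : ℤˣ) : ℤ)), ← this]
  rfl

lemma vs_swap {r : ℕ} (v : Fin r → E) (i j : Fin r) (hij : i ≠ j) :
    vs code (v ∘ Equiv.swap i j) = - vs code v := by
  rw [vs_perm, Equiv.Perm.sign_swap hij]
  simp

lemma vs_ne {code : E → ℤ} (hc : Function.Injective code) {r : ℕ} (v : Fin r → E) :
    vs code v ≠ 0 ↔ Function.Injective v := by
  unfold vs
  rw [ne_eq, sign_eq_zero_iff, ← ne_eq, det_vandermonde_ne_zero_iff]
  constructor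
  · intro h a b hab
    exact h (congrArg code hab)
  · intro h a b hab
    exact h (hc hab)

lemma sign_sq {s : SignType} (h : s ≠ 0) : s * s = 1 := by revert s; decide

variable [DecidableEq E]

/-- product of order signs against a set -/
def sL (a : E) (Λ : Finset E) : SignType := ∏ x ∈ Λ, sgc code a x

lemma sL_zero {a : E} {Λ : Finset E} (h : a ∈ Λ) : sL code a Λ = 0 :=
  Finset.prod_eq_zero h (sgc_self code a)

lemma sL_ne {code : E → ℤ} (hc : Function.Injective code) {a : E} {Λ : Finset E} (h : a ∉ Λ) :
    sL code a Λ ≠ 0 := by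
  unfold sL
  rw [Finset.prod_ne_zero_iff]
  intro x hx
  exact sgc_ne hc (fun h' => h (h' ▸ hx))

lemma sL_insert (a b : E) {Λ : Finset E} (h : b ∉ Λ) :
    sL code a (insert b Λ) = sgc code a b * sL code a Λ := Finset.prod_insert h

/-- the chirotope function of a set function -/
def chi {r : ℕ} (τ : Finset E → SignType) (v : Fin r → E) : SignType :=
  vs code v * τ (Finset.univ.image v)

/-- the rank two function at a set -/
def PL (τ : Finset E → SignType) (Λ : Finset E) (a b : E) : SignType :=
  sgc code a b * sL code a Λ * sL code b Λ * τ (insert a (insert b Λ))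

lemma PL_neg (τ : Finset E → SignType) (Λ : Finset E) (a b : E) :
    PL code τ Λ b a = - PL code τ Λ a b := by
  unfold PL
  rw [sgc_neg code a b, Finset.insert_comm b a Λ]
  generalize sgc code a b = p
  generalize sL code a Λ = q
  generalize sL code b Λ = r
  generalize τ _ = s
  revert p q r s; decide

lemma PL_zero_left (τ : Finset E → SignType) {Λ : Finset E} {a : E} (b : E) (h : a ∈ Λ) :
    PL code τ Λ a b = 0 := by
  unfold PL; rw [sL_zero code h]; simp

lemma PL_zero_right (τ : Finset E → SignType) {Λ : Finset E} (a : E) {b : E} (h : b ∈ Λ) :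
    PL code τ Λ a b = 0 := by
  unfold PL; rw [sL_zero code h]; simp

lemma PL_self (τ : Finset E → SignType) (Λ : Finset E) (a : E) : PL code τ Λ a a = 0 := by
  unfold PL; rw [sgc_self]; simp

lemma image_vecCons {r : ℕ} (a : E) (u : Fin r → E) :
    Finset.univ.image (vecCons a u) = insert a (Finset.univ.image u) := by
  ext t
  simp only [Finset.mem_image, Finset.mem_univ, true_and, Finset.mem_insert]
  constructor
  · rintro ⟨i, rfl⟩
    refine Fin.cases ?_ (fun i => ?_) i
    · left; rfl
    · right; exact ⟨i, rfl⟩
  · rintro (rfl | ⟨i, rfl⟩)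
    · exact ⟨0, rfl⟩
    · exact ⟨i.succ, rfl⟩

lemma chi_cons2 {code : E → ℤ} (hc : Function.Injective code) {k : ℕ} (τ : Finset E → SignType)
    (u : Fin k → E) (a b : E) :
    chi code τ (vecCons a (vecCons b u)) = vs code u * PL code τ (Finset.univ.image u) a b := by
  by_cases hu : Function.Injective u
  · unfold chi PL
    rw [vs_cons, vs_cons, image_vecCons, image_vecCons]
    have h1 : ∀ a : E, sL code a (Finset.univ.image u) = ∏ j, sgc code a (u j) := by
      intro a
      unfold sL
      rw [Finset.prod_image (fun x _ y _ h => hu h)]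
    rw [h1, h1]
    have h2 : (∏ j, sgc code a (vecCons b u j)) = sgc code a b * ∏ j, sgc code a (u j) := by
      rw [Fin.prod_univ_succ]
      rfl
    rw [h2]
    generalize sgc code a b = p
    generalize (∏ j, sgc code a (u j)) = q
    generalize (∏ j, sgc code b (u j)) = r
    generalize τ _ = s
    generalize vs code u = t
    revert p q r s t; decide
  · have h0 : vs code u = 0 := by
      by_contra h
      exact hu ((vs_ne hc u).mp h)
    unfold chi
    rw [vs_cons, vs_cons, h0]
    simp

/-- validity of a set function -/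
structure TauOK (τ : Finset E → SignType) (k : ℕ) : Prop where
  ne : ∃ B, B.card = k + 2 ∧ τ B ≠ 0
  ex : ∀ B1 B2 : Finset E, B1.card = k + 2 → B2.card = k + 2 → τ B1 ≠ 0 → τ B2 ≠ 0 →
    ∀ x ∈ B1, ∃ y ∈ B2, y ∉ B1.erase x ∧ τ (insert y (B1.erase x)) ≠ 0
  gp : ∀ Λ : Finset E, Λ.card = k → ∀ a b c d : E, a ∉ Λ → b ∉ Λ → c ∉ Λ → d ∉ Λ →
    a ≠ b → a ≠ c → a ≠ d → b ≠ c → b ≠ d → c ≠ d →
    GP3 (PL code τ Λ a b * PL code τ Λ c d) (-(PL code τ Λ a c * PL code τ Λ b d))
      (PL code τ Λ a d * PL code τ Λ b c)

/-- an antisymmetric function satisfies the three-term conditions once it does for distinct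
arguments -/
lemma gp3_anti (F : E → E → SignType) (hF : ∀ a b, F b a = - F a b) (a b c d : E)
    (h : a ≠ b → a ≠ c → a ≠ d → b ≠ c → b ≠ d → c ≠ d →
      GP3 (F a b * F c d) (-(F a c * F b d)) (F a d * F b c)) :
    GP3 (F a b * F c d) (-(F a c * F b d)) (F a d * F b c) := by
  have hz : ∀ a, F a a = 0 := fun a => neg_self_eq _ (hF a a)
  by_cases h1 : a = b
  · subst h1
    rw [hz]
    generalize F c d = p
    generalize F a c = q
    generalize F a d = r
    revert p q r; decide
  by_cases h2 : a = c
  · subst h2
    rw [hz, hF a b]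
    generalize F a b = p
    generalize F a d = q
    generalize F b d = r
    revert p q r; decide
  by_cases h3 : a = d
  · subst h3
    rw [hz, hF a c, hF a b]
    generalize F a b = p
    generalize F a c = q
    generalize F b c = r
    revert p q r; decide
  by_cases h4 : b = c
  · subst h4
    rw [hz]
    generalize F a b = p
    generalize F b d = q
    generalize F a d = r
    revert p q r; decide
  by_cases h5 : b = d
  · subst h5
    rw [hz, hF b c]
    generalize F a b = p
    generalize F a c = q
    generalize F b c = r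
    revert p q r; decide
  by_cases h6 : c = d
  · subst h6
    rw [hz]
    generalize F a c = p
    generalize F b c = q
    generalize F a b = r
    revert p q r; decide
  exact h h1 h2 h3 h4 h5 h6

/-- the chirotope of a valid set function -/
def ofTau {code : E → ℤ} (hc : Function.Injective code) {k : ℕ} (τ : Finset E → SignType)
    (h : TauOK code τ k) : Chirotope E k where
  χ := chi code τ
  ne_zero := by
    obtain ⟨B, hB, hne⟩ := h.ne
    obtain ⟨e⟩ : Nonempty (Fin (k + 2) ≃ B) :=
      ⟨(finCongr hB.symm).trans B.equivFin.symm⟩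
    refine ⟨fun i => (e i : E), ?_⟩
    unfold chi
    have hinj : Function.Injective (fun i => (e i : E)) :=
      fun a b hab => e.injective (Subtype.ext hab)
    have himg : Finset.univ.image (fun i => (e i : E)) = B := by
      ext t
      simp only [Finset.mem_image, Finset.mem_univ, true_and]
      constructor
      · rintro ⟨i, rfl⟩; exact (e i).2
      · intro ht; exact ⟨e.symm ⟨t, ht⟩, by simp⟩
    rw [himg]
    exact mul_ne_zero ((vs_ne hc _).mpr hinj) hne
  alt := by
    intro v i j hij
    unfold chi
    rw [vs_swap code v i j hij, neg_mul]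
    congr 2
    congr 1
    ext t
    simp only [Finset.mem_image, Finset.mem_univ, true_and, Function.comp]
    constructor
    · rintro ⟨l, rfl⟩; exact ⟨_, rfl⟩
    · rintro ⟨l, rfl⟩; exact ⟨Equiv.swap i j l, by simp⟩
  exch := by
    intro v w hv hw i
    unfold chi at hv hw
    have hv1 := (vs_ne hc v).mp (left_ne_zero_of_mul hv)
    have hw1 := (vs_ne hc w).mp (left_ne_zero_of_mul hw)
    have hcv : (Finset.univ.image v).card = k + 2 := by
      rw [Finset.card_image_of_injective _ hv1]; simp
    have hcw : (Finset.univ.image w).card = k + 2 := by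
      rw [Finset.card_image_of_injective _ hw1]; simp
    obtain ⟨y, hy, hyn, hτ⟩ := h.ex _ _ hcv hcw (right_ne_zero_of_mul hv)
      (right_ne_zero_of_mul hw) (v i) (Finset.mem_image_of_mem _ (Finset.mem_univ _))
    obtain ⟨j, -, rfl⟩ := Finset.mem_image.mp hy
    refine ⟨j, ?_⟩
    have hnot : ∀ l, l ≠ i → v l ≠ w j := by
      intro l hl h
      apply hyn
      rw [← h]
      exact Finset.mem_erase.mpr ⟨fun h' => hl (hv1 h'),
        Finset.mem_image_of_mem _ (Finset.mem_univ _)⟩
    have hu : Function.Injective (Function.update v i (w j)) := by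
      intro a b hab
      by_cases ha : a = i
      · by_cases hb : b = i
        · rw [ha, hb]
        · rw [ha, Function.update_self, Function.update_of_ne hb] at hab
          exact absurd hab.symm (hnot b hb)
      · by_cases hb : b = i
        · rw [hb, Function.update_self, Function.update_of_ne ha] at hab
          exact absurd hab (hnot a ha)
        · rw [Function.update_of_ne ha, Function.update_of_ne hb] at hab
          exact hv1 hab
    have himg : Finset.univ.image (Function.update v i (w j)) =
        insert (w j) ((Finset.univ.image v).erase (v i)) := by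
      ext t
      simp only [Finset.mem_image, Finset.mem_univ, true_and, Finset.mem_insert,
        Finset.mem_erase]
      constructor
      · rintro ⟨a, rfl⟩
        by_cases ha : a = i
        · left; rw [ha, Function.update_self]
        · right
          rw [Function.update_of_ne ha]
          exact ⟨fun h' => ha (hv1 h'), a, rfl⟩
      · rintro (h | ⟨hne, a, rfl⟩)
        · exact ⟨i, by rw [Function.update_self, h]⟩
        · exact ⟨a, Function.update_of_ne (fun h => hne (by rw [h])) _ _⟩
    unfold chi
    rw [himg]
    exact mul_ne_zero ((vs_ne hc _).mpr hu) hτ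
  gp := by
    intro u a b c d
    rw [chi_cons2 hc, chi_cons2 hc, chi_cons2 hc, chi_cons2 hc, chi_cons2 hc, chi_cons2 hc]
    obtain ⟨Λ, hΛ⟩ : ∃ Λ, Λ = Finset.univ.image u := ⟨_, rfl⟩
    rw [← hΛ]
    by_cases hu : Function.Injective u
    · have r : ∀ s p q : SignType, s * p * (s * q) = (s * s) * (p * q) := by decide
      have r2 : ∀ s p : SignType, -(s * p) = s * (-p) := by decide
      rw [r, r, r, r2]
      apply gp3_mul
      apply gp3_anti (PL code τ Λ) (PL_neg code τ Λ)
      intro h1 h2 h3 h4 h5 h6
      by_cases ha : a ∈ Λ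
      · left; simp [PL_zero_left code τ _ ha]
      by_cases hb : b ∈ Λ
      · left; simp [PL_zero_left code τ _ hb, PL_zero_right code τ _ hb]
      by_cases hcc : c ∈ Λ
      · left; simp [PL_zero_left code τ _ hcc, PL_zero_right code τ _ hcc]
      by_cases hd : d ∈ Λ
      · left; simp [PL_zero_right code τ _ hd]
      refine h.gp Λ ?_ a b c d ha hb hcc hd h1 h2 h3 h4 h5 h6
      rw [hΛ, Finset.card_image_of_injective _ hu]
      simp
    · have hs : vs code u = 0 := by
        by_contra h
        exact hu ((vs_ne hc u).mp h)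
      left; simp [hs]

end gen

end Pool.Agent.H145.Euc
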