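import Pool.Agent.H145.Euc.T3

namespace Pool.Agent.H145.Euc

open SignType

namespace Chirotope

variable {E : Type*}

lemma U4 {M : Chirotope E 2} (hU : M.Uniform) (a b c d : E) (h1 : a ≠ b) (h2 : a ≠ c)
    (h3 : a ≠ d) (h4 : b ≠ c) (h5 : b ≠ d) (h6 : c ≠ d) : M.X a b c d ≠ 0 := by
  apply hU
  intro i j hij
  fin_cases i <;> fin_cases j <;> simp_all

/-- the extension of `M` by an element parallel to `f` -/
def par {k : ℕ} (M : Chirotope E k) (f : E) : Chirotope (Option E) k where
  χ v := M.χ (fun i => (v i).getD f)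
  ne_zero := by
    obtain ⟨v, hv⟩ := M.ne_zero
    exact ⟨fun i => some (v i), hv⟩
  alt := by
    intro v i j hij
    exact M.alt (fun i => (v i).getD f) i j hij
  exch := by
    intro v w hv hw i
    obtain ⟨j, hj⟩ := M.exch _ _ hv hw i
    refine ⟨j, ?_⟩
    have : (fun l => (Function.update v i (w j) l).getD f) =
        Function.update (fun l => (v l).getD f) i ((w j).getD f) := by
      funext l
      by_cases hl : l = i
      · subst hl; simp
      · simp [Function.update_of_ne hl]
    rw [this]
    exact hj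
  gp := by
    intro u a b c d
    have h := M.gp (fun i => (u i).getD f) (a.getD f) (b.getD f) (c.getD f) (d.getD f)
    have e : ∀ a b : Option E,
        (fun i => ((Matrix.vecCons a (Matrix.vecCons b u) : Fin (k + 2) → Option E) i).getD f) =
        Matrix.vecCons (a.getD f) (Matrix.vecCons (b.getD f) (fun i => (u i).getD f)) := by
      intro a b
      funext i
      refine Fin.cases ?_ (fun i => ?_) i
      · rfl
      · refine Fin.cases ?_ (fun i => ?_) i
        · rfl
        · rfl
    rw [e, e, e, e, e, e]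
    exact h

lemma par_spec {k : ℕ} (M : Chirotope E k) (g f : E) (u : Fin (k + 1) → E)
    (hu : M.χ (Matrix.vecCons g u) ≠ 0) (i : Fin (k + 1)) (hi : u i = f) :
    ∃ N : Chirotope (Option E) k, M.IsExt N ∧ ¬ N.IsLoop none ∧
      N.InCl none (some '' Set.range u) ∧ N.InCl none {some f, some g} := by
  have e : ∀ (a : Option E) (u : Fin (k + 1) → Option E),
      (fun i => ((Matrix.vecCons a u : Fin (k + 2) → Option E) i).getD f) =
      Matrix.vecCons (a.getD f) (fun i => (u i).getD f) := by
    intro a u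
    funext i
    refine Fin.cases ?_ (fun i => ?_) i
    · rfl
    · rfl
  refine ⟨M.par f, fun v => rfl, ?_, ?_, ?_⟩
  · intro h
    have h1 := h (fun l => if l = i.succ then none else some (Matrix.vecCons g u l)) ?_
    · exact h1 ⟨i.succ, by simp⟩
    · show M.χ _ ≠ 0
      convert hu using 2
      funext l
      by_cases hl : l = i.succ
      · subst hl
        simp [hi]
      · simp [hl]
  · intro w hw
    have := hw (some f) ⟨f, ⟨i, hi⟩, rfl⟩
    show M.χ _ = 0
    rw [e]
    have h2 : M.χ (fun l => ((Matrix.vecCons (some f) w : Fin (k + 2) → Option E) l).getD f) = 0 :=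
      this
    rw [e] at h2
    exact h2
  · intro w hw
    have := hw (some f) (by simp)
    show M.χ _ = 0
    rw [e]
    have h2 : M.χ (fun l => ((Matrix.vecCons (some f) w : Fin (k + 2) → Option E) l).getD f) = 0 :=
      this
    rw [e] at h2
    exact h2

variable [DecidableEq E]

/-- the localization determined by a height function -/
noncomputable def sig (M : Chirotope E 2) (g f : E) (h : Finset E → ℤ) (h0 : ℤ) (a b c : E) : SignType :=
  if g = a ∨ g = b ∨ g = c then M.X f a b c else M.X g a b c * SignType.sign (h {a, b, c} - h0)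

lemma sig_alt (M : Chirotope E 2) (g f : E) (h : Finset E → ℤ) (h0 : ℤ) :
    Alt3 (M.sig g f h h0) := by
  have hX := M.X_alt
  constructor
  · intro a b c
    unfold sig
    have e : ({b, a, c} : Finset E) = {a, b, c} := Finset.insert_comm _ _ _
    rw [e, hX.s23 f a b c, hX.s23 g a b c]
    by_cases hg : g = a ∨ g = b ∨ g = c
    · have hg' : g = b ∨ g = a ∨ g = c := by tauto
      rw [if_pos hg, if_pos hg']
    · have hg' : ¬ (g = b ∨ g = a ∨ g = c) := by tauto
      rw [if_neg hg, if_neg hg', neg_mul]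
  · intro a b c
    unfold sig
    have e : ({a, c, b} : Finset E) = {a, b, c} := by
      rw [Finset.pair_comm c b]
    rw [e, hX.s34 f a b c, hX.s34 g a b c]
    by_cases hg : g = a ∨ g = b ∨ g = c
    · have hg' : g = a ∨ g = c ∨ g = b := by tauto
      rw [if_pos hg, if_pos hg']
    · have hg' : ¬ (g = a ∨ g = c ∨ g = b) := by tauto
      rw [if_neg hg, if_neg hg', neg_mul]

/-- A height function that is monotone along all lines certifies Euclideanness. -/
theorem euclidean_of_heights (M : Chirotope E 2) (hU : M.Uniform) (g f : E) (hfg : f ≠ g)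
    (h : Finset E → ℤ) (hf0 : ∀ T, f ∈ T → h T = 0)
    (H : ∀ x y z w, g ≠ x → g ≠ y → f ≠ x → f ≠ y → x ≠ y → z ≠ x → z ≠ y → w ≠ x → w ≠ y →
      z ≠ w → g ≠ z → g ≠ w →
      M.X z w x y = M.X f g x y * M.X g z x y * M.X g w x y *
        SignType.sign (h {z, x, y} - h {w, x, y}))
    (hinj : ∀ T T' : Finset E, T.card = 3 → T'.card = 3 → g ∉ T → g ∉ T' → f ∉ T → f ∉ T' →
      h T = h T' → T = T') : M.EuclideanProgram g f := by
  intro u hu
  by_cases hfu : ∃ i, u i = f
  · obtain ⟨i, hi⟩ := hfu
    exact M.par_spec g f u hu i hi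
  push Not at hfu
  obtain ⟨x0, hx0⟩ : ∃ x0, x0 = u 0 := ⟨_, rfl⟩
  obtain ⟨y0, hy0⟩ : ∃ y0, y0 = u 1 := ⟨_, rfl⟩
  obtain ⟨z0, hz0⟩ : ∃ z0, z0 = u 2 := ⟨_, rfl⟩
  have hfx : f ≠ x0 := hx0 ▸ (hfu 0).symm
  have hfy : f ≠ y0 := hy0 ▸ (hfu 1).symm
  have hfz : f ≠ z0 := hz0 ▸ (hfu 2).symm
  have hX := M.X_alt
  have hg0 : M.X g x0 y0 z0 ≠ 0 := by
    rw [M.χ_eq_X] at hu
    rw [hx0, hy0, hz0]
    exact hu
  have hd : g ≠ x0 ∧ g ≠ y0 ∧ g ≠ z0 ∧ x0 ≠ y0 ∧ x0 ≠ z0 ∧ y0 ≠ z0 := by
    refine ⟨?_, ?_, ?_, ?_, ?_, ?_⟩ <;> intro hh <;> apply hg0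
    · rw [← hh]; exact hX.e12 _ _ _
    · rw [← hh]; exact hX.e13 _ _ _
    · rw [← hh]; exact hX.e14 _ _ _
    · rw [← hh]; exact hX.e23 _ _ _
    · rw [← hh]; exact hX.e24 _ _ _
    · rw [← hh]; exact hX.e34 _ _ _
  obtain ⟨hgx, hgy, hgz, hxy, hxz, hyz⟩ := hd
  obtain ⟨h0, hh0⟩ : ∃ h0 : ℤ, h0 = h {x0, y0, z0} := ⟨_, rfl⟩
  have hne0 : ∀ x y z, g ≠ x → g ≠ y → g ≠ z → f ≠ x → f ≠ y → f ≠ z → x ≠ y → x ≠ z → y ≠ z →
      h {x, y, z} ≠ 0 := by
    intro x y z h1 h2 h3 h4 h5 h6 h7 h8 h9 hz
    have e := H x y z f h1 h2 h4 h5 h7 h8.symm h9.symm h4 h5 h6.symm h3 hfg.symm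
    have e1 : ({z, x, y} : Finset E) = {x, y, z} := by
      ext t; simp only [Finset.mem_insert, Finset.mem_singleton]; tauto
    rw [e1, hz, hf0 {f, x, y} (by simp)] at e
    simp only [sub_self, sign_zero, mul_zero] at e
    exact U4 hU z f x y h6.symm h8.symm h9.symm h4 h5 h7 e
  have hh0ne : h0 ≠ 0 := by
    rw [hh0]; exact hne0 _ _ _ hgx hgy hgz hfx hfy hfz hxy hxz hyz
  have hσ := M.sig_alt g f h h0
  have hU' := fun a b c d => U4 hU a b c d
  -- support of sigma
  have hs : ∀ a b c : E, a ≠ b → a ≠ c → b ≠ c → (M.sig g f h h0 a b c ≠ 0 ↔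
      (¬ ((f = a ∨ f = b ∨ f = c) ∧ (g = a ∨ g = b ∨ g = c)) ∧
        ({a, b, c} : Finset E) ≠ {x0, y0, z0})) := by
    intro a b c hab hac hbc
    unfold sig
    by_cases hg : g = a ∨ g = b ∨ g = c
    · rw [if_pos hg]
      have hT : ({a, b, c} : Finset E) ≠ {x0, y0, z0} := by
        intro he
        have : g ∈ ({x0, y0, z0} : Finset E) := by
          rw [← he]; simp only [Finset.mem_insert, Finset.mem_singleton]; exact hg
        simp [hgx, hgy, hgz] at this
      constructor
      · intro hne
        refine ⟨?_, hT⟩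
        rintro ⟨hf, -⟩
        apply hne
        rcases hf with rfl | rfl | rfl
        · exact hX.e12 _ _ _
        · exact hX.e13 _ _ _
        · exact hX.e14 _ _ _
      · rintro ⟨h1, -⟩
        have hf : ¬ (f = a ∨ f = b ∨ f = c) := fun hf => h1 ⟨hf, hg⟩
        push Not at hf
        exact U4 hU _ _ _ _ hf.1 hf.2.1 hf.2.2 hab hac hbc
    · rw [if_neg hg]
      have hg' := hg
      push Not at hg'
      have hXg : M.X g a b c ≠ 0 := U4 hU _ _ _ _ hg'.1 hg'.2.1 hg'.2.2 hab hac hbc
      have h1 : ¬ ((f = a ∨ f = b ∨ f = c) ∧ (g = a ∨ g = b ∨ g = c)) := fun h => hg h.2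
      rw [mul_ne_zero_iff]
      simp only [ne_eq, hXg, not_false_eq_true, true_and, h1]
      rw [sign_eq_zero_iff, sub_eq_zero]
      by_cases hf : f = a ∨ f = b ∨ f = c
      · have hfm : f ∈ ({a, b, c} : Finset E) := by
          simp only [Finset.mem_insert, Finset.mem_singleton]; exact hf
        rw [hf0 _ hfm]
        constructor
        · intro _ he
          rw [he] at hfm
          simp [hfx, hfy, hfz] at hfm
        · intro _; exact hh0ne.symm
      · push Not at hf
        constructor
        · intro hne he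
          apply hne
          rw [hh0, he]
        · intro hne he
          apply hne
          apply hinj
          · rw [Finset.card_eq_three]; exact ⟨a, b, c, hab, hac, hbc, rfl⟩
          · rw [Finset.card_eq_three]; exact ⟨x0, y0, z0, hxy, hxz, hyz, rfl⟩
          · simp [hg'.1, hg'.2.1, hg'.2.2]
          · simp [hgx, hgy, hgz]
          · simp [hf.1, hf.2.1, hf.2.2]
          · simp [hfx, hfy, hfz]
          · rw [he, hh0]
  -- the line conditions
  have hline : ∀ x y b c d : E, x ≠ y → b ≠ x → b ≠ y → c ≠ x → c ≠ y → d ≠ x → d ≠ y → b ≠ c →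
      b ≠ d → c ≠ d →
      GP3 (M.sig g f h h0 b x y * M.X c d x y) (-(M.sig g f h h0 c x y * M.X b d x y))
        (M.sig g f h h0 d x y * M.X b c x y) := by
    intro x y b c d hxy hbx hby hcx hcy hdx hdy hbc hbd hcd
    by_cases hgl : g = x ∨ g = y
    · have e : ∀ t, M.sig g f h h0 t x y = M.X f t x y := by
        intro t
        unfold sig
        rw [if_pos (Or.inr hgl)]
      rw [e, e, e]
      exact M.X_gp x y f b c d
    push Not at hgl
    by_cases hfl : f = x ∨ f = y
    · have e : ∀ t, M.sig g f h h0 t x y = SignType.sign (0 - h0) * M.X g t x y := by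
        intro t
        unfold sig
        have hfm : f ∈ ({t, x, y} : Finset E) := by
          simp only [Finset.mem_insert, Finset.mem_singleton]; right; exact hfl
        by_cases hgt : g = t
        · rw [if_pos (Or.inl hgt), ← hgt]
          rw [hX.e12]
          rcases hfl with hfl | hfl
          · rw [hfl, hX.e13]; simp
          · rw [hfl, hX.e14]; simp
        · have : ¬ (g = t ∨ g = x ∨ g = y) := by
            push Not; exact ⟨hgt, hgl.1, hgl.2⟩
          rw [if_neg this, hf0 _ hfm, mul_comm]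
      rw [e, e, e]
      have h3 := gp3_mul (SignType.sign (0 - h0)) _ _ _ (M.X_gp x y g b c d)
      have r : ∀ s t u : SignType, s * t * u = s * (t * u) := by decide
      have r2 : ∀ s t : SignType, -(s * t) = s * (-t) := by decide
      rw [r, r, r, r2]
      exact h3
    push Not at hfl
    -- the model
    have hK : M.X f g x y ≠ 0 := U4 hU _ _ _ _ hfg hfl.1 hfl.2 hgl.1 hgl.2 hxy
    obtain ⟨K, hK'⟩ : ∃ K, K = M.X f g x y := ⟨_, rfl⟩
    rw [← hK'] at hK
    have hsK : ∀ n : ℤ, SignType.sign ((K : ℤ) * n) = K * SignType.sign n := by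
      intro n
      rw [sign_mul]
      congr 1
      revert K
      intro K _ _
      cases K <;> simp
    let v : Option E → ℤ × ℤ := fun t => match t with
      | none => ((K : ℤ) * h0, 1)
      | some z => if z = g then (1, 0) else ((K : ℤ) * h {z, x, y}, 1)
    let e : Option E → SignType := fun t => match t with
      | none => -K
      | some z => if z = g then 1 else M.X g z x y
    have A : ∀ z, z ≠ x → z ≠ y → XN M.X (M.sig g f h h0) none (some z) (some x) (some y) =
        e none * e (some z) *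
          SignType.sign ((v none).1 * (v (some z)).2 - (v none).2 * (v (some z)).1) := by
      intro z hzx hzy
      show M.sig g f h h0 z x y = _
      unfold sig
      by_cases hz : z = g
      · have hgz' : g = z ∨ g = x ∨ g = y := Or.inl hz.symm
        rw [if_pos hgz']
        simp only [e, v, hz, if_true]
        rw [← hK']
        simp
      · have hgz' : ¬ (g = z ∨ g = x ∨ g = y) := by
          push Not; exact ⟨fun h => hz h.symm, hgl.1, hgl.2⟩
        rw [if_neg hgz']
        simp only [e, v, hz, if_false]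
        have e1 : ((K : ℤ) * h0 * 1 - 1 * ((K : ℤ) * h {z, x, y})) =
            (K : ℤ) * (-(h {z, x, y} - h0)) := by ring
        rw [e1, hsK, Left.sign_neg]
        generalize SignType.sign (h {z, x, y} - h0) = s
        generalize M.X g z x y = t
        clear hsK hK' e v e1
        revert K s t; decide
    have B : ∀ z w, z ≠ x → z ≠ y → w ≠ x → w ≠ y → z ≠ w →
        XN M.X (M.sig g f h h0) (some z) (some w) (some x) (some y) =
        e (some z) * e (some w) *
          SignType.sign ((v (some z)).1 * (v (some w)).2 - (v (some z)).2 * (v (some w)).1) := by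
      intro z w hzx hzy hwx hwy hzw
      show M.X z w x y = _
      by_cases hz : z = g
      · have hw : ¬ w = g := fun h => hzw (hz.trans h.symm)
        simp only [e, v, hz, hw, if_true, if_false]
        simp
      · by_cases hw : w = g
        · simp only [e, v, hz, hw, if_true, if_false]
          rw [hX.s12 g z x y]
          simp
        · simp only [e, v, hz, hw, if_false]
          rw [H x y z w hgl.1 hgl.2 hfl.1 hfl.2 hxy hzx hzy hwx hwy hzw (fun h => hz h.symm)
            (fun h => hw h.symm), ← hK']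
          have e1 : ((K : ℤ) * h {z, x, y} * 1 - 1 * ((K : ℤ) * h {w, x, y})) =
              (K : ℤ) * (h {z, x, y} - h {w, x, y}) := by ring
          rw [e1, hsK]
          generalize SignType.sign (h {z, x, y} - h {w, x, y}) = s
          generalize M.X g z x y = t
          generalize M.X g w x y = r
          clear hsK hK' e v A e1
          revert K s t r; decide
    exact gpat_of_model (X := XN M.X (M.sig g f h h0)) (x := some x) (y := some y) (a := none)
      (b := some b) (c := some c) (d := some d) v e (A b hbx hby) (A c hcx hcy) (A d hdx hdy)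
      (B b c hbx hby hcx hcy hbc) (B b d hbx hby hdx hdy hbd) (B c d hcx hcy hdx hdy hcd)
  -- the extension
  have hne : ∃ a b c d, XN M.X (M.sig g f h h0) a b c d ≠ 0 := by
    obtain ⟨v, hv⟩ := M.ne_zero
    rw [M.χ_eq_X] at hv
    exact ⟨some (v 0), some (v 1), some (v 2), some (v 3), hv⟩
  refine ⟨Chirotope.ofFun (XN M.X (M.sig g f h h0)) (XN_alt hX hσ) hne
    (XN_exch hX hσ f g x0 y0 z0 hfx hfy hfz hgx hgy hgz hfg hU' hs)
    (XN_gp hX hσ M.X_gp hU' hline), ?_, ?_, ?_, ?_⟩
  · intro v
    rw [M.χ_eq_X]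
    rfl
  · intro hl
    have h1 := hl ![none, some f, some x0, some y0] ?_
    · exact h1 ⟨0, rfl⟩
    · show M.sig g f h h0 f x0 y0 ≠ 0
      rw [hs f x0 y0 hfx hfy hxy]
      refine ⟨?_, ?_⟩
      · rintro ⟨-, h2 | h2 | h2⟩
        · exact hfg h2.symm
        · exact hgx h2
        · exact hgy h2
      · intro h2
        have : f ∈ ({x0, y0, z0} : Finset E) := by rw [← h2]; simp
        simp [hfx, hfy, hfz] at this
  · intro w hw
    show XN M.X (M.sig g f h h0) none (w 0) (w 1) (w 2) = 0
    have hwx : XN M.X (M.sig g f h h0) (some x0) (w 0) (w 1) (w 2) = 0 :=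
      hw (some x0) ⟨x0, ⟨0, hx0.symm⟩, rfl⟩
    have hwy : XN M.X (M.sig g f h h0) (some y0) (w 0) (w 1) (w 2) = 0 :=
      hw (some y0) ⟨y0, ⟨1, hy0.symm⟩, rfl⟩
    have hwz : XN M.X (M.sig g f h h0) (some z0) (w 0) (w 1) (w 2) = 0 :=
      hw (some z0) ⟨z0, ⟨2, hz0.symm⟩, rfl⟩
    generalize w 0 = a at *
    generalize w 1 = b at *
    generalize w 2 = c at *
    rcases a with _ | a
    · rfl
    rcases b with _ | b
    · rfl
    rcases c with _ | c
    · rfl
    show M.sig g f h h0 a b c = 0
    by_cases hab : a = b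
    · rw [hab]; exact hσ.e12 _ _
    by_cases hac : a = c
    · rw [hac]; exact hσ.e13 _ _
    by_cases hbc : b = c
    · rw [hbc]; exact hσ.e23 _ _
    have hmem : ∀ s : E, M.X s a b c = 0 → s ∈ ({a, b, c} : Finset E) := by
      intro s h1
      by_contra h2
      simp only [Finset.mem_insert, Finset.mem_singleton] at h2
      push Not at h2
      exact U4 hU s a b c h2.1 h2.2.1 h2.2.2 hab hac hbc h1
    by_contra hcon
    have h3 := (hs a b c hab hac hbc).mp hcon
    apply h3.2
    symm
    apply Finset.eq_of_subset_of_card_le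
    · intro t ht
      simp only [Finset.mem_insert, Finset.mem_singleton] at ht
      rcases ht with rfl | rfl | rfl
      · exact hmem _ hwx
      · exact hmem _ hwy
      · exact hmem _ hwz
    · have c1 : ({a, b, c} : Finset E).card = 3 := Finset.card_eq_three.mpr
        ⟨a, b, c, hab, hac, hbc, rfl⟩
      have c2 : ({x0, y0, z0} : Finset E).card = 3 := Finset.card_eq_three.mpr
        ⟨x0, y0, z0, hxy, hxz, hyz, rfl⟩
      rw [c1, c2]
  · intro w hw
    show XN M.X (M.sig g f h h0) none (w 0) (w 1) (w 2) = 0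
    have hwf : XN M.X (M.sig g f h h0) (some f) (w 0) (w 1) (w 2) = 0 :=
      hw (some f) (by simp)
    have hwg : XN M.X (M.sig g f h h0) (some g) (w 0) (w 1) (w 2) = 0 :=
      hw (some g) (by simp)
    generalize w 0 = a at *
    generalize w 1 = b at *
    generalize w 2 = c at *
    rcases a with _ | a
    · rfl
    rcases b with _ | b
    · rfl
    rcases c with _ | c
    · rfl
    show M.sig g f h h0 a b c = 0
    by_cases hab : a = b
    · rw [hab]; exact hσ.e12 _ _
    by_cases hac : a = c
    · rw [hac]; exact hσ.e13 _ _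
    by_cases hbc : b = c
    · rw [hbc]; exact hσ.e23 _ _
    have hmem : ∀ s : E, M.X s a b c = 0 → (s = a ∨ s = b ∨ s = c) := by
      intro s h1
      by_contra h2
      push Not at h2
      exact U4 hU s a b c h2.1 h2.2.1 h2.2.2 hab hac hbc h1
    by_contra hcon
    have h3 := (hs a b c hab hac hbc).mp hcon
    exact h3.1 ⟨hmem f hwf, hmem g hwg⟩

end Chirotope

end Pool.Agent.H145.Euc
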