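import Pool.Agent.H145.Euc.G1
import Pool.Agent.H145.Euc.T4

/-! Single-element extensions of uniform chirotopes of arbitrary rank given by set functions, and
the height criterion for Euclidean oriented matroid programs. -/

namespace Pool.Agent.H145.Euc

open SignType Matrix

noncomputable section g2

variable {E : Type*} [DecidableEq E]

/-- a set function that is nonzero on all sets of the right size and satisfies the three-term
conditions is valid -/
lemma TauOK.of_uniform {code : E → ℤ} {τ : Finset E → SignType} {k : ℕ}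
    (hcard : ∃ B : Finset E, B.card = k + 2) (hU : ∀ B : Finset E, B.card = k + 2 → τ B ≠ 0)
    (hgp : ∀ Λ : Finset E, Λ.card = k → ∀ a b c d : E, a ∉ Λ → b ∉ Λ → c ∉ Λ → d ∉ Λ →
      a ≠ b → a ≠ c → a ≠ d → b ≠ c → b ≠ d → c ≠ d →
      GP3 (PL code τ Λ a b * PL code τ Λ c d) (-(PL code τ Λ a c * PL code τ Λ b d))
        (PL code τ Λ a d * PL code τ Λ b c)) : TauOK code τ k where
  ne := by obtain ⟨B, hB⟩ := hcard; exact ⟨B, hB, hU B hB⟩
  ex := by
    intro B1 B2 h1 h2 _ _ x hx
    have : ∃ y ∈ B2, y ∉ B1.erase x := by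
      by_contra h
      push Not at h
      have := Finset.card_le_card (s := B2) (t := B1.erase x) h
      rw [Finset.card_erase_of_mem hx] at this
      omega
    obtain ⟨y, hy, hy'⟩ := this
    refine ⟨y, hy, hy', hU _ ?_⟩
    rw [Finset.card_insert_of_notMem hy', Finset.card_erase_of_mem hx]
    omega
  gp := hgp

/-- codes of the extended ground set -/
def codeN (code : E → ℤ) : Option E → ℤ
  | none => -1
  | some e => code e

omit [DecidableEq E] in
lemma codeN_inj {code : E → ℤ} (hc : Function.Injective code) (hpos : ∀ e, 0 ≤ code e) :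
    Function.Injective (codeN code) := by
  rintro (_ | a) (_ | b) h
  · rfl
  · have := hpos b
    simp only [codeN] at h
    omega
  · have := hpos a
    simp only [codeN] at h
    omega
  · rw [hc h]

/-- the sign function of an extension -/
def tauN (τ σ : Finset E → SignType) (B : Finset (Option E)) : SignType :=
  if none ∈ B then σ (Finset.eraseNone B) else τ (Finset.eraseNone B)

lemma tauN_map (τ σ : Finset E → SignType) (B : Finset E) :
    tauN τ σ (B.map Function.Embedding.some) = τ B := by
  unfold tauN
  rw [if_neg (by simp), Finset.eraseNone_map_some]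

lemma tauN_insert (τ σ : Finset E → SignType) (B : Finset E) :
    tauN τ σ (insert none (B.map Function.Embedding.some)) = σ B := by
  unfold tauN
  rw [if_pos (by simp)]
  congr 1
  ext t
  simp

lemma option_set_cases (Λ' : Finset (Option E)) :
    (∃ Λ : Finset E, Λ' = Λ.map Function.Embedding.some) ∨
    (∃ Λ : Finset E, Λ' = insert none (Λ.map Function.Embedding.some)) := by
  by_cases h : none ∈ Λ'
  · right
    refine ⟨Finset.eraseNone Λ', ?_⟩
    ext t
    rcases t with _ | t
    · simp [h]
    · simp
  · left
    refine ⟨Finset.eraseNone Λ', ?_⟩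
    ext t
    rcases t with _ | t
    · simp [h]
    · simp

variable {code : E → ℤ}

omit [DecidableEq E] in
lemma sgc_ss (a b : E) : sgc (codeN code) (some a) (some b) = sgc code a b := rfl

omit [DecidableEq E] in
lemma sgc_ns (hpos : ∀ e, 0 ≤ code e) (b : E) : sgc (codeN code) none (some b) = 1 := by
  unfold sgc
  have := hpos b
  apply sign_pos
  simp only [codeN]
  omega

omit [DecidableEq E] in
lemma sgc_sn (hpos : ∀ e, 0 ≤ code e) (b : E) : sgc (codeN code) (some b) none = -1 := by
  rw [sgc_neg, sgc_ns hpos]

omit [DecidableEq E] in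
lemma sL_sm (a : E) (Λ : Finset E) :
    sL (codeN code) (some a) (Λ.map Function.Embedding.some) = sL code a Λ := by
  unfold sL
  rw [Finset.prod_map]
  rfl

omit [DecidableEq E] in
lemma sL_nm (hpos : ∀ e, 0 ≤ code e) (Λ : Finset E) :
    sL (codeN code) none (Λ.map Function.Embedding.some) = 1 := by
  unfold sL
  rw [Finset.prod_map]
  apply Finset.prod_eq_one
  intro x _
  exact sgc_ns hpos x

lemma sL_si (hpos : ∀ e, 0 ≤ code e) (a : E) (Λ : Finset E) :
    sL (codeN code) (some a) (insert none (Λ.map Function.Embedding.some)) = -sL code a Λ := by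
  rw [sL_insert _ _ _ (by simp), sL_sm, sgc_sn hpos]
  simp

lemma map_ins (a : E) (Λ : Finset E) :
    insert (some a) (Λ.map Function.Embedding.some) =
      (insert a Λ).map Function.Embedding.some := by
  rw [Finset.map_insert]; rfl

/-- the extension sign at a set -/
def QL (code : E → ℤ) (σ : Finset E → SignType) (Λ : Finset E) (b : E) : SignType :=
  sL code b Λ * σ (insert b Λ)

lemma PL_ss (τ σ : Finset E → SignType) (Λ : Finset E) (a b : E) :
    PL (codeN code) (tauN τ σ) (Λ.map Function.Embedding.some) (some a) (some b) =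
      PL code τ Λ a b := by
  unfold PL
  rw [sgc_ss, sL_sm, sL_sm, map_ins, map_ins, tauN_map]

lemma PL_ns (hpos : ∀ e, 0 ≤ code e) (τ σ : Finset E → SignType) (Λ : Finset E) (b : E) :
    PL (codeN code) (tauN τ σ) (Λ.map Function.Embedding.some) none (some b) =
      QL code σ Λ b := by
  unfold PL QL
  rw [sgc_ns hpos, sL_sm, sL_nm hpos, map_ins, tauN_insert]
  simp

lemma PL_si (hpos : ∀ e, 0 ≤ code e) (τ σ : Finset E → SignType) (Λ : Finset E) (a b : E) :
    PL (codeN code) (tauN τ σ) (insert none (Λ.map Function.Embedding.some)) (some a) (some b) =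
      PL code σ Λ a b := by
  unfold PL
  rw [sgc_ss, sL_si hpos, sL_si hpos]
  have e : insert (some a) (insert (some b) (insert none (Λ.map Function.Embedding.some))) =
      insert none ((insert a (insert b Λ)).map Function.Embedding.some) := by
    rw [← map_ins, ← map_ins, Finset.insert_comm (some b) none, Finset.insert_comm (some a) none]
  rw [e, tauN_insert]
  simp

/-- three-term condition of a two-place function -/
def GPF {A : Type*} (F : A → A → SignType) (a b c d : A) : Prop :=
  GP3 (F a b * F c d) (-(F a c * F b d)) (F a d * F b c)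

section
variable {A : Type*} {F : A → A → SignType}

lemma GPF.swap_ab (hF : ∀ a b, F b a = - F a b) {a b c d : A} (h : GPF F a b c d) :
    GPF F b a c d := by
  unfold GPF at *
  rw [hF a b]
  generalize F a b = p at *
  generalize F c d = q at *
  generalize F a c = r at *
  generalize F b d = s at *
  generalize F a d = t at *
  generalize F b c = u at *
  clear hF
  revert p q r s t u; decide

lemma GPF.swap_bc (hF : ∀ a b, F b a = - F a b) {a b c d : A} (h : GPF F a b c d) :
    GPF F a c b d := by
  unfold GPF at *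
  rw [hF b c]
  generalize F a b = p at *
  generalize F c d = q at *
  generalize F a c = r at *
  generalize F b d = s at *
  generalize F a d = t at *
  generalize F b c = u at *
  clear hF
  revert p q r s t u; decide

lemma GPF.swap_cd (hF : ∀ a b, F b a = - F a b) {a b c d : A} (h : GPF F a b c d) :
    GPF F a b d c := by
  unfold GPF at *
  rw [hF c d]
  generalize F a b = p at *
  generalize F c d = q at *
  generalize F a c = r at *
  generalize F b d = s at *
  generalize F a d = t at *
  generalize F b c = u at *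
  clear hF
  revert p q r s t u; decide

end

/-- the three-place function at a set -/
def D3 (code : E → ℤ) (τ : Finset E → SignType) (Λ : Finset E) (a b c : E) : SignType :=
  sgc code a b * sgc code a c * sgc code b c * sL code a Λ * sL code b Λ * sL code c Λ *
    τ (insert a (insert b (insert c Λ)))

lemma D3_12 (τ : Finset E → SignType) (Λ : Finset E) (a b c : E) :
    D3 code τ Λ b a c = - D3 code τ Λ a b c := by
  unfold D3
  rw [sgc_neg code a b, Finset.insert_comm b a (insert c Λ)]
  simp only [neg_mul]
  ac_rfl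

lemma D3_23 (τ : Finset E → SignType) (Λ : Finset E) (a b c : E) :
    D3 code τ Λ a c b = - D3 code τ Λ a b c := by
  unfold D3
  rw [sgc_neg code b c, Finset.insert_comm c b Λ]
  simp only [neg_mul, mul_neg]
  ac_rfl

lemma D3_cyc (τ : Finset E → SignType) (Λ : Finset E) (a b c : E) :
    D3 code τ Λ c a b = D3 code τ Λ a b c := by
  rw [D3_12 τ Λ a c b, D3_23 τ Λ a b c, neg_neg]

lemma QP_eq (hc : Function.Injective code) (τ σ : Finset E → SignType) (Λ : Finset E)
    (a b c d : E) (ha : a ∉ Λ) :
    QL code σ (insert a Λ) b * PL code τ (insert a Λ) c d =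
      PL code σ Λ b a * D3 code τ Λ a c d := by
  have hr : sL code a Λ * sL code a Λ = 1 := sign_sq (sL_ne hc ha)
  unfold QL PL D3
  rw [sL_insert _ _ _ ha, sL_insert _ _ _ ha, sL_insert _ _ _ ha, sgc_neg code a c,
    sgc_neg code a d]
  have e : insert c (insert d (insert a Λ)) = insert a (insert c (insert d Λ)) := by
    rw [Finset.insert_comm d a Λ, Finset.insert_comm c a]
  rw [e]
  calc _ = _ * (sL code a Λ * sL code a Λ) := by rw [hr, mul_one]
    _ = _ := by
      simp only [neg_mul, mul_neg, neg_neg]
      ac_rfl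

lemma PL_ne (hc : Function.Injective code) {τ : Finset E → SignType} {k : ℕ}
    (hU : ∀ B : Finset E, B.card = k + 2 → τ B ≠ 0) {Λ : Finset E} (hΛ : Λ.card = k) {a b : E}
    (ha : a ∉ Λ) (hb : b ∉ Λ) (hab : a ≠ b) : PL code τ Λ a b ≠ 0 := by
  unfold PL
  refine mul_ne_zero (mul_ne_zero (mul_ne_zero (sgc_ne hc hab) (sL_ne hc ha)) (sL_ne hc hb))
    (hU _ ?_)
  rw [Finset.card_insert_of_notMem, Finset.card_insert_of_notMem hb, hΛ]
  simp [ha, hab]

lemma D3_ne (hc : Function.Injective code) {τ : Finset E → SignType} {k : ℕ}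
    (hU : ∀ B : Finset E, B.card = k + 2 → τ B ≠ 0) {Λ : Finset E} (hΛ : Λ.card + 1 = k)
    {a b c : E} (ha : a ∉ Λ) (hb : b ∉ Λ) (hcc : c ∉ Λ) (hab : a ≠ b) (hac : a ≠ c)
    (hbc : b ≠ c) : D3 code τ Λ a b c ≠ 0 := by
  unfold D3
  refine mul_ne_zero (mul_ne_zero (mul_ne_zero (mul_ne_zero (mul_ne_zero (mul_ne_zero
    (sgc_ne hc hab) (sgc_ne hc hac)) (sgc_ne hc hbc)) (sL_ne hc ha)) (sL_ne hc hb))
    (sL_ne hc hcc)) (hU _ ?_)
  rw [Finset.card_insert_of_notMem, Finset.card_insert_of_notMem, Finset.card_insert_of_notMem hcc]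
  · omega
  · simp [hb, hbc]
  · simp [ha, hab, hac]

/-- the three-term conditions of an extension follow from the line conditions -/
theorem tauN_gp (hc : Function.Injective code) (hpos : ∀ e, 0 ≤ code e)
    {τ σ : Finset E → SignType} {k : ℕ} (hU : ∀ B : Finset E, B.card = k + 2 → τ B ≠ 0)
    (hgp : ∀ Λ : Finset E, Λ.card = k → ∀ a b c d : E, a ∉ Λ → b ∉ Λ → c ∉ Λ → d ∉ Λ →
      a ≠ b → a ≠ c → a ≠ d → b ≠ c → b ≠ d → c ≠ d → GPF (PL code τ Λ) a b c d)
    (hline : ∀ Λ : Finset E, Λ.card = k → ∀ b c d : E, b ∉ Λ → c ∉ Λ → d ∉ Λ →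
      b ≠ c → b ≠ d → c ≠ d →
      GP3 (QL code σ Λ b * PL code τ Λ c d) (-(QL code σ Λ c * PL code τ Λ b d))
        (QL code σ Λ d * PL code τ Λ b c))
    (Λ' : Finset (Option E)) (hΛ' : Λ'.card = k) (a b c d : Option E) (ha : a ∉ Λ') (hb : b ∉ Λ')
    (hcc : c ∉ Λ') (hd : d ∉ Λ') (hab : a ≠ b) (hac : a ≠ c) (had : a ≠ d) (hbc : b ≠ c)
    (hbd : b ≠ d) (hcd : c ≠ d) : GPF (PL (codeN code) (tauN τ σ) Λ') a b c d := by
  have hF := PL_neg (codeN code) (tauN τ σ) Λ'
  rcases option_set_cases Λ' with ⟨Λ, rfl⟩ | ⟨Λ, rfl⟩
  · rw [Finset.card_map] at hΛ'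
    have main1 : ∀ b c d : E, some b ∉ Λ.map Function.Embedding.some →
        some c ∉ Λ.map Function.Embedding.some → some d ∉ Λ.map Function.Embedding.some →
        some b ≠ some c → some b ≠ some d → some c ≠ some d →
        GPF (PL (codeN code) (tauN τ σ) (Λ.map Function.Embedding.some)) none (some b) (some c)
          (some d) := by
      intro b c d hb hcc hd hbc hbd hcd
      unfold GPF
      rw [PL_ns hpos, PL_ns hpos, PL_ns hpos, PL_ss, PL_ss, PL_ss]
      exact hline Λ hΛ' b c d (by simpa using hb) (by simpa using hcc) (by simpa using hd)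
        (by simpa using hbc) (by simpa using hbd) (by simpa using hcd)
    rcases a with _ | a
    · rcases b with _ | b
      · exact absurd rfl hab
      rcases c with _ | c
      · exact absurd rfl hac
      rcases d with _ | d
      · exact absurd rfl had
      exact main1 b c d hb hcc hd hbc hbd hcd
    rcases b with _ | b
    · rcases c with _ | c
      · exact absurd rfl hbc
      rcases d with _ | d
      · exact absurd rfl hbd
      exact (main1 a c d ha hcc hd hac had hcd).swap_ab hF
    rcases c with _ | c
    · rcases d with _ | d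
      · exact absurd rfl hcd
      exact ((main1 a b d ha hb hd hab had hbd).swap_ab hF).swap_bc hF
    rcases d with _ | d
    · exact (((main1 a b c ha hb hcc hab hac hbc).swap_ab hF).swap_bc hF).swap_cd hF
    unfold GPF
    rw [PL_ss, PL_ss, PL_ss, PL_ss, PL_ss, PL_ss]
    exact hgp Λ hΛ' a b c d (by simpa using ha) (by simpa using hb) (by simpa using hcc)
      (by simpa using hd) (by simpa using hab) (by simpa using hac) (by simpa using had)
      (by simpa using hbc) (by simpa using hbd) (by simpa using hcd)
  · rcases a with _ | a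
    · exact absurd (Finset.mem_insert_self _ _) ha
    rcases b with _ | b
    · exact absurd (Finset.mem_insert_self _ _) hb
    rcases c with _ | c
    · exact absurd (Finset.mem_insert_self _ _) hcc
    rcases d with _ | d
    · exact absurd (Finset.mem_insert_self _ _) hd
    rw [Finset.card_insert_of_notMem (by simp), Finset.card_map] at hΛ'
    have ha' : a ∉ Λ := fun h => ha (by simp [h])
    have hb' : b ∉ Λ := fun h => hb (by simp [h])
    have hc' : c ∉ Λ := fun h => hcc (by simp [h])
    have hd' : d ∉ Λ := fun h => hd (by simp [h])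
    have hab' : a ≠ b := fun h => hab (by rw [h])
    have hac' : a ≠ c := fun h => hac (by rw [h])
    have had' : a ≠ d := fun h => had (by rw [h])
    have hbc' : b ≠ c := fun h => hbc (by rw [h])
    have hbd' : b ≠ d := fun h => hbd (by rw [h])
    have hcd' : c ≠ d := fun h => hcd (by rw [h])
    unfold GPF
    rw [PL_si hpos, PL_si hpos, PL_si hpos, PL_si hpos, PL_si hpos, PL_si hpos]
    have hcardi : ∀ x, x ∉ Λ → (insert x Λ).card = k := by
      intro x hx
      rw [Finset.card_insert_of_notMem hx]; exact hΛ'
    have hnm : ∀ x y : E, x ∉ Λ → x ≠ y → x ∉ insert y Λ := by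
      intro x y h1 h2; simp [h1, h2]
    have l1 := hline (insert a Λ) (hcardi a ha') b c d (hnm b a hb' hab'.symm)
      (hnm c a hc' hac'.symm) (hnm d a hd' had'.symm) hbc' hbd' hcd'
    have l2 := hline (insert b Λ) (hcardi b hb') a c d (hnm a b ha' hab')
      (hnm c b hc' hbc'.symm) (hnm d b hd' hbd'.symm) hac' had' hcd'
    have l3 := hline (insert c Λ) (hcardi c hc') a b d (hnm a c ha' hac')
      (hnm b c hb' hbc') (hnm d c hd' hcd'.symm) hab' had' hbd'
    have l4 := hline (insert d Λ) (hcardi d hd') a b c (hnm a d ha' had')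
      (hnm b d hb' hbd') (hnm c d hc' hcd') hab' hac' hbc'
    have hFσ := PL_neg code σ Λ
    rw [QP_eq hc τ σ Λ _ _ _ _ ha', QP_eq hc τ σ Λ _ _ _ _ ha', QP_eq hc τ σ Λ _ _ _ _ ha',
      hFσ a b, hFσ a c, hFσ a d] at l1
    rw [QP_eq hc τ σ Λ _ _ _ _ hb', QP_eq hc τ σ Λ _ _ _ _ hb', QP_eq hc τ σ Λ _ _ _ _ hb',
      hFσ b c, hFσ b d, D3_12 τ Λ a b d, D3_12 τ Λ a b c] at l2
    rw [QP_eq hc τ σ Λ _ _ _ _ hc', QP_eq hc τ σ Λ _ _ _ _ hc', QP_eq hc τ σ Λ _ _ _ _ hc',
      hFσ c d, D3_12 τ Λ b c d, D3_12 τ Λ a c d, D3_cyc τ Λ a b c] at l3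
    rw [QP_eq hc τ σ Λ _ _ _ _ hd', QP_eq hc τ σ Λ _ _ _ _ hd', QP_eq hc τ σ Λ _ _ _ _ hd',
      D3_cyc τ Λ b c d, D3_cyc τ Λ a c d, D3_cyc τ Λ a b d] at l4
    exact sgn_L4 (PL code σ Λ a b) (PL code σ Λ a c) (PL code σ Λ a d) (PL code σ Λ b c)
      (PL code σ Λ b d) (PL code σ Λ c d) (D3 code τ Λ b c d) (D3 code τ Λ a c d)
      (D3 code τ Λ a b d) (D3 code τ Λ a b c)
      (D3_ne hc hU hΛ' hb' hc' hd' hbc' hbd' hcd') (D3_ne hc hU hΛ' ha' hc' hd' hac' had' hcd')
      (D3_ne hc hU hΛ' ha' hb' hd' hab' had' hbd') (D3_ne hc hU hΛ' ha' hb' hc' hab' hac' hbc')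
      l1 l2 l3 l4

/-- bases of the extension -/
def GoodN (f g : E) (T0 : Finset E) (B : Finset (Option E)) : Prop :=
  none ∈ B → ¬ (some f ∈ B ∧ some g ∈ B) ∧ B ≠ insert none (T0.map Function.Embedding.some)

lemma goodN_exch (f g : E) (T0 : Finset E) (hf0 : f ∉ T0) (hg0 : g ∉ T0) (hfg : f ≠ g)
    (S B2 : Finset (Option E)) (hS : S.card = T0.card) (hB2 : B2.card = S.card + 1)
    (x : Option E) (hgood : GoodN f g T0 (insert x S)) (hgood2 : GoodN f g T0 B2) :
    ∃ t ∈ B2, t ∉ S ∧ GoodN f g T0 (insert t S) := by
  by_contra hcon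
  push Not at hcon
  have hcardins : ∀ t, t ∉ S → (insert t S).card = B2.card := by
    intro t ht; rw [Finset.card_insert_of_notMem ht, hB2]
  have hex : ∃ t ∈ B2, t ∉ S := by
    by_contra h
    push Not at h
    have := Finset.card_le_card (s := B2) (t := S) h
    omega
  have hbase : ∀ t, some t ∈ insert none (T0.map Function.Embedding.some) → t ∈ T0 := by
    intro t ht
    simpa using ht
  by_cases hn : none ∈ S
  · have h1 := hgood (Finset.mem_insert_of_mem hn)
    by_cases hf : some f ∈ S
    · have hg : some g ∉ S := fun hg =>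
        h1.1 ⟨Finset.mem_insert_of_mem hf, Finset.mem_insert_of_mem hg⟩
      have hsub : B2 ⊆ insert (some g) S := by
        intro t ht
        by_cases hts : t ∈ S
        · exact Finset.mem_insert_of_mem hts
        · have h2 := hcon t ht hts
          unfold GoodN at h2
          push Not at h2
          obtain ⟨h3, h4⟩ := h2
          by_cases h5 : some f ∈ insert t S ∧ some g ∈ insert t S
          · rcases Finset.mem_insert.mp h5.2 with h6 | h6
            · rw [h6]; exact Finset.mem_insert_self _ _
            · exact absurd h6 hg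
          · have h6 := h4 (fun h => fun h' => h5 ⟨h, h'⟩)
            have h7 : some f ∈ insert none (T0.map Function.Embedding.some) := by
              rw [← h6]; exact Finset.mem_insert_of_mem hf
            exact absurd (hbase _ h7) hf0
      have heq := Finset.eq_of_subset_of_card_le hsub (by rw [hcardins _ hg])
      have h2 := hgood2 (by rw [heq]; exact Finset.mem_insert_of_mem hn)
      exact h2.1 ⟨by rw [heq]; exact Finset.mem_insert_of_mem hf,
        by rw [heq]; exact Finset.mem_insert_self _ _⟩
    · by_cases hg : some g ∈ S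
      · have hsub : B2 ⊆ insert (some f) S := by
          intro t ht
          by_cases hts : t ∈ S
          · exact Finset.mem_insert_of_mem hts
          · have h2 := hcon t ht hts
            unfold GoodN at h2
            push Not at h2
            obtain ⟨h3, h4⟩ := h2
            by_cases h5 : some f ∈ insert t S ∧ some g ∈ insert t S
            · rcases Finset.mem_insert.mp h5.1 with h6 | h6
              · rw [h6]; exact Finset.mem_insert_self _ _
              · exact absurd h6 hf
            · have h6 := h4 (fun h => fun h' => h5 ⟨h, h'⟩)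
              have h7 : some g ∈ insert none (T0.map Function.Embedding.some) := by
                rw [← h6]; exact Finset.mem_insert_of_mem hg
              exact absurd (hbase _ h7) hg0
        have heq := Finset.eq_of_subset_of_card_le hsub (by rw [hcardins _ hf])
        have h2 := hgood2 (by rw [heq]; exact Finset.mem_insert_of_mem hn)
        exact h2.1 ⟨by rw [heq]; exact Finset.mem_insert_self _ _,
          by rw [heq]; exact Finset.mem_insert_of_mem hg⟩
      · have hT : ∀ t ∈ B2, t ∉ S →
            insert t S = insert none (T0.map Function.Embedding.some) := by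
          intro t ht hts
          have h2 := hcon t ht hts
          unfold GoodN at h2
          push Not at h2
          obtain ⟨h3, h4⟩ := h2
          apply h4
          intro h5 h6
          rcases Finset.mem_insert.mp h5 with h7 | h7
          · rcases Finset.mem_insert.mp h6 with h8 | h8
            · rw [← h7] at h8
              exact hfg (Option.some.inj h8).symm
            · exact hg h8
          · exact hf h7
        obtain ⟨t0, ht0, ht0S⟩ := hex
        have hT0 := hT t0 ht0 ht0S
        have hsub : B2 ⊆ insert none (T0.map Function.Embedding.some) := by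
          intro t ht
          by_cases hts : t ∈ S
          · rw [← hT0]; exact Finset.mem_insert_of_mem hts
          · rw [← hT t ht hts]; exact Finset.mem_insert_self _ _
        have heq := Finset.eq_of_subset_of_card_le hsub (by
          rw [← hT0, hcardins _ ht0S])
        have h2 := hgood2 (by rw [heq]; simp)
        exact h2.2 heq
  · have hsub : B2 ⊆ insert none S := by
      intro t ht
      by_cases hts : t ∈ S
      · exact Finset.mem_insert_of_mem hts
      · have h2 := hcon t ht hts
        unfold GoodN at h2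
        push Not at h2
        obtain ⟨h3, _⟩ := h2
        rcases Finset.mem_insert.mp h3 with h4 | h4
        · rw [← h4]; exact Finset.mem_insert_self _ _
        · exact absurd h4 hn
    have heq := Finset.eq_of_subset_of_card_le hsub (by rw [hcardins _ hn])
    have h2 : none ∈ B2 := by rw [heq]; exact Finset.mem_insert_self _ _
    exact hcon none h2 hn (heq ▸ hgood2)

/-- validity of an extension with prescribed support -/
theorem tauN_ok (hc : Function.Injective code) (hpos : ∀ e, 0 ≤ code e)
    {τ σ : Finset E → SignType} {k : ℕ} (hU : ∀ B : Finset E, B.card = k + 2 → τ B ≠ 0)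
    (hne : ∃ B : Finset E, B.card = k + 2)
    (hgp : ∀ Λ : Finset E, Λ.card = k → ∀ a b c d : E, a ∉ Λ → b ∉ Λ → c ∉ Λ → d ∉ Λ →
      a ≠ b → a ≠ c → a ≠ d → b ≠ c → b ≠ d → c ≠ d → GPF (PL code τ Λ) a b c d)
    (hline : ∀ Λ : Finset E, Λ.card = k → ∀ b c d : E, b ∉ Λ → c ∉ Λ → d ∉ Λ →
      b ≠ c → b ≠ d → c ≠ d →
      GP3 (QL code σ Λ b * PL code τ Λ c d) (-(QL code σ Λ c * PL code τ Λ b d))
        (QL code σ Λ d * PL code τ Λ b c))
    (f g : E) (T0 : Finset E) (hf0 : f ∉ T0) (hg0 : g ∉ T0) (hfg : f ≠ g)
    (hT0 : T0.card = k + 1)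
    (hσ : ∀ T : Finset E, T.card = k + 1 → (σ T ≠ 0 ↔ ¬ (f ∈ T ∧ g ∈ T) ∧ T ≠ T0)) :
    TauOK (codeN code) (tauN τ σ) k := by
  have hsupp : ∀ B : Finset (Option E), B.card = k + 2 → (tauN τ σ B ≠ 0 ↔ GoodN f g T0 B) := by
    intro B hB
    rcases option_set_cases B with ⟨T, rfl⟩ | ⟨T, rfl⟩
    · rw [tauN_map]
      rw [Finset.card_map] at hB
      simp only [hU T hB, ne_eq, not_false_eq_true, true_iff]
      intro h
      simp at h
    · rw [tauN_insert]
      rw [Finset.card_insert_of_notMem (by simp), Finset.card_map] at hB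
      rw [hσ T (by omega)]
      unfold GoodN
      have e1 : some f ∈ insert none (T.map Function.Embedding.some) ↔ f ∈ T := by simp
      have e2 : some g ∈ insert none (T.map Function.Embedding.some) ↔ g ∈ T := by simp
      have e3 : insert none (T.map Function.Embedding.some) =
          insert none (T0.map Function.Embedding.some) ↔ T = T0 := by
        constructor
        · intro h
          ext t
          have := Finset.ext_iff.mp h (some t)
          simpa using this
        · intro h; rw [h]
      rw [e1, e2, ne_eq, ne_eq, e3]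
      simp
  refine ⟨?_, ?_, ?_⟩
  · obtain ⟨B, hB⟩ := hne
    exact ⟨B.map Function.Embedding.some, by rw [Finset.card_map, hB],
      by rw [tauN_map]; exact hU B hB⟩
  · intro B1 B2 h1 h2 h3 h4 x hx
    rw [hsupp _ h1] at h3
    rw [hsupp _ h2] at h4
    have hc1 : (B1.erase x).card = k + 1 := by
      rw [Finset.card_erase_of_mem hx]; omega
    obtain ⟨t, ht, hts, htg⟩ := goodN_exch f g T0 hf0 hg0 hfg (B1.erase x) B2 (by omega)
      (by omega) x (by rw [Finset.insert_erase hx]; exact h3) h4
    refine ⟨t, ht, hts, ?_⟩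
    rw [hsupp _ (by rw [Finset.card_insert_of_notMem hts]; omega)]
    exact htg
  · exact tauN_gp hc hpos hU hgp hline

/-- the localization determined by a height function -/
def sigG (code : E → ℤ) (τ : Finset E → SignType) (g f : E) (h : Finset E → ℤ) (h0 : ℤ)
    (T : Finset E) : SignType :=
  if g ∈ T then sL code f T * τ (insert f T)
  else sL code g T * τ (insert g T) * SignType.sign (h T - h0)

/-- A height function that is monotone along all lines certifies Euclideanness, any rank. -/
theorem euclidean_of_heightsG (hc : Function.Injective code) (hpos : ∀ e, 0 ≤ code e)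
    {τ : Finset E → SignType} {k : ℕ} (hτ : TauOK code τ k)
    (hU : ∀ B : Finset E, B.card = k + 2 → τ B ≠ 0) (g f : E) (hfg : f ≠ g)
    (h : Finset E → ℤ) (hf0 : ∀ T, f ∈ T → h T = 0)
    (H : ∀ Λ : Finset E, Λ.card = k → g ∉ Λ → f ∉ Λ → ∀ z w, z ∉ Λ → w ∉ Λ → z ≠ w → g ≠ z →
      g ≠ w → PL code τ Λ z w = PL code τ Λ f g * PL code τ Λ g z * PL code τ Λ g w *
        SignType.sign (h (insert z Λ) - h (insert w Λ)))
    (hinj : ∀ T T' : Finset E, T.card = k + 1 → T'.card = k + 1 → g ∉ T → g ∉ T' → f ∉ T →
      f ∉ T' → h T = h T' → T = T') : (ofTau hc τ hτ).EuclideanProgram g f := by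
  intro u hu
  by_cases hfu : ∃ i, u i = f
  · obtain ⟨i, hi⟩ := hfu
    exact Chirotope.par_spec _ g f u hu i hi
  push Not at hfu
  have hu' : vs code (vecCons g u) ≠ 0 := left_ne_zero_of_mul hu
  rw [vs_cons] at hu'
  have huinj : Function.Injective u := (vs_ne hc u).mp (right_ne_zero_of_mul hu')
  have hgu : ∀ i, u i ≠ g := by
    intro i hi
    have h1 := left_ne_zero_of_mul hu'
    rw [Finset.prod_ne_zero_iff] at h1
    apply h1 i (Finset.mem_univ _)
    rw [hi]; exact sgc_self _ _
  obtain ⟨T0, hT0⟩ : ∃ T0, T0 = Finset.univ.image u := ⟨_, rfl⟩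
  have hcT0 : T0.card = k + 1 := by
    rw [hT0, Finset.card_image_of_injective _ huinj]; simp
  have hfT0 : f ∉ T0 := by
    rw [hT0]; intro h1
    obtain ⟨i, _, hi⟩ := Finset.mem_image.mp h1
    exact hfu i hi
  have hgT0 : g ∉ T0 := by
    rw [hT0]; intro h1
    obtain ⟨i, _, hi⟩ := Finset.mem_image.mp h1
    exact hgu i hi
  obtain ⟨h0, hh0⟩ : ∃ h0 : ℤ, h0 = h T0 := ⟨_, rfl⟩
  obtain ⟨z0, hz0⟩ : ∃ z0, z0 ∈ T0 := by
    have : T0.Nonempty := by rw [← Finset.card_pos]; omega
    exact this
  have hh0ne : h0 ≠ 0 := by
    intro hz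
    have e := H (T0.erase z0) (by rw [Finset.card_erase_of_mem hz0]; omega)
      (fun h => hgT0 (Finset.mem_of_mem_erase h)) (fun h => hfT0 (Finset.mem_of_mem_erase h))
      z0 f (Finset.notMem_erase _ _) (fun h => hfT0 (Finset.mem_of_mem_erase h))
      (fun h => hfT0 (h ▸ hz0)) (fun h => hgT0 (h ▸ hz0)) hfg.symm
    rw [Finset.insert_erase hz0, ← hh0, hz, hf0 _ (Finset.mem_insert_self _ _)] at e
    simp only [sub_self, sign_zero, mul_zero] at e
    exact PL_ne hc hU (by rw [Finset.card_erase_of_mem hz0]; omega) (Finset.notMem_erase _ _)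
      (fun h => hfT0 (Finset.mem_of_mem_erase h)) (fun h => hfT0 (h ▸ hz0)) e
  have hσ : ∀ T : Finset E, T.card = k + 1 →
      (sigG code τ g f h h0 T ≠ 0 ↔ ¬ (f ∈ T ∧ g ∈ T) ∧ T ≠ T0) := by
    intro T hT
    unfold sigG
    by_cases hg : g ∈ T
    · rw [if_pos hg]
      have hTT : T ≠ T0 := fun h => hgT0 (h ▸ hg)
      by_cases hf : f ∈ T
      · rw [sL_zero code hf]
        simp [hf, hg]
      · have h1 : sL code f T ≠ 0 := sL_ne hc hf
        have h2 : τ (insert f T) ≠ 0 := hU _ (by rw [Finset.card_insert_of_notMem hf]; omega)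
        simp [hf, hTT, h1, h2]
    · rw [if_neg hg]
      have h1 : sL code g T ≠ 0 := sL_ne hc hg
      have h2 : τ (insert g T) ≠ 0 := hU _ (by rw [Finset.card_insert_of_notMem hg]; omega)
      rw [mul_ne_zero_iff]
      simp only [ne_eq, mul_eq_zero, h1, h2, or_self, not_false_eq_true, true_and, hg, and_false]
      rw [sign_eq_zero_iff, sub_eq_zero]
      by_cases hf : f ∈ T
      · rw [hf0 _ hf]
        constructor
        · intro _ he
          exact hfT0 (he ▸ hf)
        · intro _; exact hh0ne.symm
      · constructor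
        · intro hne he
          apply hne
          rw [hh0, he]
        · intro hne he
          exact hne (hinj T T0 hT hcT0 hg hgT0 hf hfT0 (by rw [he, hh0]))
  have hgp : ∀ Λ : Finset E, ∀ a b c d : E, Λ.card = k → GPF (PL code τ Λ) a b c d := by
    intro Λ a b c d hΛ
    apply gp3_anti (PL code τ Λ) (PL_neg code τ Λ)
    intro h1 h2 h3 h4 h5 h6
    by_cases ha : a ∈ Λ
    · left; simp [PL_zero_left code τ _ ha]
    by_cases hb : b ∈ Λ
    · left; simp [PL_zero_left code τ _ hb, PL_zero_right code τ _ hb]
    by_cases hcc : c ∈ Λ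
    · left; simp [PL_zero_left code τ _ hcc, PL_zero_right code τ _ hcc]
    by_cases hd : d ∈ Λ
    · left; simp [PL_zero_right code τ _ hd]
    exact hτ.gp Λ hΛ a b c d ha hb hcc hd h1 h2 h3 h4 h5 h6
  have hline : ∀ Λ : Finset E, Λ.card = k → ∀ b c d : E, b ∉ Λ → c ∉ Λ → d ∉ Λ →
      b ≠ c → b ≠ d → c ≠ d →
      GP3 (QL code (sigG code τ g f h h0) Λ b * PL code τ Λ c d)
        (-(QL code (sigG code τ g f h h0) Λ c * PL code τ Λ b d))
        (QL code (sigG code τ g f h h0) Λ d * PL code τ Λ b c) := by
    intro Λ hΛ b c d hb hcc hd hbc hbd hcd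
    by_cases hgl : g ∈ Λ
    · have e : ∀ t, t ∉ Λ → QL code (sigG code τ g f h h0) Λ t = PL code τ Λ f t := by
        intro t ht
        unfold QL sigG PL
        rw [if_pos (Finset.mem_insert_of_mem hgl), sL_insert _ _ _ ht]
        ac_rfl
      rw [e b hb, e c hcc, e d hd]
      exact hgp Λ f b c d hΛ
    by_cases hfl : f ∈ Λ
    · have e : ∀ t, t ∉ Λ → QL code (sigG code τ g f h h0) Λ t =
          SignType.sign (0 - h0) * PL code τ Λ g t := by
        intro t ht
        unfold QL sigG
        by_cases hgt : g = t
        · rw [if_pos (by rw [hgt]; exact Finset.mem_insert_self _ _),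
            sL_zero code (Finset.mem_insert_of_mem hfl), ← hgt, PL_self]
          simp
        · rw [if_neg (by simp [hgt, hgl]), hf0 _ (Finset.mem_insert_of_mem hfl),
            sL_insert _ _ _ ht]
          unfold PL
          ac_rfl
      rw [e b hb, e c hcc, e d hd]
      have h3 := gp3_mul (SignType.sign (0 - h0)) _ _ _ (hgp Λ g b c d hΛ)
      have r : ∀ s t u : SignType, s * t * u = s * (t * u) := by decide
      have r2 : ∀ s t : SignType, -(s * t) = s * (-t) := by decide
      rw [r, r, r, r2]
      exact h3
    -- the model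
    have hK : PL code τ Λ f g ≠ 0 := PL_ne hc hU hΛ hfl hgl hfg
    obtain ⟨K, hK'⟩ : ∃ K, K = PL code τ Λ f g := ⟨_, rfl⟩
    rw [← hK'] at hK
    have hsK : ∀ n : ℤ, SignType.sign ((K : ℤ) * n) = K * SignType.sign n := by
      intro n
      rw [sign_mul]
      congr 1
      revert K
      intro K _ _
      cases K <;> simp
    have hQ : ∀ z, z ∉ Λ → QL code (sigG code τ g f h h0) Λ z =
        if z = g then K else PL code τ Λ g z * SignType.sign (h (insert z Λ) - h0) := by
      intro z hz
      unfold QL sigG
      by_cases hzg : z = g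
      · rw [if_pos (by rw [hzg]; exact Finset.mem_insert_self _ _), if_pos hzg,
          sL_insert _ _ _ hz, hK', hzg]
        unfold PL
        ac_rfl
      · rw [if_neg (by simp [Ne.symm hzg, hgl]), if_neg hzg, sL_insert _ _ _ hz]
        unfold PL
        ac_rfl
    let v : Option E → ℤ × ℤ := fun t => match t with
      | none => ((K : ℤ) * h0, 1)
      | some z => if z = g then (1, 0) else ((K : ℤ) * h (insert z Λ), 1)
    let e : Option E → SignType := fun t => match t with
      | none => -K
      | some z => if z = g then 1 else PL code τ Λ g z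
    let X : Option E → Option E → Option E → Option E → SignType := fun a b _ _ =>
      PL (codeN code) (tauN τ (sigG code τ g f h h0)) (Λ.map Function.Embedding.some) a b
    have A : ∀ z, z ∉ Λ → X none (some z) none none = e none * e (some z) *
          SignType.sign ((v none).1 * (v (some z)).2 - (v none).2 * (v (some z)).1) := by
      intro z hz
      show PL _ _ _ _ _ = _
      rw [PL_ns hpos, hQ z hz]
      by_cases hzg : z = g
      · rw [if_pos hzg]
        simp only [e, v, hzg, if_true]
        simp
      · rw [if_neg hzg]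
        simp only [e, v, hzg, if_false]
        have e1 : ((K : ℤ) * h0 * 1 - 1 * ((K : ℤ) * h (insert z Λ))) =
            (K : ℤ) * (-(h (insert z Λ) - h0)) := by ring
        rw [e1, hsK, Left.sign_neg]
        generalize SignType.sign (h (insert z Λ) - h0) = s
        generalize PL code τ Λ g z = t
        clear hsK hK' e v e1 hQ X
        revert K s t; decide
    have B : ∀ z w, z ∉ Λ → w ∉ Λ → z ≠ w → X (some z) (some w) none none =
        e (some z) * e (some w) *
          SignType.sign ((v (some z)).1 * (v (some w)).2 - (v (some z)).2 * (v (some w)).1) := by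
      intro z w hz hw hzw
      show PL _ _ _ _ _ = _
      rw [PL_ss]
      by_cases hzg : z = g
      · have hwg : ¬ w = g := fun h => hzw (hzg.trans h.symm)
        simp only [e, v, hzg, hwg, if_true, if_false]
        simp
      · by_cases hwg : w = g
        · simp only [e, v, hzg, hwg, if_true, if_false]
          rw [PL_neg code τ Λ g z]
          simp
        · simp only [e, v, hzg, hwg, if_false]
          rw [H Λ hΛ hgl hfl z w hz hw hzw (Ne.symm hzg) (Ne.symm hwg), ← hK']
          have e1 : ((K : ℤ) * h (insert z Λ) * 1 - 1 * ((K : ℤ) * h (insert w Λ))) =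
              (K : ℤ) * (h (insert z Λ) - h (insert w Λ)) := by ring
          rw [e1, hsK]
          generalize SignType.sign (h (insert z Λ) - h (insert w Λ)) = s
          generalize PL code τ Λ g z = t
          generalize PL code τ Λ g w = r
          clear hsK hK' e v A e1 hQ X
          revert K s t r; decide
    have hmod := gpat_of_model (X := X) (x := none) (y := none) (a := none)
      (b := some b) (c := some c) (d := some d) v e (A b hb) (A c hcc) (A d hd)
      (B b c hb hcc hbc) (B b d hb hd hbd) (B c d hcc hd hcd)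
    have hmod' : GP3 (PL (codeN code) (tauN τ (sigG code τ g f h h0))
        (Λ.map Function.Embedding.some) none (some b) * PL (codeN code)
        (tauN τ (sigG code τ g f h h0)) (Λ.map Function.Embedding.some) (some c) (some d))
        (-(PL (codeN code) (tauN τ (sigG code τ g f h h0))
        (Λ.map Function.Embedding.some) none (some c) * PL (codeN code)
        (tauN τ (sigG code τ g f h h0)) (Λ.map Function.Embedding.some) (some b) (some d)))
        (PL (codeN code) (tauN τ (sigG code τ g f h h0))
        (Λ.map Function.Embedding.some) none (some d) * PL (codeN code)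
        (tauN τ (sigG code τ g f h h0)) (Λ.map Function.Embedding.some) (some b) (some c)) :=
      hmod
    rw [PL_ns hpos, PL_ns hpos, PL_ns hpos, PL_ss, PL_ss, PL_ss] at hmod'
    exact hmod'
  have hok : TauOK (codeN code) (tauN τ (sigG code τ g f h h0)) k :=
    tauN_ok hc hpos hU (by obtain ⟨B, hB, _⟩ := hτ.ne; exact ⟨B, hB⟩)
      (fun Λ hΛ a b c d _ _ _ _ _ _ _ _ _ _ => hgp Λ a b c d hΛ) hline f g T0 hfT0 hgT0 hfg hcT0
      hσ
  have hcN := codeN_inj hc hpos
  -- values of the extension on tuples
  have hval : ∀ (s : Option E) (w : Fin (k + 1) → Option E),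
      (ofTau hcN _ hok).χ (vecCons s w) = (∏ j, sgc (codeN code) s (w j)) * vs (codeN code) w *
        tauN τ (sigG code τ g f h h0) (insert s (Finset.univ.image w)) := by
    intro s w
    show chi _ _ _ = _
    unfold chi
    rw [vs_cons, image_vecCons]
  have hform : ∀ w : Fin (k + 1) → Option E, (ofTau hcN _ hok).χ (vecCons none w) ≠ 0 →
      ∃ T : Finset E, T.card = k + 1 ∧ Finset.univ.image w = T.map Function.Embedding.some ∧
        sigG code τ g f h h0 T ≠ 0 ∧
        ∀ s, s ∉ T → (ofTau hcN _ hok).χ (vecCons (some s) w) ≠ 0 := by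
    intro w hw
    rw [hval] at hw
    have h1 := left_ne_zero_of_mul (left_ne_zero_of_mul hw)
    have h2 := right_ne_zero_of_mul (left_ne_zero_of_mul hw)
    have h3 := right_ne_zero_of_mul hw
    have hwi := (vs_ne hcN w).mp h2
    rw [Finset.prod_ne_zero_iff] at h1
    have hnn : none ∉ Finset.univ.image w := by
      intro hm
      obtain ⟨i, _, hi⟩ := Finset.mem_image.mp hm
      apply h1 i (Finset.mem_univ _)
      rw [hi]; exact sgc_self _ _
    rcases option_set_cases (Finset.univ.image w) with ⟨T, hT⟩ | ⟨T, hT⟩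
    · have hcT : T.card = k + 1 := by
        have : (Finset.univ.image w).card = k + 1 := by
          rw [Finset.card_image_of_injective _ hwi]; simp
        rw [hT, Finset.card_map] at this
        exact this
      refine ⟨T, hcT, hT, ?_, ?_⟩
      · rw [hT, tauN_insert] at h3
        exact h3
      · intro s hs
        rw [hval, hT, map_ins, tauN_map]
        refine mul_ne_zero (mul_ne_zero ?_ h2) (hU _ (by
          rw [Finset.card_insert_of_notMem hs, hcT]))
        rw [Finset.prod_ne_zero_iff]
        intro j _
        apply sgc_ne hcN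
        intro he
        have : w j ∈ T.map Function.Embedding.some := by
          rw [← hT]; exact Finset.mem_image_of_mem _ (Finset.mem_univ _)
        rw [← he] at this
        exact hs (by simpa using this)
    · exfalso
      apply hnn
      rw [hT]; exact Finset.mem_insert_self _ _
  refine ⟨ofTau hcN _ hok, ?_, ?_, ?_, ?_⟩
  · intro v
    show vs (codeN code) (some ∘ v) * tauN _ _ (Finset.univ.image (some ∘ v)) =
      vs code v * τ (Finset.univ.image v)
    have e1 : Finset.univ.image (some ∘ v) =
        (Finset.univ.image v).map Function.Embedding.some := by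
      ext t
      simp only [Finset.mem_image, Finset.mem_univ, true_and, Function.comp, Finset.mem_map,
        Function.Embedding.some_apply]
      constructor
      · rintro ⟨i, rfl⟩; exact ⟨v i, ⟨i, rfl⟩, rfl⟩
      · rintro ⟨_, ⟨i, rfl⟩, rfl⟩; exact ⟨i, rfl⟩
    rw [e1, tauN_map]
    rfl
  · intro hl
    -- a basis containing the new element
    have hcT : (insert f (T0.erase z0)).card = k + 1 := by
      rw [Finset.card_insert_of_notMem (fun h => hfT0 (Finset.mem_of_mem_erase h)),
        Finset.card_erase_of_mem hz0]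
      omega
    have hT : sigG code τ g f h h0 (insert f (T0.erase z0)) ≠ 0 := by
      rw [hσ _ hcT]
      constructor
      · rintro ⟨_, hg⟩
        rcases Finset.mem_insert.mp hg with hg | hg
        · exact hfg hg.symm
        · exact hgT0 (Finset.mem_of_mem_erase hg)
      · intro he
        exact hfT0 (he ▸ Finset.mem_insert_self _ _)
    obtain ⟨B, hB⟩ : ∃ B, B = insert none
      ((insert f (T0.erase z0)).map Function.Embedding.some) := ⟨_, rfl⟩
    have hcB : B.card = k + 2 := by
      rw [hB, Finset.card_insert_of_notMem (by simp), Finset.card_map, hcT]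
    have hneB : tauN τ (sigG code τ g f h h0) B ≠ 0 := by
      rw [hB, tauN_insert]; exact hT
    obtain ⟨eq⟩ : Nonempty (Fin (k + 2) ≃ B) :=
      ⟨(finCongr hcB.symm).trans B.equivFin.symm⟩
    have himg : Finset.univ.image (fun i => (eq i : Option E)) = B := by
      ext t
      simp only [Finset.mem_image, Finset.mem_univ, true_and]
      constructor
      · rintro ⟨i, rfl⟩; exact (eq i).2
      · intro ht; exact ⟨eq.symm ⟨t, ht⟩, by simp⟩
    have h1 := hl (fun i => (eq i : Option E)) ?_
    · apply h1
      have : none ∈ B := by rw [hB]; exact Finset.mem_insert_self _ _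
      exact ⟨eq.symm ⟨none, this⟩, by simp⟩
    · show vs _ _ * tauN _ _ _ ≠ 0
      rw [himg]
      exact mul_ne_zero ((vs_ne hcN _).mpr (fun a b hab => eq.injective (Subtype.ext hab))) hneB
  · intro w hw
    by_contra hcon
    obtain ⟨T, hT1, _, hT3, hT4⟩ := hform w hcon
    apply ((hσ T hT1).mp hT3).2
    symm
    apply Finset.eq_of_subset_of_card_le
    · intro t ht
      by_contra htT
      apply hT4 t htT
      apply hw
      rw [hT0] at ht
      obtain ⟨i, _, hi⟩ := Finset.mem_image.mp ht
      exact ⟨t, ⟨i, hi⟩, rfl⟩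
    · rw [hT1, hcT0]
  · intro w hw
    by_contra hcon
    obtain ⟨T, hT1, _, hT3, hT4⟩ := hform w hcon
    apply ((hσ T hT1).mp hT3).1
    constructor
    · by_contra hft
      exact hT4 f hft (hw (some f) (by simp))
    · by_contra hft
      exact hT4 g hft (hw (some g) (by simp))

end g2

end Pool.Agent.H145.Euc
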