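import Pool.Agent.H145.Euc.G2

/-! Duality of uniform chirotopes given by set functions. -/

namespace Pool.Agent.H145.Euc

open SignType Matrix

namespace Chirotope

variable {E : Type*} {k k' : ℕ}

/-- `M` (of rank `k + 2`) and `M'` (of rank `k' + 2`) are dual oriented matroids on the ground set
`E` (with `(k + 2) + (k' + 2)` elements): for some reference ordering `e₀` of `E`,
`χ'(y₁, y₂, …) = sign(x₁, x₂, …, y₁, y₂, …) χ(x₁, x₂, …)` for every ordering
`e = (x₁, x₂, …, y₁, y₂, …)` of `E`. -/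
def IsDual (M : Chirotope E k) (M' : Chirotope E k') : Prop :=
  ∃ e₀ : Fin (k + 2) ⊕ Fin (k' + 2) ≃ E, ∀ e : Fin (k + 2) ⊕ Fin (k' + 2) ≃ E,
    M'.χ (fun j => e (Sum.inr j)) =
      SignType.sign ((Equiv.Perm.sign (e.trans e₀.symm) : ℤˣ) : ℤ) * M.χ (fun i => e (Sum.inl i))

end Chirotope

set_option linter.unusedSectionVars false

noncomputable section g3

section append

variable {E : Type*} (code : E → ℤ)

lemma prod_Ioi_ite {n : ℕ} (i : Fin n) (g : Fin n → ℤ) :
    ∏ j ∈ Finset.Ioi i, g j = ∏ j, if i < j then g j else 1 := by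
  rw [← Finset.prod_filter]
  congr 1
  ext j
  simp

lemma vs_append {r s : ℕ} (a : Fin r → E) (b : Fin s → E) :
    vs code (Fin.append a b) = vs code a * vs code b * ∏ i, ∏ j, sgc code (a i) (b j) := by
  unfold vs sgc
  rw [det_vandermonde, det_vandermonde, det_vandermonde, ← sign_mul]
  have : ∀ i, ∏ j : Fin s, SignType.sign (code (b j) - code (a i)) =
      SignType.sign (∏ j : Fin s, (code (b j) - code (a i))) := by
    intro i; rw [sign_prod]
  simp_rw [this]
  rw [← sign_prod, ← sign_mul]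
  congr 1
  simp_rw [prod_Ioi_ite]
  rw [Fin.prod_univ_add]
  simp_rw [Fin.prod_univ_add, Fin.append_left, Fin.append_right]
  have h1 : ∀ (i : Fin r) (j : Fin s), Fin.castAdd s i < Fin.natAdd r j := by
    intro i j
    rw [Fin.lt_def]
    simp only [Fin.val_castAdd, Fin.val_natAdd]
    omega
  have h2 : ∀ (i : Fin r) (j : Fin s), ¬ Fin.natAdd r j < Fin.castAdd s i := by
    intro i j
    exact not_lt.mpr (h1 i j).le
  have h3 : ∀ (i j : Fin r), (Fin.castAdd s i < Fin.castAdd s j) ↔ i < j := by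
    intro i j; rfl
  have h4 : ∀ (i j : Fin s), (Fin.natAdd r i < Fin.natAdd r j) ↔ i < j := by
    intro i j
    rw [Fin.lt_def, Fin.lt_def]
    simp
  simp only [h1, h2, h3, h4, if_true, if_false, Finset.prod_const_one, one_mul]
  rw [Finset.prod_mul_distrib]
  ring

lemma append_equiv {r s : ℕ} (e : Fin r ⊕ Fin s → E) :
    Fin.append (fun i => e (Sum.inl i)) (fun j => e (Sum.inr j)) =
      fun i => e (finSumFinEquiv.symm i) := by
  funext i
  refine Fin.addCases (fun i => ?_) (fun i => ?_) i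
  · rw [Fin.append_left, finSumFinEquiv_symm_apply_castAdd]
  · rw [Fin.append_right, finSumFinEquiv_symm_apply_natAdd]

/-- the sign of an ordering with respect to the codes is multiplicative -/
lemma vs_append_perm {r s : ℕ} (e e₀ : Fin r ⊕ Fin s ≃ E) :
    vs code (Fin.append (fun i => e (Sum.inl i)) (fun j => e (Sum.inr j))) =
      SignType.sign ((Equiv.Perm.sign (e.trans e₀.symm) : ℤˣ) : ℤ) *
        vs code (Fin.append (fun i => e₀ (Sum.inl i)) (fun j => e₀ (Sum.inr j))) := by
  rw [append_equiv, append_equiv]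
  have h1 : (fun i => e (finSumFinEquiv.symm i)) =
      (fun i => e₀ (finSumFinEquiv.symm i)) ∘
        ((finSumFinEquiv (m := r) (n := s)).permCongr (e.trans e₀.symm)) := by
    funext i
    simp [Equiv.permCongr_apply]
  rw [h1, vs_perm, Equiv.Perm.sign_permCongr]

end append

section dual

variable {E : Type*} [DecidableEq E] [Fintype E] (code : E → ℤ)

/-- product of the order signs between two sets -/
def Wc (S T : Finset E) : SignType := ∏ x ∈ S, sL code x T

/-- the dual set function -/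
def dualTau (τ : Finset E → SignType) (S : Finset E) : SignType := Wc code S Sᶜ * τ Sᶜ

/-- `Λ` is the set of elements outside `L` and different from `a, b, c, d` -/
def Cpl (L Λ : Finset E) (a b c d : E) : Prop :=
  ∀ x, x ∈ Λ ↔ (x ∉ L ∧ x ≠ a ∧ x ≠ b ∧ x ≠ c ∧ x ≠ d)

lemma Cpl.s12 {L Λ : Finset E} {a b c d : E} (h : Cpl L Λ a b c d) : Cpl L Λ b a c d := by
  intro x; rw [h x]; tauto
lemma Cpl.s23 {L Λ : Finset E} {a b c d : E} (h : Cpl L Λ a b c d) : Cpl L Λ a c b d := by
  intro x; rw [h x]; tauto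
lemma Cpl.s34 {L Λ : Finset E} {a b c d : E} (h : Cpl L Λ a b c d) : Cpl L Λ a b d c := by
  intro x; rw [h x]; tauto

lemma Cpl.compl {L Λ : Finset E} {a b c d : E} (h : Cpl L Λ a b c d) (hc : c ∉ L) (hd : d ∉ L)
    (hac : a ≠ c) (had : a ≠ d) (hbc : b ≠ c) (hbd : b ≠ d) :
    (insert a (insert b L))ᶜ = insert c (insert d Λ) := by
  ext x
  simp only [Finset.mem_compl, Finset.mem_insert]
  rw [h x]
  constructor
  · intro h1
    push Not at h1
    by_cases hxc : x = c
    · left; exact hxc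
    by_cases hxd : x = d
    · right; left; exact hxd
    right; right
    exact ⟨h1.2.2, h1.1, h1.2.1, hxc, hxd⟩
  · rintro (rfl | rfl | h1)
    · push Not; exact ⟨hac.symm, hbc.symm, hc⟩
    · push Not; exact ⟨had.symm, hbd.symm, hd⟩
    · push Not; exact ⟨h1.2.1, h1.2.2.1, h1.1⟩

/-- sign of four elements -/
def v4 (a b c d : E) : SignType :=
  sgc code a b * sgc code a c * sgc code a d * sgc code b c * sgc code b d * sgc code c d

/-- the symmetric factor -/
def Om (L Λ : Finset E) (a b c d : E) : SignType :=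
  (sL code a L * sL code a Λ) * (sL code b L * sL code b Λ) * (sL code c L * sL code c Λ) *
    (sL code d L * sL code d Λ) * Wc code L Λ

lemma Wc_four {L Λ : Finset E} {a b c d : E} (ha : a ∉ L) (hb : b ∉ L) (hab : a ≠ b)
    (hcΛ : c ∉ Λ) (hdΛ : d ∉ Λ) (hcd : c ≠ d) :
    Wc code (insert a (insert b L)) (insert c (insert d Λ)) =
      sgc code a c * sgc code a d * sgc code b c * sgc code b d * sL code a Λ * sL code b Λ *
        sL code c L * sL code d L * Wc code L Λ := by
  unfold Wc
  rw [Finset.prod_insert (by simp [ha, hab]), Finset.prod_insert hb]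
  have hcd' : c ∉ insert d Λ := by simp [hcΛ, hcd]
  have e : ∀ x, sL code x (insert c (insert d Λ)) = sgc code c x * sgc code d x * sL code x Λ := by
    intro x
    rw [sL_insert _ _ _ hcd', sL_insert _ _ _ hdΛ, sgc_neg code c x, sgc_neg code d x]
    simp only [neg_mul, mul_neg, neg_neg]
    ac_rfl
  have e2 : ∏ x ∈ L, sL code x (insert c (insert d Λ)) =
      sL code c L * sL code d L * ∏ x ∈ L, sL code x Λ := by
    rw [Finset.prod_congr rfl (fun x _ => e x), Finset.prod_mul_distrib, Finset.prod_mul_distrib]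
    rfl
  rw [e2, e a, e b, sgc_neg code a c, sgc_neg code a d, sgc_neg code b c, sgc_neg code b d]
  simp only [neg_mul, mul_neg, neg_neg]
  ac_rfl

lemma mul_sq3 (x p q r : SignType) (h1 : p * p = 1) (h2 : q * q = 1) (h3 : r * r = 1) :
    x = x * ((p * p) * (q * q) * (r * r)) := by rw [h1, h2, h3]; simp

variable {code}

lemma dual_key (hcode : Function.Injective code) (τ : Finset E → SignType) {L Λ : Finset E}
    {a b c d : E} (h : Cpl L Λ a b c d) (ha : a ∉ L) (hb : b ∉ L) (hc : c ∉ L) (hd : d ∉ L)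
    (hab : a ≠ b) (hac : a ≠ c) (had : a ≠ d) (hbc : b ≠ c) (hbd : b ≠ d) (hcd : c ≠ d) :
    PL code (dualTau code τ) L a b = v4 code a b c d * Om code L Λ a b c d * PL code τ Λ c d := by
  have hcΛ : c ∉ Λ := fun hh => ((h c).mp hh).2.2.2.1 rfl
  have hdΛ : d ∉ Λ := fun hh => ((h d).mp hh).2.2.2.2 rfl
  have h1 : sgc code c d * sgc code c d = 1 := sign_sq (sgc_ne hcode hcd)
  have h2 : sL code c Λ * sL code c Λ = 1 := sign_sq (sL_ne hcode hcΛ)
  have h3 : sL code d Λ * sL code d Λ = 1 := sign_sq (sL_ne hcode hdΛ)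
  unfold PL dualTau
  rw [h.compl hc hd hac had hbc hbd, Wc_four code ha hb hab hcΛ hdΛ hcd]
  unfold v4 Om
  refine (mul_sq3 _ _ _ _ h1 h2 h3).trans ?_
  ac_rfl

lemma v4_s12 (a b c d : E) : v4 code b a c d = - v4 code a b c d := by
  unfold v4
  rw [sgc_neg code a b]
  simp only [neg_mul]
  ac_rfl

lemma v4_s23 (a b c d : E) : v4 code a c b d = - v4 code a b c d := by
  unfold v4
  rw [sgc_neg code b c]
  simp only [neg_mul, mul_neg]
  ac_rfl

lemma v4_s34 (a b c d : E) : v4 code a b d c = - v4 code a b c d := by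
  unfold v4
  rw [sgc_neg code c d]
  simp only [mul_neg]
  ac_rfl

lemma v4_ne (hcode : Function.Injective code) {a b c d : E} (hab : a ≠ b) (hac : a ≠ c)
    (had : a ≠ d) (hbc : b ≠ c) (hbd : b ≠ d) (hcd : c ≠ d) : v4 code a b c d ≠ 0 := by
  unfold v4
  exact mul_ne_zero (mul_ne_zero (mul_ne_zero (mul_ne_zero (mul_ne_zero (sgc_ne hcode hab)
    (sgc_ne hcode hac)) (sgc_ne hcode had)) (sgc_ne hcode hbc)) (sgc_ne hcode hbd))
    (sgc_ne hcode hcd)

lemma Om_ne (hcode : Function.Injective code) {L Λ : Finset E} {a b c d : E}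
    (h : Cpl L Λ a b c d) (ha : a ∉ L) (hb : b ∉ L) (hc : c ∉ L) (hd : d ∉ L) :
    Om code L Λ a b c d ≠ 0 := by
  have haΛ : a ∉ Λ := fun hh => ((h a).mp hh).2.1 rfl
  have hbΛ : b ∉ Λ := fun hh => ((h b).mp hh).2.2.1 rfl
  have hcΛ : c ∉ Λ := fun hh => ((h c).mp hh).2.2.2.1 rfl
  have hdΛ : d ∉ Λ := fun hh => ((h d).mp hh).2.2.2.2 rfl
  unfold Om
  refine mul_ne_zero (mul_ne_zero (mul_ne_zero (mul_ne_zero
    (mul_ne_zero (sL_ne hcode ha) (sL_ne hcode haΛ))
    (mul_ne_zero (sL_ne hcode hb) (sL_ne hcode hbΛ)))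
    (mul_ne_zero (sL_ne hcode hc) (sL_ne hcode hcΛ)))
    (mul_ne_zero (sL_ne hcode hd) (sL_ne hcode hdΛ))) ?_
  unfold Wc
  rw [Finset.prod_ne_zero_iff]
  intro x hx
  exact sL_ne hcode (fun hh => ((h x).mp hh).1 hx)

lemma Om_perm (L Λ : Finset E) (a b c d : E) :
    Om code L Λ c d a b = Om code L Λ a b c d := by
  unfold Om
  ac_rfl

lemma Om_perm2 (L Λ : Finset E) (a b c d : E) :
    Om code L Λ a d c b = Om code L Λ a b c d := by
  unfold Om
  ac_rfl

lemma dual_pair (hcode : Function.Injective code) (τ : Finset E → SignType) {L Λ : Finset E}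
    {a b c d : E} (h : Cpl L Λ a b c d) (ha : a ∉ L) (hb : b ∉ L) (hc : c ∉ L) (hd : d ∉ L)
    (hab : a ≠ b) (hac : a ≠ c) (had : a ≠ d) (hbc : b ≠ c) (hbd : b ≠ d) (hcd : c ≠ d) :
    PL code (dualTau code τ) L a b * PL code (dualTau code τ) L c d =
      PL code τ Λ a b * PL code τ Λ c d := by
  have h' : Cpl L Λ c d a b := by intro x; rw [h x]; tauto
  rw [dual_key hcode τ h ha hb hc hd hab hac had hbc hbd hcd,
    dual_key hcode τ h' hc hd ha hb hcd hac.symm hbc.symm had.symm hbd.symm hab,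
    Om_perm L Λ a b c d]
  have e1 : v4 code c d a b = v4 code a b c d := by
    rw [v4_s23 c a d b, v4_s12 a c d b, v4_s34 a c b d, v4_s23 a b c d]
    simp
  rw [e1]
  have h1 := sign_sq (v4_ne hcode hab hac had hbc hbd hcd)
  have h2 := sign_sq (Om_ne hcode h ha hb hc hd)
  calc _ = (v4 code a b c d * v4 code a b c d) * (Om code L Λ a b c d * Om code L Λ a b c d) *
      (PL code τ Λ a b * PL code τ Λ c d) := by ac_rfl
    _ = _ := by rw [h1, h2]; simp

lemma dual_pair2 (hcode : Function.Injective code) (τ : Finset E → SignType) {L Λ : Finset E}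
    {f g z w : E} (h : Cpl L Λ f g z w) (hf : f ∉ L) (hg : g ∉ L) (hz : z ∉ L) (hw : w ∉ L)
    (hfg : f ≠ g) (hfz : f ≠ z) (hfw : f ≠ w) (hgz : g ≠ z) (hgw : g ≠ w) (hzw : z ≠ w) :
    PL code (dualTau code τ) L g z * PL code (dualTau code τ) L g w =
      -(PL code τ Λ f z * PL code τ Λ f w) := by
  have h1 : Cpl L Λ g z f w := by intro x; rw [h x]; tauto
  have h2 : Cpl L Λ g w f z := by intro x; rw [h x]; tauto
  rw [dual_key hcode τ h1 hg hz hf hw hgz hfg.symm hgw hfz.symm hzw hfw,
    dual_key hcode τ h2 hg hw hf hz hgw hfg.symm hgz hfw.symm hzw.symm hfz,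
    Om_perm2 L Λ g z f w]
  have e1 : v4 code g w f z = - v4 code g z f w := by
    rw [v4_s23 g f w z, v4_s34 g f z w, v4_s23 g z f w]
    simp
  rw [e1]
  have k1 := sign_sq (v4_ne hcode hgz hfg.symm hgw hfz.symm hzw hfw)
  have k2 := sign_sq (Om_ne hcode h1 hg hz hf hw)
  calc _ = -((v4 code g z f w * v4 code g z f w) *
      (Om code L Λ g z f w * Om code L Λ g z f w) *
      (PL code τ Λ f z * PL code τ Λ f w)) := by
        simp only [neg_mul, mul_neg]
        ac_rfl
    _ = _ := by rw [k1, k2]; simp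

/-- the complementary set -/
def cpl4 (L : Finset E) (a b c d : E) : Finset E := (insert a (insert b (insert c (insert d L))))ᶜ

lemma cpl4_spec (L : Finset E) (a b c d : E) : Cpl L (cpl4 L a b c d) a b c d := by
  intro x
  unfold cpl4
  simp only [Finset.mem_compl, Finset.mem_insert]
  tauto

lemma cpl4_card {k k' : ℕ} (hE : Fintype.card E = (k + 2) + (k' + 2)) {L : Finset E}
    (hL : L.card = k') {a b c d : E} (ha : a ∉ L) (hb : b ∉ L) (hc : c ∉ L) (hd : d ∉ L)
    (hab : a ≠ b) (hac : a ≠ c) (had : a ≠ d) (hbc : b ≠ c) (hbd : b ≠ d) (hcd : c ≠ d) :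
    (cpl4 L a b c d).card = k := by
  unfold cpl4
  rw [Finset.card_compl, Finset.card_insert_of_notMem (by simp [ha, hab, hac, had]),
    Finset.card_insert_of_notMem (by simp [hb, hbc, hbd]),
    Finset.card_insert_of_notMem (by simp [hc, hcd]), Finset.card_insert_of_notMem hd, hE, hL]
  omega

lemma dualTau_ne (hcode : Function.Injective code) {τ : Finset E → SignType} {k k' : ℕ}
    (hE : Fintype.card E = (k + 2) + (k' + 2)) (hU : ∀ B : Finset E, B.card = k + 2 → τ B ≠ 0)
    (B : Finset E) (hB : B.card = k' + 2) : dualTau code τ B ≠ 0 := by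
  unfold dualTau
  refine mul_ne_zero ?_ (hU _ (by rw [Finset.card_compl, hE, hB]; omega))
  unfold Wc
  rw [Finset.prod_ne_zero_iff]
  intro x hx
  exact sL_ne hcode (by simp [hx])

/-- the dual set function is valid -/
theorem dualTau_ok (hcode : Function.Injective code) {τ : Finset E → SignType} {k k' : ℕ}
    (hE : Fintype.card E = (k + 2) + (k' + 2)) (hU : ∀ B : Finset E, B.card = k + 2 → τ B ≠ 0)
    (hτ : TauOK code τ k) : TauOK code (dualTau code τ) k' := by
  refine TauOK.of_uniform ?_ (dualTau_ne hcode hE hU) ?_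
  · obtain ⟨B, hB⟩ := Finset.exists_subset_card_eq (s := (Finset.univ : Finset E)) (n := k' + 2)
      (by rw [Finset.card_univ, hE]; omega)
    exact ⟨B, hB.2⟩
  · intro L hL a b c d ha hb hc hd hab hac had hbc hbd hcd
    have hC := cpl4_spec L a b c d
    have hcard := cpl4_card hE hL ha hb hc hd hab hac had hbc hbd hcd
    have haΛ : a ∉ cpl4 L a b c d := fun hh => ((hC a).mp hh).2.1 rfl
    have hbΛ : b ∉ cpl4 L a b c d := fun hh => ((hC b).mp hh).2.2.1 rfl
    have hcΛ : c ∉ cpl4 L a b c d := fun hh => ((hC c).mp hh).2.2.2.1 rfl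
    have hdΛ : d ∉ cpl4 L a b c d := fun hh => ((hC d).mp hh).2.2.2.2 rfl
    have h1 : Cpl L (cpl4 L a b c d) a c b d := by intro x; rw [hC x]; tauto
    have h2 : Cpl L (cpl4 L a b c d) a d b c := by intro x; rw [hC x]; tauto
    rw [dual_pair hcode τ hC ha hb hc hd hab hac had hbc hbd hcd,
      dual_pair hcode τ h1 ha hc hb hd hac hab had hbc.symm hcd hbd,
      dual_pair hcode τ h2 ha hd hb hc had hab hac hbd.symm hcd.symm hbc]
    exact hτ.gp _ hcard a b c d haΛ hbΛ hcΛ hdΛ hab hac had hbc hbd hcd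

/-- heights for the program with infinity `f` and objective `g` -/
structure DHeights (code : E → ℤ) (τ : Finset E → SignType) (k : ℕ) (f g : E)
    (h : Finset E → ℤ) : Prop where
  cmp : ∀ Λ : Finset E, Λ.card = k → f ∉ Λ → g ∉ Λ → ∀ z w, z ∉ Λ → w ∉ Λ → z ≠ w → z ≠ f →
    z ≠ g → w ≠ f → w ≠ g →
    PL code τ Λ z w * PL code τ Λ f g * PL code τ Λ f z * PL code τ Λ f w =
      - SignType.sign (h (insert z Λ) - h (insert w Λ))
  sgn : ∀ Λ : Finset E, Λ.card = k → f ∉ Λ → g ∉ Λ → ∀ z, z ∉ Λ → z ≠ f → z ≠ g →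
    SignType.sign (h (insert z Λ)) = PL code τ Λ g z * PL code τ Λ f z
  inj : ∀ T T' : Finset E, T.card = k + 1 → T'.card = k + 1 → f ∉ T → g ∉ T → f ∉ T' → g ∉ T' →
    h T = h T' → T = T'

/-- the dual heights -/
def dH (f g : E) (h : Finset E → ℤ) (T : Finset E) : ℤ :=
  if f ∈ T then 0 else - h (insert f (insert g T))ᶜ

/-- heights with exchanged roles make the dual program Euclidean -/
theorem dual_euclidean (hcode : Function.Injective code) (hpos : ∀ e, 0 ≤ code e)
    {τ : Finset E → SignType} {k k' : ℕ} (hE : Fintype.card E = (k + 2) + (k' + 2))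
    (hU : ∀ B : Finset E, B.card = k + 2 → τ B ≠ 0) (hτ' : TauOK code (dualTau code τ) k')
    (f g : E) (hfg : f ≠ g) (h : Finset E → ℤ) (hh : DHeights code τ k f g h) :
    (ofTau hcode (dualTau code τ) hτ').EuclideanProgram g f := by
  have hUd := dualTau_ne hcode (k' := k') hE hU
  -- heights and complements
  have hcomp : ∀ (L Λ : Finset E) (z w : E), Cpl L Λ f g z w → w ∉ L → w ≠ f → w ≠ g → w ≠ z →
      z ∉ L → z ≠ f → z ≠ g → f ∉ L → dH f g h (insert z L) = - h (insert w Λ) := by
    intro L Λ z w hC hw hwf hwg hwz hz hzf hzg hf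
    unfold dH
    rw [if_neg (by simp [hf, hzf.symm])]
    congr 2
    ext x
    simp only [Finset.mem_compl, Finset.mem_insert, hC x]
    by_cases hxw : x = w
    · subst hxw
      simp [hwf, hwg, hwz, hw]
    · simp [hxw]
      tauto
  -- sign of the dual height
  have hsgn : ∀ (L : Finset E), L.card = k' → g ∉ L → f ∉ L → ∀ z, z ∉ L → z ≠ f → z ≠ g →
      SignType.sign (dH f g h (insert z L)) =
        PL code (dualTau code τ) L f z * PL code (dualTau code τ) L g z := by
    intro L hL hg hf z hz hzf hzg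
    have hex : ∃ w, w ∉ L ∧ w ≠ f ∧ w ≠ g ∧ w ≠ z := by
      by_contra hcon
      push Not at hcon
      have hsub : (Finset.univ : Finset E) ⊆ insert f (insert g (insert z L)) := by
        intro x _
        simp only [Finset.mem_insert]
        by_contra hx
        push Not at hx
        exact hx.2.2.1 (hcon x hx.2.2.2 hx.1 hx.2.1)
      have := Finset.card_le_card hsub
      rw [Finset.card_univ, hE] at this
      have c1 := Finset.card_insert_le f (insert g (insert z L))
      have c2 := Finset.card_insert_le g (insert z L)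
      have c3 := Finset.card_insert_le z L
      omega
    obtain ⟨w, hw, hwf, hwg, hwz⟩ := hex
    have hC := cpl4_spec L f g z w
    have hcard := cpl4_card hE hL hf hg hz hw hfg hzf.symm hwf.symm hzg.symm hwg.symm hwz.symm
    obtain ⟨Λ, hΛ⟩ : ∃ Λ, Λ = cpl4 L f g z w := ⟨_, rfl⟩
    rw [← hΛ] at hC hcard
    have hfΛ : f ∉ Λ := fun hh => ((hC f).mp hh).2.1 rfl
    have hgΛ : g ∉ Λ := fun hh => ((hC g).mp hh).2.2.1 rfl
    have hzΛ : z ∉ Λ := fun hh => ((hC z).mp hh).2.2.2.1 rfl
    have hwΛ : w ∉ Λ := fun hh => ((hC w).mp hh).2.2.2.2 rfl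
    rw [hcomp L Λ z w hC hw hwf hwg hwz hz hzf hzg hf, Left.sign_neg,
      hh.sgn Λ hcard hfΛ hgΛ w hwΛ hwf hwg]
    -- dual_pair2 with roles g -> z, z -> f, w -> g, f -> w
    have hC' : Cpl L Λ w z f g := by intro x; rw [hC x]; tauto
    have e := dual_pair2 hcode τ hC' hw hz hf hg hwz hwf hwg hzf hzg hfg
    rw [PL_neg code (dualTau code τ) L z f, PL_neg code (dualTau code τ) L z g, neg_mul_neg, e,
      PL_neg code τ Λ w g, PL_neg code τ Λ w f, neg_mul_neg, mul_comm]
  apply euclidean_of_heightsG hcode hpos hτ' hUd g f hfg (dH f g h)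
  · intro T hT
    unfold dH
    rw [if_pos hT]
  · intro L hL hg hf z w hz hw hzw hgz hgw
    have hfgne : PL code (dualTau code τ) L f g ≠ 0 := PL_ne hcode hUd hL hf hg hfg
    have hgf : PL code (dualTau code τ) L g f = - PL code (dualTau code τ) L f g :=
      PL_neg _ _ _ _ _
    by_cases hzf : z = f
    · subst hzf
      have h1 := hsgn L hL hg hf w hw hzw.symm (Ne.symm hgw)
      have h2 : PL code (dualTau code τ) L g w ≠ 0 := PL_ne hcode hUd hL hg hw hgw
      have h0 : dH z g h (insert z L) = 0 := by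
        unfold dH; rw [if_pos (Finset.mem_insert_self _ _)]
      rw [h0, zero_sub, Left.sign_neg, h1, hgf]
      generalize PL code (dualTau code τ) L z g = p at *
      generalize PL code (dualTau code τ) L g w = q at *
      generalize PL code (dualTau code τ) L z w = r at *
      clear h0 h1 hgf hsgn hcomp
      revert p q r; decide
    by_cases hwf : w = f
    · subst hwf
      have h1 := hsgn L hL hg hf z hz hzw (Ne.symm hgz)
      have h2 : PL code (dualTau code τ) L g z ≠ 0 := PL_ne hcode hUd hL hg hz hgz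
      have h0 : dH w g h (insert w L) = 0 := by
        unfold dH; rw [if_pos (Finset.mem_insert_self _ _)]
      rw [h0, sub_zero, h1, hgf, PL_neg code (dualTau code τ) L w z]
      generalize PL code (dualTau code τ) L w g = p at *
      generalize PL code (dualTau code τ) L g z = q at *
      generalize PL code (dualTau code τ) L w z = r at *
      clear h0 h1 hgf hsgn hcomp
      revert p q r; decide
    have hC := cpl4_spec L f g z w
    have hcard := cpl4_card hE hL hf hg hz hw hfg (Ne.symm hzf) (Ne.symm hwf) hgz hgw hzw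
    obtain ⟨Λ, hΛ⟩ : ∃ Λ, Λ = cpl4 L f g z w := ⟨_, rfl⟩
    rw [← hΛ] at hC hcard
    have hfΛ : f ∉ Λ := fun hh => ((hC f).mp hh).2.1 rfl
    have hgΛ : g ∉ Λ := fun hh => ((hC g).mp hh).2.2.1 rfl
    have hzΛ : z ∉ Λ := fun hh => ((hC z).mp hh).2.2.2.1 rfl
    have hwΛ : w ∉ Λ := fun hh => ((hC w).mp hh).2.2.2.2 rfl
    have hC2 : Cpl L Λ f g w z := hC.s34
    rw [hcomp L Λ z w hC hw hwf (Ne.symm hgw) hzw.symm hz hzf (Ne.symm hgz) hf,
      hcomp L Λ w z hC2 hz hzf (Ne.symm hgz) hzw hw hwf (Ne.symm hgw) hf]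
    have e1 : -h (insert w Λ) - -h (insert z Λ) = h (insert z Λ) - h (insert w Λ) := by ring
    rw [e1]
    have h1 := hh.cmp Λ hcard hfΛ hgΛ z w hzΛ hwΛ hzw hzf (Ne.symm hgz) hwf (Ne.symm hgw)
    have h2 := dual_pair2 hcode τ hC hf hg hz hw hfg (Ne.symm hzf) (Ne.symm hwf) hgz hgw hzw
    have hC3 : Cpl L Λ z w f g := by intro x; rw [hC x]; tauto
    have h3 := dual_pair hcode τ hC3 hz hw hf hg hzw hzf (Ne.symm hgz) hwf (Ne.symm hgw) hfg
    have h4 : PL code (dualTau code τ) L g z ≠ 0 := PL_ne hcode hUd hL hg hz hgz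
    have h5 : PL code (dualTau code τ) L g w ≠ 0 := PL_ne hcode hUd hL hg hw hgw
    have h6 : PL code (dualTau code τ) L z w ≠ 0 := PL_ne hcode hUd hL hz hw hzw
    -- kappa
    have hk : (PL code (dualTau code τ) L z w * PL code (dualTau code τ) L f g) *
        (PL code (dualTau code τ) L g z * PL code (dualTau code τ) L g w) =
        SignType.sign (h (insert z Λ) - h (insert w Λ)) := by
      rw [h2, h3]
      have : SignType.sign (h (insert z Λ) - h (insert w Λ)) =
        -(PL code τ Λ z w * PL code τ Λ f g * PL code τ Λ f z * PL code τ Λ f w) := by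
        rw [h1]; simp
      rw [this, mul_neg]
      congr 1
      ac_rfl
    rw [← hk]
    generalize PL code (dualTau code τ) L z w = p at *
    generalize PL code (dualTau code τ) L f g = q at *
    generalize PL code (dualTau code τ) L g z = r at *
    generalize PL code (dualTau code τ) L g w = s at *
    clear hk h1 h2 h3 hsgn hcomp hgf
    revert p q r s; decide
  · intro T T' hT hT' hgT hgT' hfT hfT' he
    unfold dH at he
    rw [if_neg hfT, if_neg hfT', neg_inj] at he
    have c1 : ∀ T : Finset E, T.card = k' + 1 → g ∉ T → f ∉ T →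
        ((insert f (insert g T))ᶜ).card = k + 1 := by
      intro T hT hg hf
      rw [Finset.card_compl, Finset.card_insert_of_notMem (by simp [hf, hfg]),
        Finset.card_insert_of_notMem hg, hE, hT]
      omega
    have c2 : ∀ T : Finset E, f ∉ (insert f (insert g T))ᶜ := by intro T; simp
    have c3 : ∀ T : Finset E, g ∉ (insert f (insert g T))ᶜ := by intro T; simp
    have e := hh.inj _ _ (c1 T hT hgT hfT) (c1 T' hT' hgT' hfT') (c2 _) (c3 _) (c2 _) (c3 _) he
    rw [compl_inj_iff] at e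
    ext x
    by_cases hxf : x = f
    · rw [hxf]; simp [hfT, hfT']
    by_cases hxg : x = g
    · rw [hxg]; simp [hgT, hgT']
    have := Finset.ext_iff.mp e x
    simpa [hxf, hxg] using this

end dual

end g3

end Pool.Agent.H145.Euc
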