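import Pool.Agent.H145.Euc.T1
import Pool.Agent.H145.Euc.T4

/-! In a uniform Mandel oriented matroid of rank four every element is adjacent to a simplicial
region (Mandel); the version used here. -/

namespace Pool.Agent.H145.Euc

open SignType

section

variable {E : Type*}

lemma Reach.trans {X : E → E → E → E → SignType} {g f a0 b0 c0 a b c a' b' c' : E} {t t' : Bool}
    (h : Reach X g f a0 b0 c0 t a b c) (h' : Reach X g f a b c t' a' b' c') :
    Reach X g f a0 b0 c0 (t || t') a' b' c' := by
  induction h' with
  | start => rw [Bool.or_false]; exact h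
  | rot _ ih => exact Reach.rot ih
  | swap _ ih => exact Reach.swap ih
  | step _ hu ih => rw [Bool.or_true]; exact Reach.step ih hu

lemma sep_sign (D a b c d e s : SignType) (hs : s ≠ 0) (ha : a ≠ 0) (hc : c ≠ 0) (hd : d ≠ 0)
    (hD : D ≠ 0) (he : e ≠ 0) (hz : b * e = s) (hsep : d * a ≠ D * -e)
    (h : GP3 (D * a) (-(b * c)) (d * e)) : d * c = s ∧ D * a * e * c = s := by
  have key : ∀ D a e : SignType, D ≠ 0 → a ≠ 0 → e ≠ 0 → ∀ d : SignType, d ≠ 0 →
      d * a ≠ D * -e → ∀ b c : SignType, c ≠ 0 → b * e ≠ 0 →
      GP3 (D * a) (-(b * c)) (d * e) → d * c = b * e ∧ D * a * e * c = b * e := by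
    decide
  have := key D a e hD ha he d hd hsep b c hc (by rw [hz]; exact hs) h
  rw [hz] at this
  exact this

end

namespace Chirotope

variable {E : Type*}

/-- `c, w` on the lines through pairs of the three elements `x, y, z` -/
def Adj3 (M : Chirotope E 2) (e x y z : E) : Prop :=
  ∀ w w', w ≠ e → w ≠ x → w ≠ y → w ≠ z → w' ≠ e → w' ≠ x → w' ≠ y → w' ≠ z →
    M.X e w x y * M.X z w x y = M.X e w' x y * M.X z w' x y

lemma ext_uniform [DecidableEq E] [Fintype E] (M : Chirotope E 2) (hU : M.Uniform)
    (hcard : 4 ≤ Fintype.card E)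
    (N : Chirotope (Option E) 2) (hext : M.IsExt N) (hgen : N.GeneralPosition) : N.Uniform := by
  have hN := N.X_alt
  have hYX : ∀ a b c d : E, N.X (some a) (some b) (some c) (some d) = M.X a b c d := by
    intro a b c d
    have := hext ![a, b, c, d]
    rw [N.χ_eq_X] at this
    exact this
  have key : ∀ a b c : E, a ≠ b → a ≠ c → b ≠ c → N.X none (some a) (some b) (some c) ≠ 0 := by
    intro a b c hab hac hbc h0
    have hg := hgen {a, b, c} (by
      have : ({a, b, c} : Finset E).card ≤ 3 := Finset.card_le_three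
      omega)
    unfold InCl at hg
    push Not at hg
    obtain ⟨u, hu1, hu2⟩ := hg
    -- an element outside
    obtain ⟨d, hd⟩ : ∃ d, d ∉ ({a, b, c} : Finset E) := by
      by_contra hcon
      push Not at hcon
      have h1 : (Finset.univ : Finset E) ⊆ {a, b, c} := fun x _ => hcon x
      have h2 := Finset.card_le_card h1
      have h3 : ({a, b, c} : Finset E).card ≤ 3 := Finset.card_le_three
      rw [Finset.card_univ] at h2
      omega
    simp only [Finset.mem_insert, Finset.mem_singleton, not_or] at hd
    obtain ⟨hda, hdb, hdc⟩ := hd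
    have hB : N.χ ![some d, some a, some b, some c] ≠ 0 := by
      have : N.X (some d) (some a) (some b) (some c) ≠ 0 := by
        rw [hYX]; exact U4 hU _ _ _ _ hda hdb hdc hab hac hbc
      exact this
    obtain ⟨j, hj⟩ := N.exch _ _ hB hu2 0
    have hupd : ∀ t : Option E, Function.update ![some d, some a, some b, some c] 0 t =
        ![t, some a, some b, some c] := by
      intro t; funext i; fin_cases i <;> rfl
    rw [hupd] at hj
    -- the exchanged element is not `none`
    have hjn : ∃ i : Fin 3, N.χ ![u i, some a, some b, some c] ≠ 0 := by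
      fin_cases j
      · exact absurd h0 hj
      · exact ⟨0, hj⟩
      · exact ⟨1, hj⟩
      · exact ⟨2, hj⟩
    obtain ⟨i, hi⟩ := hjn
    obtain ⟨l, hl⟩ := N.exch _ _ hu2 hi 0
    have hupd2 : ∀ t : Option E, Function.update (Matrix.vecCons none u) 0 t =
        (Matrix.vecCons t u : Fin 4 → Option E) := by
      intro t
      funext i
      refine Fin.cases ?_ (fun i => ?_) i
      · simp
      · rw [Function.update_of_ne (Fin.succ_ne_zero i)]; rfl
    rw [hupd2] at hl
    apply hl
    fin_cases l
    · show N.χ (Matrix.vecCons (u i) u) = 0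
      rw [N.χ_eq_X]
      fin_cases i
      · exact hN.e12 _ _ _
      · exact hN.e13 _ _ _
      · exact hN.e14 _ _ _
    · exact hu1 (some a) ⟨a, by simp, rfl⟩
    · exact hu1 (some b) ⟨b, by simp, rfl⟩
    · exact hu1 (some c) ⟨c, by simp, rfl⟩
  have hX : ∀ a b c d : Option E, a ≠ b → a ≠ c → a ≠ d → b ≠ c → b ≠ d → c ≠ d →
      N.X a b c d ≠ 0 := by
    intro a b c d h1 h2 h3 h4 h5 h6
    rcases a with _ | a
    · rcases b with _ | b
      · exact absurd rfl h1
      rcases c with _ | c
      · exact absurd rfl h2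
      rcases d with _ | d
      · exact absurd rfl h3
      exact key b c d (by simpa using h4) (by simpa using h5) (by simpa using h6)
    rcases b with _ | b
    · rcases c with _ | c
      · exact absurd rfl h4
      rcases d with _ | d
      · exact absurd rfl h5
      rw [hN.s12]
      have := key a c d (by simpa using h2) (by simpa using h3) (by simpa using h6)
      intro h
      apply this
      have r : ∀ s : SignType, -s = 0 → s = 0 := by decide
      exact r _ h
    rcases c with _ | c
    · rcases d with _ | d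
      · exact absurd rfl h6
      rw [hN.s13 none (some b) (some a) (some d)]
      have := key b a d (by simpa using h1.symm) (by simpa using h5) (by simpa using h3)
      intro h
      apply this
      have r : ∀ s : SignType, -s = 0 → s = 0 := by decide
      exact r _ h
    rcases d with _ | d
    · rw [hN.s14 none (some b) (some c) (some a)]
      have := key b c a (by simpa using h4) (by simpa using h1.symm) (by simpa using h2.symm)
      intro h
      apply this
      have r : ∀ s : SignType, -s = 0 → s = 0 := by decide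
      exact r _ h
    rw [hYX]
    exact U4 hU a b c d (by simpa using h1) (by simpa using h2) (by simpa using h3)
      (by simpa using h4) (by simpa using h5) (by simpa using h6)
  intro v hv
  rw [N.χ_eq_X]
  exact hX _ _ _ _ (fun h => absurd (hv h) (by decide)) (fun h => absurd (hv h) (by decide))
    (fun h => absurd (hv h) (by decide)) (fun h => absurd (hv h) (by decide))
    (fun h => absurd (hv h) (by decide)) (fun h => absurd (hv h) (by decide))

/-- In a uniform Mandel oriented matroid of rank four every element `e` is adjacent to a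
simplicial region, given by `e` and three further elements. -/
theorem adj_of_mandel [DecidableEq E] [Fintype E] (M : Chirotope E 2) (hU : M.Uniform)
    (hcard : 5 ≤ Fintype.card E) (hM : M.Mandel) (e : E) :
    ∃ x y z, e ≠ x ∧ e ≠ y ∧ e ≠ z ∧ x ≠ y ∧ x ≠ z ∧ y ≠ z ∧
      M.Adj3 e x y z ∧ M.Adj3 e y z x ∧ M.Adj3 e z x y := by
  classical
  obtain ⟨N, hext, hgen, -, hprog⟩ := hM
  have hNU := ext_uniform M hU (by omega) N hext hgen
  have hN := N.X_alt
  have hYX : ∀ a b c d : E, N.X (some a) (some b) (some c) (some d) = M.X a b c d := by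
    intro a b c d
    have := hext ![a, b, c, d]
    rw [N.χ_eq_X] at this
    exact this
  -- four elements different from e
  obtain ⟨S4, hS4, hS4c⟩ := Finset.exists_subset_card_eq (s := (Finset.univ.erase e))
    (n := 4) (by rw [Finset.card_erase_of_mem (Finset.mem_univ _), Finset.card_univ]; omega)
  obtain ⟨a, b, c, d, hab, hac, had, hbc, hbd, hcd, rfl⟩ := Finset.card_eq_four.mp hS4c
  have hane : ∀ t ∈ ({a, b, c, d} : Finset E), t ≠ e := fun t ht =>
    (Finset.mem_erase.mp (hS4 ht)).1
  have hae := hane a (by simp)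
  have hbe := hane b (by simp)
  have hce := hane c (by simp)
  have hde := hane d (by simp)
  have hE : N.EuclideanProgram none (some e) := by
    apply hprog e
    · intro h
      have h1 : M.χ ![e, a, b, c] ≠ 0 := U4 hU e a b c hae.symm hbe.symm hce.symm hab hac hbc
      exact h _ h1 ⟨0, rfl⟩
    · intro h
      have h1 : M.χ ![a, b, c, d] ≠ 0 := U4 hU a b c d hab hac had hbc hbd hcd
      obtain ⟨i, hi⟩ := h _ h1
      fin_cases i
      · exact hae hi
      · exact hbe hi
      · exact hce hi
      · exact hde hi
  obtain ⟨g, hg⟩ : ∃ g : Option E, g = none := ⟨_, rfl⟩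
  obtain ⟨f, hf⟩ : ∃ f : Option E, f = some e := ⟨_, rfl⟩
  have hfg : f ≠ g := by rw [hf, hg]; simp
  have hgs : ∀ t : E, g ≠ some t := by intro t; rw [hg]; simp
  have hfs : ∀ t : E, t ≠ e → f ≠ some t := by
    intro t ht h; rw [hf] at h; exact ht (Option.some.inj h).symm
  rw [← hg, ← hf] at hE
  -- vertices
  let V := {p : E × E × E // p.1 ≠ e ∧ p.2.1 ≠ e ∧ p.2.2 ≠ e ∧ p.1 ≠ p.2.1 ∧ p.1 ≠ p.2.2 ∧
    p.2.1 ≠ p.2.2}
  let r : V → V → Prop := fun p q => Reach N.X g f (some p.1.1) (some p.1.2.1) (some p.1.2.2) true
    (some q.1.1) (some q.1.2.1) (some q.1.2.2)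
  have hrt : ∀ p q s, r p q → r q s → r p s := by
    intro p q s h1 h2
    exact Reach.trans h1 h2
  have hri : ∀ p, ¬ r p p := by
    rintro ⟨⟨x, y, z⟩, h1, h2, h3, h4, h5, h6⟩ h
    simp only at h1 h2 h3 h4 h5 h6
    refine not_euclidean_of_cycle N hNU g f hfg (some x) (some y) (some z) ?_ (hfs x h1)
      (hfs y h2) (hfs z h3) h hE
    exact U4 hNU _ _ _ _ (hgs x) (hgs y) (hgs z) (by simpa using h4) (by simpa using h5)
      (by simpa using h6)
  -- sign of a vertex
  let Sg : E → E → E → SignType := fun x y z => N.X f (some z) (some x) (some y) *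
    N.X g (some z) (some x) (some y)
  have hSrot : ∀ x y z, Sg y z x = Sg x y z := by
    intro x y z
    simp only [Sg]
    rw [hN.s24 f (some z) (some y) (some x), hN.s34 f (some z) (some x) (some y),
      hN.s24 g (some z) (some y) (some x), hN.s34 g (some z) (some x) (some y)]
    simp
  let p0 : V := ⟨(a, b, c), hae, hbe, hce, hab, hac, hbc⟩
  obtain ⟨s, hs⟩ : ∃ s, s = Sg a b c := ⟨_, rfl⟩
  have hsne : s ≠ 0 := by
    rw [hs]
    exact mul_ne_zero (U4 hNU _ _ _ _ (hfs c hce) (hfs a hae) (hfs b hbe) (by simpa using hac.symm)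
      (by simpa using hbc.symm) (by simpa using hab)) (U4 hNU _ _ _ _ (hgs c) (hgs a) (hgs b)
      (by simpa using hac.symm) (by simpa using hbc.symm) (by simpa using hab))
  let r' : V → V → Prop := fun p q => if s = 1 then r p q else r q p
  have hwf : WellFounded r' := by
    have ht : IsTrans V r' := ⟨by
      intro p q t h1 h2
      simp only [r'] at *
      split_ifs at * with h
      · exact hrt _ _ _ h1 h2
      · exact hrt _ _ _ h2 h1⟩
    have hi : Std.Irrefl r' := ⟨by
      intro p h1
      simp only [r'] at h1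
      split_ifs at h1 with h
      · exact hri _ h1
      · exact hri _ h1⟩
    exact Finite.wellFounded_of_trans_of_irrefl r'
  obtain ⟨p, hpS, hpmin⟩ := hwf.has_min {p : V | Sg p.1.1 p.1.2.1 p.1.2.2 = s} ⟨p0, hs.symm⟩
  obtain ⟨⟨x, y, z⟩, h1, h2, h3, h4, h5, h6⟩ := p
  simp only [Set.mem_ofPred_eq] at hpS
  simp only at h1 h2 h3 h4 h5 h6
  -- the main claim
  have claim : ∀ u v w : E, u ≠ e → v ≠ e → w ≠ e → u ≠ v → u ≠ w → v ≠ w → Sg u v w = s →
      Reach N.X g f (some x) (some y) (some z) false (some u) (some v) (some w) →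
      Reach N.X g f (some u) (some v) (some w) false (some x) (some y) (some z) →
      ∀ t, t ≠ e → t ≠ u → t ≠ v → t ≠ w →
        N.X f (some t) (some u) (some v) * N.X (some w) (some t) (some u) (some v) =
        N.X f g (some u) (some v) * -N.X g (some w) (some u) (some v) := by
    intro u v w k1 k2 k3 k4 k5 k6 hSs hR1 hR2 t m1 m2 m3 m4
    by_contra hsep
    have q1 : N.X (some w) (some t) (some u) (some v) ≠ 0 := U4 hNU _ _ _ _
      (by simpa using m4.symm) (by simpa using k5.symm) (by simpa using k6.symm)
      (by simpa using m2) (by simpa using m3) (by simpa using k4)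
    have q2 : N.X g (some t) (some u) (some v) ≠ 0 := U4 hNU _ _ _ _ (hgs t) (hgs u) (hgs v)
      (by simpa using m2) (by simpa using m3) (by simpa using k4)
    have q3 : N.X f (some t) (some u) (some v) ≠ 0 := U4 hNU _ _ _ _ (hfs t m1) (hfs u k1)
      (hfs v k2) (by simpa using m2) (by simpa using m3) (by simpa using k4)
    have q4 : N.X f g (some u) (some v) ≠ 0 := U4 hNU _ _ _ _ hfg (hfs u k1)
      (hfs v k2) (hgs u) (hgs v) (by simpa using k4)
    have q5 : N.X g (some w) (some u) (some v) ≠ 0 := U4 hNU _ _ _ _ (hgs w) (hgs u) (hgs v)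
      (by simpa using k5.symm) (by simpa using k6.symm) (by simpa using k4)
    obtain ⟨r1, r2⟩ := sep_sign _ _ _ (N.X g (some t) (some u) (some v)) _ _ s hsne q1 q2 q3 q4 q5
      hSs hsep (N.X_gp (some u) (some v) f g (some w) (some t))
    have hq : ∃ q : V, q.1 = (u, v, t) := ⟨⟨(u, v, t), k1, k2, m1, k4, m2.symm, m3.symm⟩, rfl⟩
    obtain ⟨q, hq⟩ := hq
    have hqS : Sg q.1.1 q.1.2.1 q.1.2.2 = s := by rw [hq]; exact r1
    have hmin := hpmin q hqS
    apply hmin
    simp only [r']
    by_cases hs1 : s = 1
    · rw [if_pos hs1]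
      simp only [r]
      rw [hq]
      -- t -> w
      have hu : UpStep N.X g f (some u) (some v) (some t) (some w) := by
        refine ⟨hgs u, hgs v, hgs t, hgs w, hfs u k1, hfs v k2, by simpa using k4,
          by simpa using m2.symm, by simpa using k5, by simpa using m3.symm, by simpa using k6,
          by simpa using m4, ?_⟩
        rw [hN.s12 (some w) (some t), mul_neg, neg_mul, neg_mul]
        rw [hs1] at r2
        have : N.X f g (some u) (some v) * N.X (some w) (some t) (some u) (some v) *
          N.X g (some t) (some u) (some v) * N.X g (some w) (some u) (some v) = 1 := by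
          rw [← r2]; ac_rfl
        rw [this]
      have := (Reach.step (Reach.start) hu).trans hR2
      exact this
    · rw [if_neg hs1]
      simp only [r]
      rw [hq]
      have hs2 : s = -1 := by
        revert hs1 hsne; clear_value Sg r' r; clear hs hpS hpmin hSs hqS hmin r1 r2 hwf
        revert s; decide
      have hu : UpStep N.X g f (some u) (some v) (some w) (some t) := by
        refine ⟨hgs u, hgs v, hgs w, hgs t, hfs u k1, hfs v k2, by simpa using k4,
          by simpa using k5, by simpa using m2.symm, by simpa using k6, by simpa using m3.symm,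
          by simpa using m4.symm, ?_⟩
        rw [hs2] at r2
        exact r2
      exact Reach.step hR1 hu
  have hS2 : Sg y z x = s := by rw [hSrot]; exact hpS
  have hS3 : Sg z x y = s := by rw [hSrot]; exact hS2
  have c1 := claim x y z h1 h2 h3 h4 h5 h6 hpS Reach.start Reach.start
  have c2 := claim y z x h2 h3 h1 h6 h4.symm h5.symm hS2 (Reach.rot Reach.start)
    (Reach.rot (Reach.rot Reach.start))
  have c3 := claim z x y h3 h1 h2 h5.symm h6.symm h4 hS3 (Reach.rot (Reach.rot Reach.start))
    (Reach.rot Reach.start)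
  refine ⟨x, y, z, h1.symm, h2.symm, h3.symm, h4, h5, h6, ?_, ?_, ?_⟩
  · intro w w' m1 m2 m3 m4 m1' m2' m3' m4'
    have e1 := c1 w m1 m2 m3 m4
    have e2 := c1 w' m1' m2' m3' m4'
    rw [hf, hYX, hYX] at e1 e2
    rw [e1, e2]
  · intro w w' m1 m2 m3 m4 m1' m2' m3' m4'
    have e1 := c2 w m1 m2 m3 m4
    have e2 := c2 w' m1' m2' m3' m4'
    rw [hf, hYX, hYX] at e1 e2
    rw [e1, e2]
  · intro w w' m1 m2 m3 m4 m1' m2' m3' m4'
    have e1 := c3 w m1 m2 m3 m4
    have e2 := c3 w' m1' m2' m3' m4'
    rw [hf, hYX, hYX] at e1 e2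
    rw [e1, e2]

end Chirotope

end Pool.Agent.H145.Euc
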