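import Pool.Agent.H145.Euc.G3
import Pool.Agent.H145.Euc.G4

/-! Deletion and contraction of the last element, duality of the resulting chirotopes. -/

namespace Pool.Agent.H145.Euc

open SignType Matrix

set_option linter.unusedSectionVars false

noncomputable section g5

section gen

variable {E : Type*} [DecidableEq E] {code : E → ℤ}

lemma ofTau_ne (hc : Function.Injective code) {k : ℕ} {τ : Finset E → SignType}
    (h : TauOK code τ k) (hU : ∀ B : Finset E, B.card = k + 2 → τ B ≠ 0)
    (v : Fin (k + 2) → E) : (ofTau hc τ h).χ v ≠ 0 ↔ Function.Injective v := by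
  show vs code v * τ (Finset.univ.image v) ≠ 0 ↔ _
  constructor
  · intro h
    exact (vs_ne hc v).mp (left_ne_zero_of_mul h)
  · intro hv
    refine mul_ne_zero ((vs_ne hc v).mpr hv) (hU _ ?_)
    rw [Finset.card_image_of_injective _ hv]; simp

lemma vs_mono {n : ℕ} (v : Fin n → E) (h : ∀ i j, i < j → code (v i) < code (v j)) :
    vs code v = 1 := by
  unfold vs
  rw [det_vandermonde]
  apply sign_pos
  apply Finset.prod_pos
  intro i _
  apply Finset.prod_pos
  intro j hj
  have := h i j (Finset.mem_Ioi.mp hj)
  omega

lemma exists_inj_tuple {n : ℕ} (S : Finset E) (hS : S.card = n) :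
    ∃ v : Fin n → E, Function.Injective v ∧ Finset.univ.image v = S := by
  obtain ⟨eq⟩ : Nonempty (Fin n ≃ S) := ⟨(finCongr hS.symm).trans S.equivFin.symm⟩
  refine ⟨fun i => (eq i : E), fun a b hab => eq.injective (Subtype.ext hab), ?_⟩
  ext t
  simp only [Finset.mem_image, Finset.mem_univ, true_and]
  constructor
  · rintro ⟨i, rfl⟩; exact (eq i).2
  · intro ht; exact ⟨eq.symm ⟨t, ht⟩, by simp⟩

end gen

section minors

variable {E : Type*} [DecidableEq E] {c : Option E → ℤ}

lemma sL_some (a : E) (Λ : Finset E) :
    sL c (some a) (Λ.map Function.Embedding.some) = sL (fun e => c (some e)) a Λ := by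
  unfold sL
  rw [Finset.prod_map]
  rfl

lemma PL_del (τ : Finset (Option E) → SignType) (Λ : Finset E) (a b : E) :
    PL (fun e => c (some e)) (fun S => τ (S.map Function.Embedding.some)) Λ a b =
      PL c τ (Λ.map Function.Embedding.some) (some a) (some b) := by
  unfold PL
  rw [sL_some, sL_some, map_ins, map_ins]
  rfl

lemma PL_con (hlast : ∀ e, c (some e) < c none) (τ : Finset (Option E) → SignType)
    (Λ : Finset E) (a b : E) :
    PL (fun e => c (some e)) (fun S => τ (insert none (S.map Function.Embedding.some))) Λ a b =
      PL c τ (insert none (Λ.map Function.Embedding.some)) (some a) (some b) := by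
  unfold PL
  have h1 : ∀ a : E, sL c (some a) (insert none (Λ.map Function.Embedding.some)) =
      sL (fun e => c (some e)) a Λ := by
    intro a
    rw [sL_insert _ _ _ (by simp), sL_some]
    have : sgc c (some a) none = 1 := by
      unfold sgc
      apply sign_pos
      have := hlast a
      omega
    rw [this, one_mul]
  rw [h1, h1]
  have e : insert (some a) (insert (some b) (insert none (Λ.map Function.Embedding.some))) =
      insert none ((insert a (insert b Λ)).map Function.Embedding.some) := by
    rw [← map_ins, ← map_ins, Finset.insert_comm (some b) none, Finset.insert_comm (some a) none]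
  rw [e]
  rfl

lemma inj_some (hc : Function.Injective c) : Function.Injective (fun e : E => c (some e)) :=
  fun _ _ h => Option.some.inj (hc h)

lemma not_mem_map {a : E} {Λ : Finset E} (h : a ∉ Λ) :
    some a ∉ Λ.map Function.Embedding.some := by simpa using h

/-- deletion of the last element -/
theorem del_ok [Fintype E] {τ : Finset (Option E) → SignType} {k : ℕ}
    (hcard : k + 2 ≤ Fintype.card E)
    (hU : ∀ B : Finset (Option E), B.card = k + 2 → τ B ≠ 0) (h : TauOK c τ k) :
    TauOK (fun e => c (some e)) (fun S : Finset E => τ (S.map Function.Embedding.some)) k := by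
  refine TauOK.of_uniform ?_ ?_ ?_
  · obtain ⟨B, hB⟩ := Finset.exists_subset_card_eq (s := (Finset.univ : Finset E)) (n := k + 2)
      (by rw [Finset.card_univ]; exact hcard)
    exact ⟨B, hB.2⟩
  · intro B hB
    exact hU _ (by rw [Finset.card_map, hB])
  · intro Λ hΛ a b c' d ha hb hc hd h1 h2 h3 h4 h5 h6
    rw [PL_del, PL_del, PL_del, PL_del, PL_del, PL_del]
    exact h.gp _ (by rw [Finset.card_map, hΛ]) _ _ _ _ (not_mem_map ha) (not_mem_map hb)
      (not_mem_map hc) (not_mem_map hd) (by simpa using h1) (by simpa using h2)
      (by simpa using h3) (by simpa using h4) (by simpa using h5) (by simpa using h6)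

lemma not_mem_insmap {a : E} {Λ : Finset E} (h : a ∉ Λ) :
    some a ∉ insert none (Λ.map Function.Embedding.some) := by simpa using h

/-- contraction of the last element -/
theorem con_ok [Fintype E] (hlast : ∀ e, c (some e) < c none)
    {τ : Finset (Option E) → SignType} {k : ℕ}
    (hcard : k + 2 ≤ Fintype.card E)
    (hU : ∀ B : Finset (Option E), B.card = k + 1 + 2 → τ B ≠ 0) (h : TauOK c τ (k + 1)) :
    TauOK (fun e => c (some e))
      (fun S : Finset E => τ (insert none (S.map Function.Embedding.some))) k := by
  refine TauOK.of_uniform ?_ ?_ ?_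
  · obtain ⟨B, hB⟩ := Finset.exists_subset_card_eq (s := (Finset.univ : Finset E)) (n := k + 2)
      (by rw [Finset.card_univ]; exact hcard)
    exact ⟨B, hB.2⟩
  · intro B hB
    exact hU _ (by rw [Finset.card_insert_of_notMem (by simp), Finset.card_map, hB])
  · intro Λ hΛ a b c' d ha hb hc hd h1 h2 h3 h4 h5 h6
    rw [PL_con hlast, PL_con hlast, PL_con hlast, PL_con hlast, PL_con hlast, PL_con hlast]
    exact h.gp _ (by rw [Finset.card_insert_of_notMem (by simp), Finset.card_map, hΛ]) _ _ _ _
      (not_mem_insmap ha) (not_mem_insmap hb) (not_mem_insmap hc) (not_mem_insmap hd)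
      (by simpa using h1) (by simpa using h2) (by simpa using h3) (by simpa using h4)
      (by simpa using h5) (by simpa using h6)

end minors

section main

variable {m : ℕ} {c : Option (Fin m) → ℤ}

/-- the deletion of the last element of the dual and the contraction of the last element are
dual -/
theorem isDual_minors (hc : Function.Injective c) (hlast : ∀ e, c (some e) < c none)
    (hmono : ∀ i j : Fin m, i < j → c (some i) < c (some j))
    {τ : Finset (Option (Fin m)) → SignType} {k k' : ℕ}
    (hm : m = (k' + 2) + (k + 2))
    (hU : ∀ B : Finset (Option (Fin m)), B.card = k + 1 + 2 → τ B ≠ 0)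
    (h1 : TauOK (fun e => c (some e))
      (fun S : Finset (Fin m) => dualTau c τ (S.map Function.Embedding.some)) k')
    (h2 : TauOK (fun e => c (some e))
      (fun S : Finset (Fin m) => τ (insert none (S.map Function.Embedding.some))) k) :
    (ofTau (inj_some hc) _ h1).IsDual (ofTau (inj_some hc) _ h2) := by
  have hUd : ∀ B : Finset (Option (Fin m)), B.card = k' + 2 → dualTau c τ B ≠ 0 :=
    dualTau_ne (code := c) hc (k := k + 1) (k' := k') (by simp; omega) hU
  -- the product
  have hD : ∀ e : Fin (k' + 2) ⊕ Fin (k + 2) ≃ Fin m,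
      (ofTau (inj_some hc) _ h2).χ (fun j => e (Sum.inr j)) *
        (ofTau (inj_some hc) _ h1).χ (fun i => e (Sum.inl i)) =
      vs (fun x => c (some x))
        (Fin.append (fun i => e (Sum.inl i)) (fun j => e (Sum.inr j))) := by
    intro e
    rw [vs_append]
    show vs _ _ * τ _ * (vs _ _ * dualTau c τ _) = _
    obtain ⟨a, ha⟩ : ∃ a : Fin (k' + 2) → Fin m, a = fun i => e (Sum.inl i) := ⟨_, rfl⟩
    obtain ⟨b, hb⟩ : ∃ b : Fin (k + 2) → Fin m, b = fun j => e (Sum.inr j) := ⟨_, rfl⟩
    rw [← ha, ← hb]
    have hai : Function.Injective a := by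
      rw [ha]; intro i j hij; exact Sum.inl.inj (e.injective hij)
    have hbi : Function.Injective b := by
      rw [hb]; intro i j hij; exact Sum.inr.inj (e.injective hij)
    have hcompl : ((Finset.univ.image a).map Function.Embedding.some)ᶜ =
        insert none ((Finset.univ.image b).map Function.Embedding.some) := by
      ext t
      rcases t with _ | t
      · simp
      · simp only [Finset.mem_compl, Finset.mem_map, Finset.mem_image, Finset.mem_univ, true_and,
          Function.Embedding.some_apply, Option.some.injEq, exists_eq_right, Finset.mem_insert,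
          reduceCtorEq, false_or]
        constructor
        · intro h
          obtain ⟨s, hs⟩ := e.surjective t
          rcases s with i | j
          · exact absurd ⟨i, by rw [ha]; exact hs⟩ h
          · exact ⟨j, by rw [hb]; exact hs⟩
        · rintro ⟨j, hj⟩ ⟨i, hi⟩
          rw [ha] at hi
          rw [hb] at hj
          have := e.injective (hi.trans hj.symm)
          simp at this
    unfold dualTau
    rw [hcompl]
    have hτ : τ (insert none ((Finset.univ.image b).map Function.Embedding.some)) *
        τ (insert none ((Finset.univ.image b).map Function.Embedding.some)) = 1 := by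
      apply sign_sq
      apply hU
      rw [Finset.card_insert_of_notMem (by simp), Finset.card_map,
        Finset.card_image_of_injective _ hbi]
      simp
    have hW : Wc c ((Finset.univ.image a).map Function.Embedding.some)
        (insert none ((Finset.univ.image b).map Function.Embedding.some)) =
        ∏ i, ∏ j, sgc (fun x => c (some x)) (a i) (b j) := by
      unfold Wc
      rw [Finset.prod_map, Finset.prod_image (fun x _ y _ h => hai h)]
      apply Finset.prod_congr rfl
      intro i _
      show sL c (some (a i)) _ = _
      rw [sL_insert _ _ _ (by simp), sL_some]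
      have : sgc c (some (a i)) none = 1 := by
        unfold sgc
        apply sign_pos
        have := hlast (a i)
        omega
      rw [this, one_mul]
      unfold sL
      rw [Finset.prod_image (fun x _ y _ h => hbi h)]
    rw [hW]
    generalize τ (insert none ((Finset.univ.image b).map Function.Embedding.some)) = t at *
    calc _ = (t * t) * (vs (fun e => c (some e)) a * vs (fun e => c (some e)) b *
        ∏ i, ∏ j, sgc (fun x => c (some x)) (a i) (b j)) := by ac_rfl
      _ = _ := by
        rw [hτ, one_mul]
        subst ha hb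
        rfl
  refine ⟨finSumFinEquiv.trans (finCongr hm.symm), ?_⟩
  intro e
  obtain ⟨e₀, he₀⟩ : ∃ e₀ : Fin (k' + 2) ⊕ Fin (k + 2) ≃ Fin m,
    e₀ = finSumFinEquiv.trans (finCongr hm.symm) := ⟨_, rfl⟩
  rw [← he₀]
  have hD0 : vs (fun x => c (some x))
        (Fin.append (fun i => e₀ (Sum.inl i)) (fun j => e₀ (Sum.inr j))) = 1 := by
    rw [append_equiv]
    apply vs_mono
    intro i j hij
    apply hmono
    rw [he₀]
    simp only [Equiv.trans_apply, Equiv.apply_symm_apply]
    exact hij
  have hDe := hD e
  rw [vs_append_perm (fun x => c (some x)) e e₀, hD0, mul_one] at hDe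
  have hne : (ofTau (inj_some hc) _ h1).χ (fun i => e (Sum.inl i)) ≠ 0 := by
    rw [ofTau_ne (inj_some hc) h1 (fun B hB => hUd _ (by rw [Finset.card_map, hB]))]
    intro i j hij; exact Sum.inl.inj (e.injective hij)
  rw [← hDe, mul_assoc, sign_sq hne, mul_one]

/-- heights give the Mandel property of the deletion of the dual -/
theorem mandel_minor (hc : Function.Injective c) (hpos : ∀ e, 0 ≤ c e)
    {τ : Finset (Option (Fin m)) → SignType} {k k' : ℕ}
    (hm : m = (k' + 2) + (k + 2))
    (hU : ∀ B : Finset (Option (Fin m)), B.card = k + 1 + 2 → τ B ≠ 0)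
    (h0 : TauOK c (dualTau c τ) k')
    (h1 : TauOK (fun e => c (some e))
      (fun S : Finset (Fin m) => dualTau c τ (S.map Function.Embedding.some)) k')
    (hh : ∀ f : Fin m, ∃ h, DHeights c τ (k + 1) (some f) none h) :
    (ofTau (inj_some hc) _ h1).Mandel := by
  have hUd : ∀ B : Finset (Option (Fin m)), B.card = k' + 2 → dualTau c τ B ≠ 0 :=
    dualTau_ne (code := c) hc (k := k + 1) (k' := k') (by simp; omega) hU
  refine ⟨ofTau hc _ h0, ?_, ?_, ?_, ?_⟩
  · intro v
    show vs c (some ∘ v) * dualTau c τ (Finset.univ.image (some ∘ v)) =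
      vs (fun e => c (some e)) v * dualTau c τ ((Finset.univ.image v).map Function.Embedding.some)
    have e1 : Finset.univ.image (some ∘ v) =
        (Finset.univ.image v).map Function.Embedding.some := by
      ext t
      simp only [Finset.mem_image, Finset.mem_univ, true_and, Function.comp, Finset.mem_map,
        Function.Embedding.some_apply]
      constructor
      · rintro ⟨i, rfl⟩; exact ⟨v i, ⟨i, rfl⟩, rfl⟩
      · rintro ⟨_, ⟨i, rfl⟩, rfl⟩; exact ⟨i, rfl⟩
    rw [e1]
    rfl
  · intro S hS hcl
    obtain ⟨T, hST, hT⟩ := Finset.exists_superset_card_eq (s := S) (n := k' + 1) (by omega)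
      (by simp; omega)
    obtain ⟨v, hv, himg⟩ := exists_inj_tuple T hT
    have h4 := hcl (some ∘ v) ?_
    · have : (ofTau hc _ h0).χ (vecCons none (some ∘ v)) ≠ 0 := by
        rw [ofTau_ne hc h0 hUd]
        intro i j
        refine Fin.cases ?_ (fun i => ?_) i <;> refine Fin.cases ?_ (fun j => ?_) j
        · intro _; rfl
        · intro h; simp at h
        · intro h; simp at h
        · intro h
          have h' : some (v i) = some (v j) := h
          rw [hv (Option.some.inj h')]
      exact this h4
    · rintro s ⟨t, ht, rfl⟩
      by_contra hne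
      rw [← ne_eq, ofTau_ne hc h0 hUd] at hne
      have ht' : t ∈ Finset.univ.image v := by rw [himg]; exact hST ht
      obtain ⟨i, _, hi⟩ := Finset.mem_image.mp ht'
      have : (0 : Fin (k' + 2)) = i.succ := by
        apply hne
        show some t = some (v i)
        rw [hi]
      exact absurd this.symm (Fin.succ_ne_zero i)
  · intro hcl
    obtain ⟨T, hT⟩ := Finset.exists_subset_card_eq (s := (Finset.univ : Finset (Fin m)))
      (n := k' + 2) (by rw [Finset.card_univ, Fintype.card_fin]; omega)
    obtain ⟨v, hv, -⟩ := exists_inj_tuple T hT.2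
    have h7 := hcl (some ∘ v) (by
      rw [ofTau_ne hc h0 hUd]
      intro i j h
      exact hv (Option.some.inj h))
    obtain ⟨i, hi⟩ := h7
    simp at hi
  · intro f _ _
    obtain ⟨h, hh⟩ := hh f
    exact dual_euclidean hc hpos (k := k + 1) (k' := k') (by simp; omega) hU h0 (some f) none
      (by simp) h hh

/-- The contraction is not Mandel if an element is adjacent to no simplicial region. -/
theorem not_mandel_minor (hc : Function.Injective c)
    {τ : Finset (Option (Fin m)) → SignType} (hm : 5 ≤ m)
    (hU : ∀ B : Finset (Option (Fin m)), B.card = 5 → τ B ≠ 0)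
    (h2 : TauOK (fun e => c (some e))
      (fun S : Finset (Fin m) => τ (insert none (S.map Function.Embedding.some))) 2)
    (e : Fin m)
    (hno : ∀ x y z, e ≠ x → e ≠ y → e ≠ z → x ≠ y → x ≠ z → y ≠ z →
      ¬ ((ofTau (inj_some hc) _ h2).Adj3 e x y z ∧ (ofTau (inj_some hc) _ h2).Adj3 e y z x ∧
        (ofTau (inj_some hc) _ h2).Adj3 e z x y)) :
    ¬ (ofTau (inj_some hc) _ h2).Mandel := by
  intro hM
  have hU2 : (ofTau (inj_some hc) _ h2).Uniform := by
    intro v hv
    rw [ofTau_ne (inj_some hc) h2]
    · exact hv
    · intro B hB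
      exact hU _ (by rw [Finset.card_insert_of_notMem (by simp), Finset.card_map, hB])
  obtain ⟨x, y, z, k1, k2, k3, k4, k5, k6, k7⟩ :=
    Chirotope.adj_of_mandel _ hU2 (by simpa using hm) hM e
  exact hno x y z k1 k2 k3 k4 k5 k6 k7

end main

end g5

end Pool.Agent.H145.Euc
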