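import Pool.Agent.H145.Euc.G5
import Pool.Agent.H145.Euc.Check

/-! Rank five sign tables indexed by bit masks, with certificates. -/

namespace Pool.Agent.H145.Euc

open SignType Matrix

set_option linter.unusedSectionVars false

/-- check of one line in rank five -/
def lineOK5 (N n x y z : ℕ) (L : List (ℕ × Bool)) : Bool :=
  pairAll (fun p q => N.testBit (2 ^ x + 2 ^ y + 2 ^ z + 2 ^ p.1 + 2 ^ q.1) ==
    (decide (p.1 < q.1) == (p.2 == q.2))) L &&
  (List.range n).all (fun w => w == x || w == y || w == z || L.any (fun p => p.1 == w))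

/-- height along a line -/
def val5 (hN : ℕ → ℕ) (B0 : ℕ) (p : ℕ × Bool) : ℕ := hN (B0 + 2 ^ p.1)

/-- check of the heights on a line: the part behind the objective, the value of infinity, the part
before the objective form a monotone sequence -/
def heightOK5 (F off : ℕ) (hN : ℕ → ℕ) (x y z : ℕ) (L : List (ℕ × Bool)) : Bool :=
  match L.dropWhile (fun p => p.1 != F) with
  | [] => false
  | q :: B => q.1 == F &&
    (match ((decide (F < x) == (decide (F < y) == decide (F < z))) == q.2) with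
    | true => chainAll true (B.map (val5 hN (2 ^ x + 2 ^ y + 2 ^ z)) ++
        off :: (L.takeWhile (fun p => p.1 != F)).map (val5 hN (2 ^ x + 2 ^ y + 2 ^ z)))
    | false => chainAll false (B.map (val5 hN (2 ^ x + 2 ^ y + 2 ^ z)) ++
        off :: (L.takeWhile (fun p => p.1 != F)).map (val5 hN (2 ^ x + 2 ^ y + 2 ^ z))))

/-- rank five certificate -/
structure Cert5 (N m : ℕ) (off : ℕ → ℕ) (hN : ℕ → ℕ → ℕ) : Prop where
  fin : ∀ x y z, x < y → y < z → z < m → ∃ L : List (ℕ × Bool),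
    lineOK5 N (m + 1) x y z (L ++ [(m, true)]) = true ∧
    ∀ F, F < m → F ≠ x → F ≠ y → F ≠ z → heightOK5 F (off F) (hN F) x y z L = true
  inf : ∀ x y, x < y → y < m → ∃ L : List (ℕ × Bool), lineOK5 N (m + 1) x y m L = true

noncomputable section

/-- integer codes -/
def zc (m : ℕ) (e : Option (Fin m)) : ℤ := (ocode m e : ℤ)

/-- the sign function of the table -/
def tau5 (N m : ℕ) (B : Finset (Option (Fin m))) : SignType := tau N (maskOf m B)

lemma zc_inj (m : ℕ) : Function.Injective (zc m) := by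
  intro a b h
  apply ocode_inj m
  unfold zc at h
  exact_mod_cast h

lemma zc_pos (m : ℕ) (e : Option (Fin m)) : 0 ≤ zc m e := by
  unfold zc; positivity

lemma zc_last (m : ℕ) (e : Fin m) : zc m (some e) < zc m none := by
  unfold zc ocode
  have := e.isLt
  exact_mod_cast this

lemma sgc_zc (m : ℕ) (a b : Option (Fin m)) : sgc (zc m) a b = sg (ocode m a) (ocode m b) := by
  unfold sgc sg zc
  rcases lt_trichotomy (ocode m a) (ocode m b) with h | h | h
  · rw [if_pos h]
    apply sign_pos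
    omega
  · rw [if_neg (by omega), if_neg (by omega), h]
    simp
  · rw [if_neg (by omega), if_pos h]
    apply sign_neg
    omega

lemma maskOf_insert (m : ℕ) (x : Option (Fin m)) (T : Finset (Option (Fin m))) (h : x ∉ T) :
    maskOf m (insert x T) = 2 ^ ocode m x + maskOf m T := by
  unfold maskOf
  rw [Finset.sum_insert h]

/-- sets of three elements, sorted by code -/
lemma sorted_three (m : ℕ) (Λ : Finset (Option (Fin m))) (h : Λ.card = 3) :
    ∃ x y z, Λ = {x, y, z} ∧ ocode m x < ocode m y ∧ ocode m y < ocode m z := by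
  obtain ⟨a, b, c, hab, hac, hbc, rfl⟩ := Finset.card_eq_three.mp h
  have h1 : ocode m a ≠ ocode m b := fun h => hab (ocode_inj m h)
  have h2 : ocode m a ≠ ocode m c := fun h => hac (ocode_inj m h)
  have h3 : ocode m b ≠ ocode m c := fun h => hbc (ocode_inj m h)
  have p1 : ({a, b, c} : Finset (Option (Fin m))) = {b, a, c} := Finset.insert_comm _ _ _
  have p2 : ({a, b, c} : Finset (Option (Fin m))) = {a, c, b} := by rw [Finset.pair_comm b c]
  have p3 : ({a, b, c} : Finset (Option (Fin m))) = {b, c, a} := by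
    rw [p1, Finset.pair_comm a c]
  have p4 : ({a, b, c} : Finset (Option (Fin m))) = {c, a, b} := by
    rw [p2, Finset.insert_comm a c]
  have p5 : ({a, b, c} : Finset (Option (Fin m))) = {c, b, a} := by
    rw [p4, Finset.pair_comm a b]
  rcases lt_or_gt_of_ne h1 with k1 | k1 <;> rcases lt_or_gt_of_ne h2 with k2 | k2 <;>
    rcases lt_or_gt_of_ne h3 with k3 | k3
  · exact ⟨a, b, c, rfl, k1, k3⟩
  · exact ⟨a, c, b, p2, k2, k3⟩
  · omega
  · exact ⟨c, a, b, p4, k2, k1⟩
  · exact ⟨b, a, c, p1, k1, k2⟩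
  · omega
  · exact ⟨b, c, a, p3, k3, k2⟩
  · exact ⟨c, b, a, p5, k3, k1⟩

/-- the part of the rank two sign that does not come from the codes of the line -/
def P0 (N B0 z w : ℕ) : SignType := sg z w * tau N (B0 + 2 ^ z + 2 ^ w)

lemma P0_neg (N B0 z w : ℕ) : P0 N B0 w z = - P0 N B0 z w := by
  unfold P0
  rw [sg_neg z w, show B0 + 2 ^ w + 2 ^ z = B0 + 2 ^ z + 2 ^ w by ring, neg_mul]

lemma P0_ne (N B0 : ℕ) {z w : ℕ} (h : z ≠ w) : P0 N B0 z w ≠ 0 :=
  mul_ne_zero (sg_ne_zero h) (tau_ne_zero _ _)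

lemma PL_tau5 (N m : ℕ) (Λ : Finset (Option (Fin m))) (a b : Option (Fin m)) (ha : a ∉ Λ)
    (hb : b ∉ Λ) (hab : a ≠ b) : PL (zc m) (tau5 N m) Λ a b =
      sL (zc m) a Λ * sL (zc m) b Λ * P0 N (maskOf m Λ) (ocode m a) (ocode m b) := by
  unfold PL tau5 P0
  rw [maskOf_insert m a _ (by simp [ha, hab]), maskOf_insert m b _ hb, sgc_zc,
    show 2 ^ ocode m a + (2 ^ ocode m b + maskOf m Λ) =
      maskOf m Λ + 2 ^ ocode m a + 2 ^ ocode m b by ring]
  ac_rfl

/-- the relation of two consecutive elements of a checked line -/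
def R5 (N B0 : ℕ) (p q : ℕ × Bool) : Prop :=
  (N.testBit (B0 + 2 ^ p.1 + 2 ^ q.1) == (decide (p.1 < q.1) == (p.2 == q.2))) = true

lemma R5_P0 {N B0 : ℕ} {p q : ℕ × Bool} (h : R5 N B0 p q) (hne : p.1 ≠ q.1) :
    P0 N B0 p.1 q.1 = bs p.2 * bs q.2 := by
  unfold R5 at h
  unfold P0 tau sg bs
  obtain ⟨z, s⟩ := p
  obtain ⟨w, t⟩ := q
  simp only at *
  generalize N.testBit _ = b at *
  rcases lt_or_gt_of_ne hne with h3 | h3
  · simp only [h3, decide_true, if_true] at *
    cases b <;> cases s <;> cases t <;> simp_all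
  · simp only [h3, h3.not_gt, decide_false, if_true, if_false] at *
    cases b <;> cases s <;> cases t <;> simp_all

lemma bs_ne (b : Bool) : bs b ≠ 0 := by unfold bs; split_ifs <;> decide

lemma bs_sq (b : Bool) : bs b * bs b = 1 := sign_sq (bs_ne b)

/-- model of a checked line -/
lemma model5 {N n x y z : ℕ} {L : List (ℕ × Bool)} (h : lineOK5 N n x y z L = true) :
    ∃ (pos : ℕ → ℤ) (ε : ℕ → SignType), ∀ a b, a < n → b < n → a ≠ x → a ≠ y → a ≠ z →
      b ≠ x → b ≠ y → b ≠ z → a ≠ b →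
      P0 N (2 ^ x + 2 ^ y + 2 ^ z) a b = ε a * ε b * SignType.sign (pos b - pos a) := by
  unfold lineOK5 at h
  rw [Bool.and_eq_true] at h
  obtain ⟨h1, h2⟩ := h
  obtain ⟨pos, s, -, hps⟩ := exists_pos' L (pairAll_pairwise _ _ h1)
  have hmem : ∀ a, a < n → a ≠ x → a ≠ y → a ≠ z → ∃ p ∈ L, p.1 = a := by
    intro a ha hax hay haz
    rw [List.all_eq_true] at h2
    have := h2 a (List.mem_range.mpr ha)
    simpa [hax, hay, haz] using this
  refine ⟨fun a => (pos a : ℤ), fun a => bs (s a), ?_⟩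
  intro a b ha hb hax hay haz hbx hby hbz hab
  obtain ⟨k1, k2⟩ := hps a b (hmem a ha hax hay haz) (hmem b hb hbx hby hbz) hab
  obtain ⟨_, k3⟩ := hps b a (hmem b hb hbx hby hbz) (hmem a ha hax hay haz) hab.symm
  rcases lt_or_gt_of_ne k1 with k | k
  · rw [R5_P0 (p := (a, s a)) (q := (b, s b)) (k2 k) hab]
    have : (0 : ℤ) < (pos b : ℤ) - (pos a : ℤ) := by omega
    rw [sign_pos this, mul_one]
  · rw [P0_neg N _ b a, R5_P0 (p := (b, s b)) (q := (a, s a)) (k3 k) hab.symm]
    have : (pos b : ℤ) - (pos a : ℤ) < 0 := by omega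
    rw [sign_neg this]
    have h6 : ∀ a b : SignType, -(a * b) = b * a * -1 := by decide
    exact h6 _ _

lemma Cert5.line {N m : ℕ} {off : ℕ → ℕ} {hN : ℕ → ℕ → ℕ} (h : Cert5 N m off hN) (x y z : ℕ) (hxy : x < y)
    (hyz : y < z) (hz : z < m + 1) : ∃ L, lineOK5 N (m + 1) x y z L = true := by
  by_cases hzm : z = m
  · subst hzm
    exact h.inf x y hxy hyz
  · obtain ⟨L, hL, -⟩ := h.fin x y z hxy hyz (by omega)
    exact ⟨_, hL⟩

lemma tau5_ne (N m : ℕ) (B : Finset (Option (Fin m))) : tau5 N m B ≠ 0 := tau_ne_zero _ _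

/-- a certified table is a rank five oriented matroid -/
theorem tau5_ok {N m : ℕ} {off : ℕ → ℕ} {hN : ℕ → ℕ → ℕ} (hm : 4 ≤ m) (h : Cert5 N m off hN) :
    TauOK (zc m) (tau5 N m) 3 := by
  refine TauOK.of_uniform ?_ (fun B _ => tau5_ne N m B) ?_
  · obtain ⟨B, hB⟩ := Finset.exists_subset_card_eq
      (s := (Finset.univ : Finset (Option (Fin m)))) (n := 3 + 2)
      (by rw [Finset.card_univ]; simp; omega)
    exact ⟨B, hB.2⟩
  · intro Λ hΛ a b c d ha hb hc hd hab hac had hbc hbd hcd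
    obtain ⟨x, y, z, rfl, hxy, hyz⟩ := sorted_three m Λ hΛ
    obtain ⟨L, hL⟩ := h.line _ _ _ hxy hyz (ocode_lt m z)
    obtain ⟨pos, ε, hp⟩ := model5 hL
    have hxy' : x ≠ y := by rintro rfl; omega
    have hyz' : y ≠ z := by rintro rfl; omega
    have hxz' : x ≠ z := by rintro rfl; omega
    have hmask : maskOf m {x, y, z} = 2 ^ ocode m x + 2 ^ ocode m y + 2 ^ ocode m z :=
      maskOf_three m hxy' hxz' hyz'
    have hcode : ∀ a b : Option (Fin m), a ≠ b → ocode m a ≠ ocode m b :=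
      fun a b hab h => hab (ocode_inj m h)
    let v : Option (Fin m) → ℤ × ℤ := fun t => (-(pos (ocode m t)), 1)
    let e : Option (Fin m) → SignType := fun t => sL (zc m) t {x, y, z} * ε (ocode m t)
    let X : Option (Fin m) → Option (Fin m) → Option (Fin m) → Option (Fin m) → SignType :=
      fun a b _ _ => PL (zc m) (tau5 N m) {x, y, z} a b
    have hX : ∀ a b, a ∉ ({x, y, z} : Finset (Option (Fin m))) →
        b ∉ ({x, y, z} : Finset (Option (Fin m))) → a ≠ b →
        X a b none none = e a * e b *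
          SignType.sign ((v a).1 * (v b).2 - (v a).2 * (v b).1) := by
      intro a b ha hb hab
      show PL _ _ _ _ _ = _
      rw [PL_tau5 N m _ a b ha hb hab, hmask]
      simp only [Finset.mem_insert, Finset.mem_singleton, not_or] at ha hb
      rw [hp _ _ (ocode_lt m a) (ocode_lt m b) (hcode _ _ ha.1) (hcode _ _ ha.2.1)
        (hcode _ _ ha.2.2) (hcode _ _ hb.1) (hcode _ _ hb.2.1) (hcode _ _ hb.2.2)
        (hcode _ _ hab)]
      simp only [e, v]
      have e1 : (-(pos (ocode m a)) * 1 - 1 * -(pos (ocode m b))) =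
        pos (ocode m b) - pos (ocode m a) := by ring
      rw [e1]
      ac_rfl
    exact gpat_of_model (X := X) (x := none) (y := none) (a := a) (b := b) (c := c) (d := d)
      v e (hX a b ha hb hab) (hX a c ha hc hac) (hX a d ha hd had) (hX b c hb hc hbc)
      (hX b d hb hd hbd) (hX c d hc hd hcd)

/-- heights of naturals -/
def hZ5 (off : ℕ) (hN : ℕ → ℕ) (B0 z : ℕ) : ℤ :=
  ((hN (B0 + 2 ^ z) : ℤ) - off) * 131072 + ((B0 + 2 ^ z : ℕ) : ℤ)

lemma hZ5_lt {off : ℕ} {hN : ℕ → ℕ} {B0 z w : ℕ} (hz : B0 + 2 ^ z < 131072)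
    (h : hN (B0 + 2 ^ z) < hN (B0 + 2 ^ w)) : hZ5 off hN B0 z < hZ5 off hN B0 w := by
  unfold hZ5
  generalize 2 ^ z = Z at *
  generalize 2 ^ w = W at *
  push_cast
  omega

lemma hZ5_neg {off : ℕ} {hN : ℕ → ℕ} {B0 z : ℕ} (hz : B0 + 2 ^ z < 131072)
    (h : hN (B0 + 2 ^ z) < off) : hZ5 off hN B0 z < 0 := by
  unfold hZ5
  generalize 2 ^ z = Z at *
  push_cast
  omega

lemma hZ5_pos {off : ℕ} {hN : ℕ → ℕ} {B0 z : ℕ}
    (h : off < hN (B0 + 2 ^ z)) : 0 < hZ5 off hN B0 z := by
  unfold hZ5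
  generalize 2 ^ z = Z at *
  push_cast
  omega

lemma heightOK5_split {F off : ℕ} {hN : ℕ → ℕ} {x y z : ℕ} {L : List (ℕ × Bool)}
    (h : heightOK5 F off hN x y z L = true) :
    ∃ (A B : List (ℕ × Bool)) (s b : Bool), L = A ++ (F, s) :: B ∧
      b = ((decide (F < x) == (decide (F < y) == decide (F < z))) == s) ∧
      (B.map (val5 hN (2 ^ x + 2 ^ y + 2 ^ z)) ++
        off :: A.map (val5 hN (2 ^ x + 2 ^ y + 2 ^ z))).Pairwise (cmpB b) := by
  unfold heightOK5 at h
  have hL := List.takeWhile_append_dropWhile (p := fun p : ℕ × Bool => p.1 != F) (l := L)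
  generalize L.dropWhile (fun p => p.1 != F) = D at *
  generalize L.takeWhile (fun p => p.1 != F) = A at *
  match D, h, hL with
  | [], h, _ => simp at h
  | q :: B, h, hL =>
    simp only [Bool.and_eq_true, beq_iff_eq] at h
    obtain ⟨h1, h2⟩ := h
    obtain ⟨q1, s⟩ := q
    simp only at h1 h2
    subst h1
    refine ⟨A, B, s, _, hL.symm, rfl, ?_⟩
    generalize ((decide (q1 < x) == (decide (q1 < y) == decide (q1 < z))) == s) = b at *
    cases b
    · exact chainAll_spec _ _ h2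
    · exact chainAll_spec _ _ h2

lemma dir_aux (u s : Bool) : -bs u * bs s = if (u == s) = true then -1 else 1 := by
  revert u s; decide

lemma pairwise_or {α : Type*} {R : α → α → Prop} {l : List α} (h : l.Pairwise R) {a b : α}
    (ha : a ∈ l) (hb : b ∈ l) (hab : a ≠ b) : R a b ∨ R b a := by
  induction h with
  | nil => simp at ha
  | cons h1 _ ih =>
    rcases List.mem_cons.mp ha with ha' | ha'
    · rcases List.mem_cons.mp hb with hb' | hb'
      · exact absurd (ha'.trans hb'.symm) hab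
      · left; rw [ha']; exact h1 _ hb'
    · rcases List.mem_cons.mp hb with hb' | hb'
      · right; rw [hb']; exact h1 _ ha'
      · exact ih ha' hb'

/-- the height conditions on one line, in terms of naturals -/
lemma line5 {N m F off : ℕ} {hN : ℕ → ℕ} {x y z : ℕ} {L : List (ℕ × Bool)} {C : SignType}
    (hB : ∀ w, w < m → 2 ^ x + 2 ^ y + 2 ^ z + 2 ^ w < 131072)
    (hC : C = - bs (decide (F < x) == (decide (F < y) == decide (F < z))))
    (hline : lineOK5 N (m + 1) x y z (L ++ [(m, true)]) = true)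
    (hF : F < m)
    (hheight : heightOK5 F off hN x y z L = true) :
    (∀ a b, a < m → b < m → a ≠ x → a ≠ y → a ≠ z → b ≠ x → b ≠ y → b ≠ z → a ≠ F → b ≠ F →
      a ≠ b →
      C * P0 N (2 ^ x + 2 ^ y + 2 ^ z) a b * P0 N (2 ^ x + 2 ^ y + 2 ^ z) F m *
        P0 N (2 ^ x + 2 ^ y + 2 ^ z) F a * P0 N (2 ^ x + 2 ^ y + 2 ^ z) F b =
      - SignType.sign (hZ5 off hN (2 ^ x + 2 ^ y + 2 ^ z) a -
        hZ5 off hN (2 ^ x + 2 ^ y + 2 ^ z) b)) ∧
    (∀ a, a < m → a ≠ x → a ≠ y → a ≠ z → a ≠ F →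
      SignType.sign (hZ5 off hN (2 ^ x + 2 ^ y + 2 ^ z) a) =
        C * P0 N (2 ^ x + 2 ^ y + 2 ^ z) m a * P0 N (2 ^ x + 2 ^ y + 2 ^ z) F a) := by
  obtain ⟨A, B, s, b, hL, hb, hchain⟩ := heightOK5_split hheight
  obtain ⟨B0, hB0⟩ : ∃ B0, B0 = 2 ^ x + 2 ^ y + 2 ^ z := ⟨_, rfl⟩
  unfold lineOK5 at hline
  rw [Bool.and_eq_true] at hline
  obtain ⟨hl1, hl2⟩ := hline
  have hR := pairAll_pairwise _ _ hl1
  rw [← hB0] at hR hB hchain ⊢
  have hR' : (L ++ [(m, true)]).Pairwise (R5 N B0) := hR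
  clear hR hl1
  rw [hL] at hR'
  rw [List.pairwise_append] at hR'
  obtain ⟨hR1, -, hR2⟩ := hR'
  rw [List.pairwise_append, List.pairwise_cons] at hR1
  obtain ⟨hAA, ⟨hFB, hBB⟩, hAX⟩ := hR1
  rw [List.pairwise_append, List.pairwise_cons] at hchain
  obtain ⟨cBB, ⟨coA, cAA⟩, cBX⟩ := hchain
  rw [List.pairwise_map] at cBB cAA
  have hmem : ∀ a, a < m → a ≠ x → a ≠ y → a ≠ z → a ≠ F →
      (∃ t, (a, t) ∈ A) ∨ (∃ t, (a, t) ∈ B) := by
    intro a ha hax hay haz haF
    rw [List.all_eq_true] at hl2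
    have h1 := hl2 a (List.mem_range.mpr (by omega))
    have h2 : ∃ p ∈ (L ++ [(m, true)]), p.1 = a := by simpa [hax, hay, haz] using h1
    obtain ⟨⟨a', t⟩, hp, rfl⟩ := h2
    rw [hL] at hp
    simp only [List.mem_append, List.mem_cons, List.not_mem_nil, or_false, Prod.mk.injEq] at hp
    rcases hp with (hp | (hp | hp)) | hp
    · left; exact ⟨t, hp⟩
    · exact absurd hp.1 haF
    · right; exact ⟨t, hp⟩
    · simp only at ha; omega
  -- sign values
  have hFm : P0 N B0 F m = bs s := by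
    have h1 := hR2 (F, s) (by simp) (m, true) (by simp)
    have := R5_P0 h1 (by simp only; omega)
    simp only at this
    rw [this]
    simp [bs]
  have hAm : ∀ a t, a < m → (a, t) ∈ A → P0 N B0 a m = bs t := by
    intro a t ha hat
    have h1 := hR2 (a, t) (by simp [hat]) (m, true) (by simp)
    have := R5_P0 h1 (by simp only; omega)
    simp only at this
    rw [this]
    simp [bs]
  have hBm : ∀ a t, a < m → (a, t) ∈ B → P0 N B0 a m = bs t := by
    intro a t ha hat
    have h1 := hR2 (a, t) (by simp [hat]) (m, true) (by simp)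
    have := R5_P0 h1 (by simp only; omega)
    simp only at this
    rw [this]
    simp [bs]
  have hFA : ∀ a t, a ≠ F → (a, t) ∈ A → P0 N B0 F a = -(bs t * bs s) := by
    intro a t ha hat
    have h1 := hAX (a, t) hat (F, s) (by simp)
    have := R5_P0 h1 (by simp only; exact ha)
    simp only at this
    rw [P0_neg, this]
  have hFB' : ∀ a t, a ≠ F → (a, t) ∈ B → P0 N B0 F a = bs s * bs t := by
    intro a t ha hat
    have h1 := hFB (a, t) hat
    have := R5_P0 h1 (by simp only; exact ha.symm)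
    simp only at this
    exact this
  -- direction
  have hdir : C * bs s = if b = true then -1 else 1 := by
    rw [hC, hb]
    exact dir_aux _ _
  -- comparison of heights
  have hcmp : ∀ a b', a < m → b' < m → cmpB b (hN (B0 + 2 ^ a)) (hN (B0 + 2 ^ b')) →
      SignType.sign (hZ5 off hN B0 a - hZ5 off hN B0 b') = -(C * bs s) := by
    intro a b' ha hb' hc
    rw [hdir]
    by_cases hbb : b = true
    · rw [if_pos hbb]
      rw [hbb] at hc
      have := hZ5_lt (off := off) (hB b' hb') (show hN (B0 + 2 ^ b') < hN (B0 + 2 ^ a) from hc)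
      rw [sign_pos (by omega)]
      rfl
    · rw [if_neg hbb]
      have hbb' : b = false := by simpa using hbb
      rw [hbb'] at hc
      have := hZ5_lt (off := off) (hB a ha) (show hN (B0 + 2 ^ a) < hN (B0 + 2 ^ b') from hc)
      rw [sign_neg (by omega)]
  have hAs : ∀ a t, a < m → (a, t) ∈ A →
      SignType.sign (hZ5 off hN B0 a) = C * bs s := by
    intro a t ha hat
    have h1 : cmpB b off (hN (B0 + 2 ^ a)) := coA _ (List.mem_map.mpr ⟨(a, t), hat, rfl⟩)
    rw [hdir]
    by_cases hbb : b = true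
    · rw [if_pos hbb]
      rw [hbb] at h1
      exact sign_neg (hZ5_neg (hB a ha) (show hN (B0 + 2 ^ a) < off from h1))
    · rw [if_neg hbb]
      have hbb' : b = false := by simpa using hbb
      rw [hbb'] at h1
      exact sign_pos (hZ5_pos (show off < hN (B0 + 2 ^ a) from h1))
  have hBs : ∀ a t, a < m → (a, t) ∈ B →
      SignType.sign (hZ5 off hN B0 a) = -(C * bs s) := by
    intro a t ha hat
    have h1 : cmpB b (hN (B0 + 2 ^ a)) off :=
      cBX _ (List.mem_map.mpr ⟨(a, t), hat, rfl⟩) off (by simp)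
    rw [hdir]
    by_cases hbb : b = true
    · rw [if_pos hbb]
      rw [hbb] at h1
      rw [sign_pos (hZ5_pos (show off < hN (B0 + 2 ^ a) from h1))]
      rfl
    · rw [if_neg hbb]
      have hbb' : b = false := by simpa using hbb
      rw [hbb'] at h1
      exact sign_neg (hZ5_neg (hB a ha) (show hN (B0 + 2 ^ a) < off from h1))
  have hAB : ∀ a t a' t', (a, t) ∈ A → (a', t') ∈ B →
      cmpB b (hN (B0 + 2 ^ a')) (hN (B0 + 2 ^ a)) := by
    intro a t a' t' h1 h2
    exact cBX _ (List.mem_map.mpr ⟨(a', t'), h2, rfl⟩) _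
      (List.mem_cons_of_mem _ (List.mem_map.mpr ⟨(a, t), h1, rfl⟩))
  have hAA2 := hAA.and cAA
  have hBB2 := hBB.and cBB
  -- the statement for a pair in order
  have hpair : ∀ a t a' t', a < m → a' < m → a ≠ F → a' ≠ F → a ≠ a' →
      (((a, t) ∈ A ∧ (a', t') ∈ A ∧ R5 N B0 (a, t) (a', t') ∧
          cmpB b (hN (B0 + 2 ^ a)) (hN (B0 + 2 ^ a'))) ∨
        ((a, t) ∈ B ∧ (a', t') ∈ B ∧ R5 N B0 (a, t) (a', t') ∧
          cmpB b (hN (B0 + 2 ^ a)) (hN (B0 + 2 ^ a'))) ∨
        ((a, t) ∈ A ∧ (a', t') ∈ B)) →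
      C * P0 N B0 a a' * P0 N B0 F m * P0 N B0 F a * P0 N B0 F a' =
        - SignType.sign (hZ5 off hN B0 a - hZ5 off hN B0 a') := by
    intro a t a' t' ha ha' haF haF' haa' hcase
    have hts := bs_ne t
    have hts' := bs_ne t'
    have hss := bs_ne s
    rcases hcase with ⟨h1, h2, h3, h4⟩ | ⟨h1, h2, h3, h4⟩ | ⟨h1, h2⟩
    · have e1 := R5_P0 h3 haa'
      simp only at e1
      rw [e1, hFm, hFA a t haF h1, hFA a' t' haF' h2, hcmp a a' ha ha' h4]
      generalize bs t = p at *
      generalize bs t' = q at *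
      generalize bs s = r at *
      clear e1 hdir hAm hBm hFA hFB' hFm hcmp hAs hBs hC
      revert p q r C; decide
    · have e1 := R5_P0 h3 haa'
      simp only at e1
      rw [e1, hFm, hFB' a t haF h1, hFB' a' t' haF' h2, hcmp a a' ha ha' h4]
      generalize bs t = p at *
      generalize bs t' = q at *
      generalize bs s = r at *
      clear e1 hdir hAm hBm hFA hFB' hFm hcmp hAs hBs hC
      revert p q r C; decide
    · have e0 := hAX (a, t) h1 (a', t') (List.mem_cons_of_mem _ h2)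
      have e1 := R5_P0 e0 haa'
      simp only at e1
      have e2 := hcmp a' a ha' ha (hAB a t a' t' h1 h2)
      have e3 : SignType.sign (hZ5 off hN B0 a - hZ5 off hN B0 a') = C * bs s := by
        rw [show hZ5 off hN B0 a - hZ5 off hN B0 a' =
          -(hZ5 off hN B0 a' - hZ5 off hN B0 a) by ring, Left.sign_neg, e2, neg_neg]
      rw [e1, hFm, hFA a t haF h1, hFB' a' t' haF' h2, e3]
      generalize bs t = p at *
      generalize bs t' = q at *
      generalize bs s = r at *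
      clear e1 e2 e3 hdir hAm hBm hFA hFB' hFm hcmp hAs hBs hC
      revert p q r C; decide
  have hanti : ∀ a a', C * P0 N B0 a a' * P0 N B0 F m * P0 N B0 F a * P0 N B0 F a' =
        - SignType.sign (hZ5 off hN B0 a - hZ5 off hN B0 a') →
      C * P0 N B0 a' a * P0 N B0 F m * P0 N B0 F a' * P0 N B0 F a =
        - SignType.sign (hZ5 off hN B0 a' - hZ5 off hN B0 a) := by
    intro a a' h
    rw [show hZ5 off hN B0 a' - hZ5 off hN B0 a =
      -(hZ5 off hN B0 a - hZ5 off hN B0 a') by ring, Left.sign_neg, ← h, P0_neg N B0 a a']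
    simp only [mul_neg, neg_mul, neg_inj]
    ac_rfl
  constructor
  · intro a a' ha ha' hax hay haz hax' hay' haz' haF haF' haa'
    rcases hmem a ha hax hay haz haF with ⟨t, h1⟩ | ⟨t, h1⟩ <;>
      rcases hmem a' ha' hax' hay' haz' haF' with ⟨t', h2⟩ | ⟨t', h2⟩
    · have h3 : (R5 N B0 (a, t) (a', t') ∧ cmpB b (hN (B0 + 2 ^ a)) (hN (B0 + 2 ^ a'))) ∨
          (R5 N B0 (a', t') (a, t) ∧ cmpB b (hN (B0 + 2 ^ a')) (hN (B0 + 2 ^ a))) :=
        pairwise_or hAA2 h1 h2 (fun h => haa' (congrArg Prod.fst h))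
      rcases h3 with h3 | h3
      · exact hpair a t a' t' ha ha' haF haF' haa' (Or.inl ⟨h1, h2, h3⟩)
      · exact hanti _ _ (hpair a' t' a t ha' ha haF' haF haa'.symm (Or.inl ⟨h2, h1, h3⟩))
    · exact hpair a t a' t' ha ha' haF haF' haa' (Or.inr (Or.inr ⟨h1, h2⟩))
    · exact hanti _ _ (hpair a' t' a t ha' ha haF' haF haa'.symm (Or.inr (Or.inr ⟨h2, h1⟩)))
    · have h3 : (R5 N B0 (a, t) (a', t') ∧ cmpB b (hN (B0 + 2 ^ a)) (hN (B0 + 2 ^ a'))) ∨
          (R5 N B0 (a', t') (a, t) ∧ cmpB b (hN (B0 + 2 ^ a')) (hN (B0 + 2 ^ a))) :=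
        pairwise_or hBB2 h1 h2 (fun h => haa' (congrArg Prod.fst h))
      rcases h3 with h3 | h3
      · exact hpair a t a' t' ha ha' haF haF' haa' (Or.inr (Or.inl ⟨h1, h2, h3⟩))
      · exact hanti _ _ (hpair a' t' a t ha' ha haF' haF haa'.symm (Or.inr (Or.inl ⟨h2, h1, h3⟩)))
  · intro a ha hax hay haz haF
    rw [P0_neg N B0 a m]
    rcases hmem a ha hax hay haz haF with ⟨t, h1⟩ | ⟨t, h1⟩
    · rw [hAs a t ha h1, hAm a t ha h1, hFA a t haF h1]
      have hts := bs_ne t
      generalize bs t = p at *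
      generalize bs s = r at *
      clear hdir hAm hBm hFA hFB' hFm hcmp hAs hBs hC hpair hanti
      revert p r C; decide
    · rw [hBs a t ha h1, hBm a t ha h1, hFB' a t haF h1]
      have hts := bs_ne t
      generalize bs t = p at *
      generalize bs s = r at *
      clear hdir hAm hBm hFA hFB' hFm hcmp hAs hBs hC hpair hanti
      revert p r C; decide

end

end Pool.Agent.H145.Euc
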