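import Pool.Agent.H145.Euc.G6

/-! Conclusions from a rank five certificate. -/

namespace Pool.Agent.H145.Euc

open SignType Matrix

set_option linter.unusedSectionVars false

noncomputable section

lemma pow_bound15 {z : ℕ} (h : z < 15) : 2 ^ z ≤ 16384 := by
  calc 2 ^ z ≤ 2 ^ 14 := Nat.pow_le_pow_right (by norm_num) (by omega)
    _ = 16384 := by norm_num

lemma maskOf_lt' (m : ℕ) (T : Finset (Option (Fin m))) : maskOf m T < 2 ^ (m + 1) := by
  have h1 : maskOf m T = ∑ i ∈ T.image (ocode m), 2 ^ i := by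
    rw [Finset.sum_image (fun a _ b _ h => ocode_inj m h)]
    rfl
  rw [h1]
  apply Nat.geomSum_lt le_rfl
  intro i hi
  obtain ⟨t, _, rfl⟩ := Finset.mem_image.mp hi
  exact ocode_lt m t

/-- the height function on sets -/
def hSet5 (m off : ℕ) (hN : ℕ → ℕ) (T : Finset (Option (Fin m))) : ℤ :=
  ((hN (maskOf m T) : ℤ) - off) * 131072 + ((maskOf m T : ℕ) : ℤ)

lemma sg_bs {a b : ℕ} (h : a ≠ b) : sg a b = bs (decide (a < b)) := by
  unfold sg bs
  rcases lt_or_gt_of_ne h with k | k
  · simp [k]
  · simp [k, k.not_gt]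

theorem dheights5 {N m : ℕ} {off : ℕ → ℕ} {hN : ℕ → ℕ → ℕ} (hm' : m ≤ 15)
    (h : Cert5 N m off hN) (f : Fin m) :
    DHeights (zc m) (tau5 N m) 3 (some f) none (hSet5 m (off f.val) (hN f.val)) := by
  have hcodelt : ∀ e : Option (Fin m), e ≠ none → ocode m e < m := by
    intro e he
    rcases e with _ | e
    · exact absurd rfl he
    · exact e.isLt
  have hcode : ∀ a b : Option (Fin m), a ≠ b → ocode m a ≠ ocode m b :=
    fun a b hab h => hab (ocode_inj m h)
  have hmain : ∀ Λ : Finset (Option (Fin m)), Λ.card = 3 → some f ∉ Λ → none ∉ Λ →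
      ∃ x y z : ℕ, x < y ∧ y < z ∧ z < m ∧ maskOf m Λ = 2 ^ x + 2 ^ y + 2 ^ z ∧
        f.val ≠ x ∧ f.val ≠ y ∧ f.val ≠ z ∧
        (∀ e : Option (Fin m), e ∉ Λ → ocode m e ≠ x ∧ ocode m e ≠ y ∧ ocode m e ≠ z) ∧
        sL (zc m) (some f) Λ * sL (zc m) none Λ =
          - bs (decide (f.val < x) == (decide (f.val < y) == decide (f.val < z))) := by
    intro Λ hΛ hf hg
    obtain ⟨x, y, z, rfl, hxy, hyz⟩ := sorted_three m Λ hΛ
    have hxy' : x ≠ y := by rintro rfl; omega
    have hyz' : y ≠ z := by rintro rfl; omega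
    have hxz' : x ≠ z := by rintro rfl; omega
    simp only [Finset.mem_insert, Finset.mem_singleton, not_or] at hf hg
    obtain ⟨hfx, hfy, hfz⟩ := hf
    obtain ⟨hgx, hgy, hgz⟩ := hg
    have k1 : f.val ≠ ocode m x := hcode (some f) x hfx
    have k2 : f.val ≠ ocode m y := hcode (some f) y hfy
    have k3 : f.val ≠ ocode m z := hcode (some f) z hfz
    refine ⟨ocode m x, ocode m y, ocode m z, hxy, hyz, hcodelt z (Ne.symm hgz),
      maskOf_three m hxy' hxz' hyz', k1, k2, k3, ?_, ?_⟩
    · intro e he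
      simp only [Finset.mem_insert, Finset.mem_singleton, not_or] at he
      exact ⟨hcode _ _ he.1, hcode _ _ he.2.1, hcode _ _ he.2.2⟩
    · have e1 : sL (zc m) (some f) {x, y, z} = sg f.val (ocode m x) * (sg f.val (ocode m y) *
          sg f.val (ocode m z)) := by
        rw [sL_insert _ _ _ (by simp [hxy', hxz']), sL_insert _ _ _ (by simp [hyz'])]
        unfold sL
        rw [Finset.prod_singleton, sgc_zc, sgc_zc, sgc_zc]
        rfl
      have e2 : sL (zc m) none {x, y, z} = -1 := by
        rw [sL_insert _ _ _ (by simp [hxy', hxz']), sL_insert _ _ _ (by simp [hyz'])]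
        unfold sL
        rw [Finset.prod_singleton, sgc_zc, sgc_zc, sgc_zc]
        have e3 : ∀ t : Option (Fin m), none ≠ t → sg (ocode m none) (ocode m t) = -1 := by
          intro t ht
          have := hcodelt t (Ne.symm ht)
          unfold sg
          have e4 : ocode m none = m := rfl
          rw [e4, if_neg (by omega), if_pos this]
        rw [e3 x hgx, e3 y hgy, e3 z hgz]
        decide
      rw [e1, e2, sg_bs k1, sg_bs k2, sg_bs k3]
      generalize decide (f.val < ocode m x) = p
      generalize decide (f.val < ocode m y) = q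
      generalize decide (f.val < ocode m z) = r
      revert p q r; decide
  constructor
  · intro Λ hΛ hf hg z w hz hw hzw hzf hzg hwf hwg
    obtain ⟨x, y, t, hxy, hyt, htm, hmask, kx, ky, kt, hout, hC⟩ := hmain Λ hΛ hf hg
    obtain ⟨L, hL1, hL2⟩ := h.fin x y t hxy hyt htm
    have hB : ∀ w, w < m → 2 ^ x + 2 ^ y + 2 ^ t + 2 ^ w < 131072 := by
      intro w hw
      have b1 := pow_bound15 (show x < 15 by omega)
      have b2 := pow_bound15 (show y < 15 by omega)
      have b3 := pow_bound15 (show t < 15 by omega)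
      have b4 := pow_bound15 (show w < 15 by omega)
      omega
    obtain ⟨k1, -⟩ := line5 hB hC hL1 f.isLt (hL2 f.val f.isLt kx ky kt)
    have hz' := hout z hz
    have hw' := hout w hw
    have hfw' : (some f) ≠ w := Ne.symm hwf
    have hfz' : (some f) ≠ z := Ne.symm hzf
    have k2 := k1 (ocode m z) (ocode m w) (hcodelt z hzg) (hcodelt w hwg) hz'.1 hz'.2.1 hz'.2.2
      hw'.1 hw'.2.1 hw'.2.2 (hcode z (some f) hzf) (hcode w (some f) hwf) (hcode z w hzw)
    have hs1 : hSet5 m (off f.val) (hN f.val) (insert z Λ) =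
        hZ5 (off f.val) (hN f.val) (2 ^ x + 2 ^ y + 2 ^ t) (ocode m z) := by
      unfold hSet5 hZ5
      rw [maskOf_insert m z Λ hz, hmask, add_comm (2 ^ ocode m z)]
    have hs2 : hSet5 m (off f.val) (hN f.val) (insert w Λ) =
        hZ5 (off f.val) (hN f.val) (2 ^ x + 2 ^ y + 2 ^ t) (ocode m w) := by
      unfold hSet5 hZ5
      rw [maskOf_insert m w Λ hw, hmask, add_comm (2 ^ ocode m w)]
    rw [hs1, hs2, ← k2, PL_tau5 N m Λ z w hz hw hzw, PL_tau5 N m Λ (some f) none hf hg (by simp),
      PL_tau5 N m Λ (some f) z hf hz hfz', PL_tau5 N m Λ (some f) w hf hw hfw', hmask]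
    have r1 := sign_sq (sL_ne (zc_inj m) hz)
    have r2 := sign_sq (sL_ne (zc_inj m) hw)
    have r3 := sign_sq (sL_ne (zc_inj m) hf)
    symm
    refine (mul_sq3 _ _ _ _ r1 r2 r3).trans ?_
    show _ = sL (zc m) z Λ * sL (zc m) w Λ * P0 N (2 ^ x + 2 ^ y + 2 ^ t) (ocode m z) (ocode m w) *
      (sL (zc m) (some f) Λ * sL (zc m) none Λ * P0 N (2 ^ x + 2 ^ y + 2 ^ t) f.val m) *
      (sL (zc m) (some f) Λ * sL (zc m) z Λ * P0 N (2 ^ x + 2 ^ y + 2 ^ t) f.val (ocode m z)) *
      (sL (zc m) (some f) Λ * sL (zc m) w Λ * P0 N (2 ^ x + 2 ^ y + 2 ^ t) f.val (ocode m w))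
    ac_rfl
  · intro Λ hΛ hf hg z hz hzf hzg
    obtain ⟨x, y, t, hxy, hyt, htm, hmask, kx, ky, kt, hout, hC⟩ := hmain Λ hΛ hf hg
    obtain ⟨L, hL1, hL2⟩ := h.fin x y t hxy hyt htm
    have hB : ∀ w, w < m → 2 ^ x + 2 ^ y + 2 ^ t + 2 ^ w < 131072 := by
      intro w hw
      have b1 := pow_bound15 (show x < 15 by omega)
      have b2 := pow_bound15 (show y < 15 by omega)
      have b3 := pow_bound15 (show t < 15 by omega)
      have b4 := pow_bound15 (show w < 15 by omega)
      omega
    obtain ⟨-, k1⟩ := line5 hB hC hL1 f.isLt (hL2 f.val f.isLt kx ky kt)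
    have hz' := hout z hz
    have hfz' : (some f) ≠ z := Ne.symm hzf
    have hgz' : none ≠ z := Ne.symm hzg
    have k2 := k1 (ocode m z) (hcodelt z hzg) hz'.1 hz'.2.1 hz'.2.2 (hcode z (some f) hzf)
    have hs1 : hSet5 m (off f.val) (hN f.val) (insert z Λ) =
        hZ5 (off f.val) (hN f.val) (2 ^ x + 2 ^ y + 2 ^ t) (ocode m z) := by
      unfold hSet5 hZ5
      rw [maskOf_insert m z Λ hz, hmask, add_comm (2 ^ ocode m z)]
    rw [hs1, k2, PL_tau5 N m Λ none z hg hz hgz', PL_tau5 N m Λ (some f) z hf hz hfz', hmask]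
    have r1 := sign_sq (sL_ne (zc_inj m) hz)
    refine (mul_sq3 _ _ _ _ r1 (one_mul 1) (one_mul 1)).trans ?_
    rw [one_mul, mul_one, mul_one]
    show _ = sL (zc m) none Λ * sL (zc m) z Λ * P0 N (2 ^ x + 2 ^ y + 2 ^ t) m (ocode m z) *
      (sL (zc m) (some f) Λ * sL (zc m) z Λ * P0 N (2 ^ x + 2 ^ y + 2 ^ t) f.val (ocode m z))
    ac_rfl
  · intro T T' hT hT' _ _ _ _ he
    unfold hSet5 at he
    have b1 := maskOf_lt' m T
    have b2 := maskOf_lt' m T'
    have b3 : 2 ^ (m + 1) ≤ 65536 := by
      calc 2 ^ (m + 1) ≤ 2 ^ 16 := Nat.pow_le_pow_right (by norm_num) (by omega)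
        _ = 65536 := by norm_num
    apply maskOf_inj m
    omega

/-- the product of two signs on a line through infinity -/
def qB (N B e z w : ℕ) : Bool :=
  ((decide (e < w) == N.testBit (B + 2 ^ e + 2 ^ w)) ==
    (decide (z < w) == N.testBit (B + 2 ^ z + 2 ^ w)))

end

/-- two further elements are separated on the line `x, y` -/
def lineBad (N m e x y z : ℕ) : Bool :=
  (List.range m).any (fun w => w != e && w != x && w != y && w != z &&
    qB N (2 ^ x + 2 ^ y + 2 ^ m) e z w) &&
  (List.range m).any (fun w => w != e && w != x && w != y && w != z &&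
    !qB N (2 ^ x + 2 ^ y + 2 ^ m) e z w)

/-- no simplicial region is adjacent to `e` -/
def noAdj (N m e : ℕ) : Bool :=
  (List.range m).all (fun x => (List.range m).all (fun y => (List.range m).all (fun z =>
    x == e || y == e || z == e || x == y || x == z || y == z ||
      lineBad N m e x y z || lineBad N m e y z x || lineBad N m e z x y)))

noncomputable section

lemma qB_spec (N B : ℕ) {e z w : ℕ} (h1 : e ≠ w) (h2 : z ≠ w) :
    bs (qB N B e z w) = P0 N B e w * P0 N B z w := by
  unfold qB P0 tau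
  rw [sg_bs h1, sg_bs h2]
  generalize N.testBit (B + 2 ^ e + 2 ^ w) = p
  generalize N.testBit (B + 2 ^ z + 2 ^ w) = q
  generalize decide (e < w) = r
  generalize decide (z < w) = s
  cases p <;> cases q <;> cases r <;> cases s <;> simp [bs]

lemma ofTau_X {E : Type*} [DecidableEq E] {code : E → ℤ} (hc : Function.Injective code)
    {τ : Finset E → SignType} (h : TauOK code τ 2) (a b x y : E) :
    (ofTau hc τ h).X a b x y = vs code ![x, y] * PL code τ {x, y} a b := by
  show chi code τ (vecCons a (vecCons b ![x, y])) = _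
  rw [chi_cons2 hc]
  have himg : Finset.univ.image ![x, y] = {x, y} := by
    ext t
    simp only [Finset.mem_image, Finset.mem_univ, true_and, Finset.mem_insert,
      Finset.mem_singleton]
    constructor
    · rintro ⟨i, rfl⟩
      fin_cases i <;> simp
    · rintro (h | h)
      · exact ⟨0, h.symm⟩
      · exact ⟨1, h.symm⟩
  rw [himg]

lemma Adj3_P0 {N m : ℕ}
    (h2 : TauOK (fun e : Fin m => zc m (some e))
      (fun S : Finset (Fin m) => tau5 N m (insert none (S.map Function.Embedding.some))) 2)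
    {e x y z : Fin m} (hex : e ≠ x) (hey : e ≠ y) (_hez : e ≠ z) (hxy : x ≠ y) (hxz : x ≠ z)
    (hyz : y ≠ z)
    (hA : (ofTau (inj_some (zc_inj m)) _ h2).Adj3 e x y z) :
    lineBad N m e x y z = false := by
  obtain ⟨B, hB⟩ : ∃ B : ℕ, B = 2 ^ x.val + 2 ^ y.val + 2 ^ m := ⟨_, rfl⟩
  -- products of signs
  have hval : ∀ w : Fin m, w ≠ e → w ≠ x → w ≠ y → w ≠ z →
      (ofTau (inj_some (zc_inj m)) _ h2).X e w x y *
        (ofTau (inj_some (zc_inj m)) _ h2).X z w x y =
      (sL (fun e : Fin m => zc m (some e)) e {x, y} * sL (fun e : Fin m => zc m (some e)) z {x, y}) *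
        bs (qB N B e z w) := by
    intro w hwe hwx hwy hwz
    have hval2 : ∀ a : Fin m, a ≠ w → a ≠ x → a ≠ y →
        (ofTau (inj_some (zc_inj m)) _ h2).X a w x y =
        vs (fun e : Fin m => zc m (some e)) ![x, y] *
          (sL (fun e : Fin m => zc m (some e)) a {x, y} *
            sL (fun e : Fin m => zc m (some e)) w {x, y} * P0 N B a w) := by
      intro a haw hax hay
      rw [ofTau_X]
      congr 1
      unfold PL P0
      have hmask : maskOf m (insert none ((insert a (insert w ({x, y} : Finset (Fin m)))).map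
          Function.Embedding.some)) = B + 2 ^ a.val + 2 ^ w.val := by
        have e1 : insert none ((insert a (insert w ({x, y} : Finset (Fin m)))).map
            Function.Embedding.some) = {none, some a, some w, some x, some y} := by
          ext t
          rcases t with _ | t
          · simp
          · simp
        rw [e1, maskOf_insert m none _ (by simp), maskOf_insert m (some a) _ (by
          simp [haw, hax, hay]), maskOf_three m (by simpa using hwx) (by simpa using hwy)
          (by simpa using hxy), hB]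
        simp only [ocode]
        ring
      show sgc (zc m) (some a) (some w) * _ * _ * tau N (maskOf m _) = _
      rw [hmask, sgc_zc]
      simp only [ocode]
      ac_rfl
    rw [hval2 e hwe.symm hex hey, hval2 z hwz.symm hxz.symm hyz.symm,
      qB_spec N B (fun h => hwe (Fin.ext h.symm)) (fun h => hwz (Fin.ext h.symm))]
    have r1 : vs (fun e : Fin m => zc m (some e)) ![x, y] *
        vs (fun e : Fin m => zc m (some e)) ![x, y] = 1 := by
      apply sign_sq
      rw [vs_ne (inj_some (zc_inj m))]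
      intro i j hij
      fin_cases i <;> fin_cases j
      · rfl
      · exact absurd hij hxy
      · exact absurd hij.symm hxy
      · rfl
    have r2 : sL (fun e : Fin m => zc m (some e)) w {x, y} *
        sL (fun e : Fin m => zc m (some e)) w {x, y} = 1 := by
      apply sign_sq
      exact sL_ne (inj_some (zc_inj m)) (by simp [hwx, hwy])
    symm
    refine (mul_sq3 _ _ _ _ r1 r2 (one_mul 1)).trans ?_
    rw [one_mul, mul_one]
    ac_rfl
  by_contra hbad
  have hbad' : lineBad N m e x y z = true := by simpa using hbad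
  unfold lineBad at hbad'
  rw [Bool.and_eq_true, List.any_eq_true, List.any_eq_true] at hbad'
  obtain ⟨⟨w, hw, hw'⟩, ⟨v, hv, hv'⟩⟩ := hbad'
  rw [← hB] at hw' hv'
  simp only [Bool.and_eq_true, bne_iff_ne, Bool.not_eq_true'] at hw' hv'
  obtain ⟨⟨⟨⟨w1, w2⟩, w3⟩, w4⟩, w5⟩ := hw'
  obtain ⟨⟨⟨⟨v1, v2⟩, v3⟩, v4⟩, v5⟩ := hv'
  have hwm := List.mem_range.mp hw
  have hvm := List.mem_range.mp hv
  have e1 := hval ⟨w, hwm⟩ (fun h => w1 (congrArg Fin.val h)) (fun h => w2 (congrArg Fin.val h))
    (fun h => w3 (congrArg Fin.val h)) (fun h => w4 (congrArg Fin.val h))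
  have e2 := hval ⟨v, hvm⟩ (fun h => v1 (congrArg Fin.val h)) (fun h => v2 (congrArg Fin.val h))
    (fun h => v3 (congrArg Fin.val h)) (fun h => v4 (congrArg Fin.val h))
  have e3 := hA ⟨w, hwm⟩ ⟨v, hvm⟩ (fun h => w1 (congrArg Fin.val h))
    (fun h => w2 (congrArg Fin.val h)) (fun h => w3 (congrArg Fin.val h))
    (fun h => w4 (congrArg Fin.val h)) (fun h => v1 (congrArg Fin.val h))
    (fun h => v2 (congrArg Fin.val h)) (fun h => v3 (congrArg Fin.val h))
    (fun h => v4 (congrArg Fin.val h))
  rw [e1, e2] at e3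
  simp only at e3
  rw [w5, v5] at e3
  have k1 : sL (fun e : Fin m => zc m (some e)) e {x, y} *
      sL (fun e : Fin m => zc m (some e)) z {x, y} ≠ 0 :=
    mul_ne_zero (sL_ne (inj_some (zc_inj m)) (by simp [hex, hey]))
      (sL_ne (inj_some (zc_inj m)) (by simp [hxz.symm, hyz.symm]))
  generalize sL (fun e : Fin m => zc m (some e)) e {x, y} *
      sL (fun e : Fin m => zc m (some e)) z {x, y} = k at *
  have r : ∀ k : SignType, k ≠ 0 → k * bs true ≠ k * bs false := by decide
  exact r k k1 e3

lemma not_adj_of_check {N m : ℕ}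
    (h2 : TauOK (fun e : Fin m => zc m (some e))
      (fun S : Finset (Fin m) => tau5 N m (insert none (S.map Function.Embedding.some))) 2)
    (e : Fin m) (h : noAdj N m e = true) (x y z : Fin m) (hex : e ≠ x) (hey : e ≠ y) (hez : e ≠ z)
    (hxy : x ≠ y) (hxz : x ≠ z) (hyz : y ≠ z) :
    ¬ ((ofTau (inj_some (zc_inj m)) _ h2).Adj3 e x y z ∧
      (ofTau (inj_some (zc_inj m)) _ h2).Adj3 e y z x ∧
      (ofTau (inj_some (zc_inj m)) _ h2).Adj3 e z x y) := by
  rintro ⟨a1, a2, a3⟩
  have b1 := Adj3_P0 h2 hex hey hez hxy hxz hyz a1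
  have b2 := Adj3_P0 h2 hey hez hex hyz hxy.symm hxz.symm a2
  have b3 := Adj3_P0 h2 hez hex hey hxz.symm hyz.symm hxy a3
  unfold noAdj at h
  rw [List.all_eq_true] at h
  have h3 := h x.val (List.mem_range.mpr x.isLt)
  rw [List.all_eq_true] at h3
  have h4 := h3 y.val (List.mem_range.mpr y.isLt)
  rw [List.all_eq_true] at h4
  have h5 := h4 z.val (List.mem_range.mpr z.isLt)
  rw [b1, b2, b3] at h5
  simp only [Bool.or_false, Bool.or_eq_true, beq_iff_eq] at h5
  rcases h5 with ((((h5 | h5) | h5) | h5) | h5) | h5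
  · exact hex (Fin.ext h5.symm)
  · exact hey (Fin.ext h5.symm)
  · exact hez (Fin.ext h5.symm)
  · exact hxy (Fin.ext h5)
  · exact hxz (Fin.ext h5)
  · exact hyz (Fin.ext h5)

/-- A certified rank five table without simplicial region adjacent to `e` at infinity yields a
Mandel oriented matroid whose dual is not Mandel. -/
theorem mandel_not_dual {N m k' : ℕ} {off : ℕ → ℕ} {hN : ℕ → ℕ → ℕ} (hm : m = (k' + 2) + (2 + 2))
    (hm' : m ≤ 15) (h : Cert5 N m off hN) (e : Fin m) (hno : noAdj N m e = true) :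
    ∃ (M : Chirotope (Fin m) k') (M' : Chirotope (Fin m) 2),
      M.Uniform ∧ M'.Uniform ∧ M.IsDual M' ∧ M.Mandel ∧ ¬ M'.Mandel := by
  have hc := zc_inj m
  have hτ : TauOK (zc m) (tau5 N m) 3 := tau5_ok (by omega) h
  have hU : ∀ B : Finset (Option (Fin m)), B.card = 2 + 1 + 2 → tau5 N m B ≠ 0 :=
    fun B _ => tau5_ne N m B
  have hE : Fintype.card (Option (Fin m)) = (3 + 2) + (k' + 2) := by
    rw [Fintype.card_option, Fintype.card_fin]; omega
  have hUd : ∀ B : Finset (Option (Fin m)), B.card = k' + 2 →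
      dualTau (zc m) (tau5 N m) B ≠ 0 := dualTau_ne hc hE hU
  have h0 : TauOK (zc m) (dualTau (zc m) (tau5 N m)) k' := dualTau_ok hc hE hU hτ
  have h1 := del_ok (c := zc m) (k := k') (by rw [Fintype.card_fin]; omega) hUd h0
  have h2 := con_ok (c := zc m) (k := 2) (zc_last m) (by rw [Fintype.card_fin]; omega) hU hτ
  refine ⟨ofTau (inj_some hc) _ h1, ofTau (inj_some hc) _ h2, ?_, ?_, ?_, ?_, ?_⟩
  · intro v hv
    rw [ofTau_ne (inj_some hc) h1]
    · exact hv
    · intro B hB
      exact hUd _ (by rw [Finset.card_map, hB])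
  · intro v hv
    rw [ofTau_ne (inj_some hc) h2]
    · exact hv
    · intro B hB
      exact tau5_ne N m _
  · exact isDual_minors hc (zc_last m) (fun i j hij => by
      unfold zc ocode
      exact_mod_cast hij) hm hU h1 h2
  · exact mandel_minor hc (zc_pos m) hm hU h0 h1 (fun f => ⟨_, dheights5 hm' h f⟩)
  · exact not_mandel_minor hc (by omega) hU h2 e
      (fun x y z k1 k2 k3 k4 k5 k6 => not_adj_of_check h2 e hno x y z k1 k2 k3 k4 k5 k6)

/-- a line of the rank five certificate -/
structure LineData5 where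
  /-- first element -/
  x : ℕ
  /-- second element -/
  y : ℕ
  /-- third element -/
  z : ℕ
  /-- the line with signs -/
  l : List (ℕ × Bool)

end

/-- check of a finite line with all its heights -/
def finLineOK5 (N m : ℕ) (offs : List ℕ) (ht : List ℕ) (p : ℕ) (d : LineData5) : Bool :=
  lineOK5 N (m + 1) d.x d.y d.z (d.l ++ [(m, true)]) &&
    (List.range m).all (fun F => F == d.x || F == d.y || F == d.z ||
      heightOK5 F (offs.getD F 0) (hLook ht p F) d.x d.y d.z d.l)

/-- all triples are covered -/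
def covers5 (m : ℕ) (ls : List LineData5) : Bool :=
  (List.range m).all (fun x => (List.range m).all (fun y => (List.range m).all (fun z =>
    !(Nat.blt x y && Nat.blt y z) || ls.any (fun d => d.x == x && d.y == y && d.z == z))))

/-- all lines through infinity -/
def infOK5 (N m : ℕ) (ls : List LineData5) : Bool :=
  (List.range m).all (fun x => (List.range m).all (fun y =>
    !(Nat.blt x y) || ls.any (fun d => d.x == x && d.y == y && lineOK5 N (m + 1) x y m d.l)))

lemma cert5_of_check (N m : ℕ) (offs : List ℕ) (ht : List ℕ) (p : ℕ) (lf li : List LineData5)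
    (h1 : lf.all (finLineOK5 N m offs ht p) = true) (h2 : covers5 m lf = true)
    (h3 : infOK5 N m li = true) : Cert5 N m (fun F => offs.getD F 0) (hLook ht p) := by
  constructor
  · intro x y z hxy hyz hz
    unfold covers5 at h2
    rw [List.all_eq_true] at h2
    have h4 := h2 x (List.mem_range.mpr (by omega))
    rw [List.all_eq_true] at h4
    have h5 := h4 y (List.mem_range.mpr (by omega))
    rw [List.all_eq_true] at h5
    have h6 := h5 z (List.mem_range.mpr hz)
    have hxy' : Nat.blt x y = true := by simpa using hxy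
    have hyz' : Nat.blt y z = true := by simpa using hyz
    simp only [hxy', hyz', Bool.and_self, Bool.not_true, Bool.false_or, List.any_eq_true,
      Bool.and_eq_true, beq_iff_eq] at h6
    obtain ⟨d, hd, ⟨rfl, rfl⟩, rfl⟩ := h6
    rw [List.all_eq_true] at h1
    have h7 := h1 d hd
    unfold finLineOK5 at h7
    rw [Bool.and_eq_true] at h7
    obtain ⟨h8, h9⟩ := h7
    refine ⟨d.l, h8, ?_⟩
    intro F hF hFx hFy hFz
    rw [List.all_eq_true] at h9
    have h10 := h9 F (List.mem_range.mpr hF)
    simpa only [Bool.or_eq_true, beq_iff_eq, hFx, hFy, hFz, false_or] using h10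
  · intro x y hxy hy
    unfold infOK5 at h3
    rw [List.all_eq_true] at h3
    have h4 := h3 x (List.mem_range.mpr (by omega))
    rw [List.all_eq_true] at h4
    have h5 := h4 y (List.mem_range.mpr hy)
    have hxy' : Nat.blt x y = true := by simpa using hxy
    simp only [hxy', Bool.not_true, Bool.false_or, List.any_eq_true, Bool.and_eq_true,
      beq_iff_eq] at h5
    obtain ⟨d, _, _, h5⟩ := h5
    exact ⟨d.l, h5⟩

end Pool.Agent.H145.Euc
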