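import Pool.Agent.H145.Euc.Table

namespace Pool.Agent.H145.Euc

open SignType

lemma exists_pos' {R : (ℕ × Bool) → (ℕ × Bool) → Prop} (L : List (ℕ × Bool))
    (h : L.Pairwise R) :
    ∃ (pos : ℕ → ℕ) (s : ℕ → Bool), (∀ z, (∃ p ∈ L, p.1 = z) → (z, s z) ∈ L) ∧
      ∀ z w, (∃ p ∈ L, p.1 = z) → (∃ p ∈ L, p.1 = w) → z ≠ w →
      pos z ≠ pos w ∧ (pos z < pos w → R (z, s z) (w, s w)) := by
  classical
  let pos : ℕ → ℕ := fun z => L.findIdx (fun p => p.1 == z)
  let s : ℕ → Bool := fun z => (L.getD (pos z) (0, true)).2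
  have hpos : ∀ z, (∃ p ∈ L, p.1 = z) → ∃ h : pos z < L.length, L[pos z] = (z, s z) := by
    intro z hz
    have h1 : pos z < L.length := by
      apply List.findIdx_lt_length_of_exists
      obtain ⟨p, hp, hpz⟩ := hz
      exact ⟨p, hp, by simp [hpz]⟩
    refine ⟨h1, ?_⟩
    have h2 : (fun p : ℕ × Bool => p.1 == z) L[pos z] = true := List.findIdx_getElem (w := h1)
    have h3 : L[pos z].1 = z := by simpa using h2
    have h4 : L[pos z].2 = s z := by
      simp only [s]
      rw [List.getD_eq_getElem _ _ h1]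
    exact Prod.ext h3 h4
  refine ⟨pos, s, ?_, ?_⟩
  · intro z hz
    obtain ⟨h1, h2⟩ := hpos z hz
    rw [← h2]
    exact List.getElem_mem h1
  intro z w hz hw hzw
  obtain ⟨h1, h2⟩ := hpos z hz
  obtain ⟨h3, h4⟩ := hpos w hw
  constructor
  · intro he
    apply hzw
    have h5 : L[pos z] = L[pos w] := by
      simp only [he]
    rw [h2, h4] at h5
    exact congrArg Prod.fst h5
  · intro hlt
    have := (List.pairwise_iff_getElem.mp h) (pos z) (pos w) h1 h3 hlt
    rw [h2, h4] at this
    exact this

/-- strict monotonicity check (decreasing if `b`, increasing otherwise) -/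
def chainFrom (b : Bool) : ℕ → List ℕ → Bool
  | _, [] => true
  | a, c :: l => (match b with | true => Nat.blt c a | false => Nat.blt a c) && chainFrom b c l

/-- strict monotonicity check -/
def chainAll (b : Bool) : List ℕ → Bool
  | [] => true
  | a :: l => chainFrom b a l

/-- comparison in the direction `b` -/
def cmpB (b : Bool) (a c : ℕ) : Prop := match b with | true => c < a | false => a < c

lemma cmpB_trans {b : Bool} {x y z : ℕ} (h1 : cmpB b x y) (h2 : cmpB b y z) : cmpB b x z := by
  cases b
  · exact lt_trans (a := x) (b := y) (c := z) h1 h2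
  · exact lt_trans (a := z) (b := y) (c := x) h2 h1

lemma chainFrom_spec (b : Bool) (a : ℕ) (l : List ℕ) (h : chainFrom b a l = true) :
    (∀ c ∈ l, cmpB b a c) ∧ l.Pairwise (cmpB b) := by
  induction l generalizing a with
  | nil => exact ⟨by simp, List.Pairwise.nil⟩
  | cons c l ih =>
    simp only [chainFrom, Bool.and_eq_true] at h
    obtain ⟨h1, h2⟩ := h
    obtain ⟨h3, h4⟩ := ih c h2
    have h5 : cmpB b a c := by
      cases b
      · simpa [cmpB] using h1
      · simpa [cmpB] using h1
    refine ⟨?_, List.Pairwise.cons h3 h4⟩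
    intro d hd
    rcases List.mem_cons.mp hd with rfl | hd
    · exact h5
    · exact cmpB_trans h5 (h3 d hd)

lemma chainAll_spec (b : Bool) (l : List ℕ) (h : chainAll b l = true) :
    l.Pairwise (cmpB b) := by
  cases l with
  | nil => exact List.Pairwise.nil
  | cons a l =>
    obtain ⟨h1, h2⟩ := chainFrom_spec b a l h
    exact List.Pairwise.cons h1 h2

/-- value used along a line -/
def lineVal (F off : ℕ) (hN : ℕ → ℕ) (x y : ℕ) (p : ℕ × Bool) : ℕ :=
  if p.1 == F then off else hN (2 ^ x + 2 ^ y + 2 ^ p.1)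

/-- check of the heights on one line (the last element `G` of the line is omitted) -/
def heightLineOK (F off : ℕ) (hN : ℕ → ℕ) (x y : ℕ) (L : List (ℕ × Bool)) (b : Bool) : Bool :=
  L.all (fun p => !(p.1 == F) || (b == ((decide (F < x) == decide (F < y)) == p.2))) &&
    chainAll b (L.map (lineVal F off hN x y))

/-- the direction of the line -/
def lineDir (F x y : ℕ) : List (ℕ × Bool) → Bool
  | [] => true
  | p :: l => match (p.1 == F) with
    | true => ((decide (F < x) == decide (F < y)) == p.2)
    | false => lineDir F x y l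

/-- integer heights with ties broken by the mask -/
def hZ (F off : ℕ) (hN : ℕ → ℕ) (x y z : ℕ) : ℤ :=
  if z = F then 0 else ((hN (2 ^ x + 2 ^ y + 2 ^ z) : ℤ) - off) * 131072 +
    ((2 ^ x + 2 ^ y + 2 ^ z : ℕ) : ℤ)

lemma pow_bound {z n : ℕ} (h : z < n) (hn : n ≤ 16) : 2 ^ z ≤ 32768 := by
  calc 2 ^ z ≤ 2 ^ 15 := Nat.pow_le_pow_right (by norm_num) (by omega)
    _ = 32768 := by norm_num

lemma hZ_lt {F off : ℕ} {hN : ℕ → ℕ} {x y z w n : ℕ} (hn : n ≤ 16) (hx : x < n) (hy : y < n)
    (hz : z < n) (hw : w < n) (s t : Bool) (hzw : z ≠ w)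
    (h : lineVal F off hN x y (z, s) < lineVal F off hN x y (w, t)) :
    hZ F off hN x y z < hZ F off hN x y w := by
  unfold lineVal at h
  unfold hZ
  have bx := pow_bound hx hn
  have b_y := pow_bound hy hn
  have bz := pow_bound hz hn
  have bw := pow_bound hw hn
  generalize (2 ^ x) = X at *
  generalize (2 ^ y) = Y at *
  generalize (2 ^ z) = Z at *
  generalize (2 ^ w) = W at *
  by_cases h1 : z = F
  · have h2 : ¬ w = F := fun h2 => hzw (h1.trans h2.symm)
    simp only [h1, h2, beq_self_eq_true, if_true, beq_iff_eq, if_false] at h ⊢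
    push_cast
    omega
  · by_cases h2 : w = F
    · simp only [h1, h2, beq_self_eq_true, if_true, beq_iff_eq, if_false] at h ⊢
      push_cast
      omega
    · simp only [h1, h2, beq_iff_eq, if_false] at h ⊢
      push_cast
      omega

/-- the combined certificate of a line for one objective `F` and infinity `G = n - 1` -/
lemma line_heights {N n F off : ℕ} {hN : ℕ → ℕ} {x y : ℕ} {L : List (ℕ × Bool)} {b : Bool}
    (hn : n ≤ 16) (hxy : x < y) (hyG : y + 1 < n) (hFG : F + 1 < n) (hFx : F ≠ x) (hFy : F ≠ y)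
    (hall : L.all (fun p => p.1 + 1 < n) = true)
    (h1 : lineOK N n x y (L ++ [(n - 1, true)]) = true)
    (h2 : heightLineOK F off hN x y L b = true) (z w : ℕ) (hz : z + 1 < n) (hw : w + 1 < n)
    (hzx : z ≠ x) (hzy : z ≠ y) (hwx : w ≠ x) (hwy : w ≠ y) (hzw : z ≠ w) :
    Xn N z w x y = Xn N F (n - 1) x y * Xn N (n - 1) z x y * Xn N (n - 1) w x y *
      SignType.sign (hZ F off hN x y z - hZ F off hN x y w) := by
  unfold lineOK at h1
  rw [Bool.and_eq_true] at h1
  obtain ⟨h1a, h1b⟩ := h1
  unfold heightLineOK at h2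
  rw [Bool.and_eq_true] at h2
  obtain ⟨h2a, h2b⟩ := h2
  have hL : ∀ p ∈ L, p.1 + 1 < n := by
    intro p hp
    rw [List.all_eq_true] at hall
    simpa using hall p hp
  have hR : (L ++ [(n - 1, true)]).Pairwise (fun p q =>
      ((N.testBit (2 ^ x + 2 ^ y + 2 ^ p.1 + 2 ^ q.1) ==
        (decide (p.1 < q.1) == (p.2 == q.2))) = true) ∧ p.1 ≠ n - 1 ∧
      (q.1 = n - 1 ∨ cmpB b (lineVal F off hN x y p) (lineVal F off hN x y q))) := by
    have r1 := pairAll_pairwise _ _ h1a
    have r2 : (L ++ [(n - 1, true)]).Pairwise (fun p q => p.1 ≠ n - 1 ∧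
      (q.1 = n - 1 ∨ cmpB b (lineVal F off hN x y p) (lineVal F off hN x y q))) := by
      rw [List.pairwise_append]
      refine ⟨?_, List.pairwise_singleton _ _, ?_⟩
      · have r3 := chainAll_spec _ _ h2b
        rw [List.pairwise_map] at r3
        rw [List.pairwise_iff_forall_sublist] at r3 ⊢
        intro p q hpq
        have hp : p ∈ L := hpq.subset (by simp)
        exact ⟨by have := hL p hp; omega, Or.inr (r3 hpq)⟩
      · intro p hp q hq
        rw [List.mem_singleton] at hq
        subst hq
        exact ⟨by have := hL p hp; omega, Or.inl rfl⟩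
    exact (r1.and r2)
  obtain ⟨pos, s, hmemL, hps⟩ := exists_pos' _ hR
  have hmem : ∀ z, z < n → z ≠ x → z ≠ y → ∃ p ∈ (L ++ [(n - 1, true)]), p.1 = z := by
    intro z hz hzx hzy
    rw [List.all_eq_true] at h1b
    have := h1b z (List.mem_range.mpr hz)
    simpa [hzx, hzy] using this
  have hGx : n - 1 ≠ x := by omega
  have hGy : n - 1 ≠ y := by omega
  have hmG := hmem (n - 1) (by omega) hGx hGy
  have hsG : s (n - 1) = true := by
    have := hmemL _ hmG
    rw [List.mem_append] at this
    rcases this with h | h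
    · have := hL _ h
      simp only at this
      omega
    · rw [List.mem_singleton] at h
      exact congrArg Prod.snd h
  -- everything precedes G
  have hbef : ∀ z, z + 1 < n → z ≠ x → z ≠ y →
      Xn N z (n - 1) x y = (sg z x * sg z y * bs (s z)) := by
    intro z hz hzx hzy
    have hzG : z ≠ n - 1 := by omega
    obtain ⟨k1, k2⟩ := hps z (n - 1) (hmem z (by omega) hzx hzy) hmG hzG
    obtain ⟨_, k3⟩ := hps (n - 1) z hmG (hmem z (by omega) hzx hzy) hzG.symm
    rcases lt_or_gt_of_ne k1 with k | k
    · rw [rel_sign hxy hzG (k2 k).1, hsG]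
      have e1 : sg (n - 1) x = -1 := by
        unfold sg
        rw [if_neg (by omega), if_pos (by omega)]
      have e2 : sg (n - 1) y = -1 := by
        unfold sg
        rw [if_neg (by omega), if_pos (by omega)]
      rw [e1, e2]
      have : ∀ a : SignType, a * (-1 * -1 * bs true) = a := by decide
      exact this _
    · exact absurd rfl (k3 k).2.1
  have hb : b = true ↔ (sg F x * sg F y * bs (s F)) = 1 := by
    have hF := hmemL F (hmem F (by omega) hFx hFy)
    rw [List.mem_append] at hF
    rcases hF with hF | hF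
    · rw [List.all_eq_true] at h2a
      have := h2a _ hF
      simp only [beq_self_eq_true, Bool.not_true, Bool.false_or, beq_iff_eq] at this
      rw [this]
      generalize s F = t
      unfold sg bs
      rcases lt_or_gt_of_ne hFx with h3 | h3 <;> rcases lt_or_gt_of_ne hFy with h4 | h4 <;>
        cases t <;> simp [h3, h4, h3.not_gt, h4.not_gt]
    · rw [List.mem_singleton] at hF
      have := congrArg Prod.fst hF
      simp only at this
      omega
  have hbF : ∀ t : SignType, t ≠ 0 → (t ≠ 1 ↔ t = -1) := by decide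
  have hFne : (sg F x * sg F y * bs (s F)) ≠ 0 := by
    have e : bs (s F) ≠ 0 := by unfold bs; split_ifs <;> decide
    simp only [ne_eq, mul_eq_zero, not_or]
    exact ⟨⟨sg_ne_zero hFx, sg_ne_zero hFy⟩, e⟩
  have key : ∀ z w, z + 1 < n → w + 1 < n → z ≠ x → z ≠ y → w ≠ x → w ≠ y → z ≠ w →
      pos z < pos w →
      Xn N z w x y = Xn N F (n - 1) x y * Xn N (n - 1) z x y * Xn N (n - 1) w x y *
      SignType.sign (hZ F off hN x y z - hZ F off hN x y w) := by
    intro z w hz hw hzx hzy hwx hwy hzw hlt
    obtain ⟨k1, k2⟩ := hps z w (hmem z (by omega) hzx hzy) (hmem w (by omega) hwx hwy) hzw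
    have k3 := k2 hlt
    rw [rel_sign hxy hzw k3.1, hbef F hFG hFx hFy, (Xn_alt N).s12 z (n - 1) x y,
      (Xn_alt N).s12 w (n - 1) x y, hbef z hz hzx hzy, hbef w hw hwx hwy]
    have hs : SignType.sign (hZ F off hN x y z - hZ F off hN x y w) =
        (sg F x * sg F y * bs (s F)) := by
      rcases k3.2.2 with h | h
      · simp only at h
        omega
      · by_cases hbb : b = true
        · rw [hb.mp hbb]
          rw [hbb] at h
          have := hZ_lt hn (by omega) (by omega) (by omega) (by omega) _ _ hzw.symm h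
            (x := x) (y := y)
          rw [sign_pos (by omega)]
        · have h5 : (sg F x * sg F y * bs (s F)) = -1 := (hbF _ hFne).mp (fun h => hbb (hb.mpr h))
          rw [h5]
          have hbb' : b = false := by simpa using hbb
          rw [hbb'] at h
          have := hZ_lt hn (by omega) (by omega) (by omega) (by omega) _ _ hzw h
            (x := x) (y := y)
          rw [sign_neg (by omega)]
    rw [hs]
    have : ∀ a b c : SignType, c ≠ 0 → a * b = c * -a * -b * c := by decide
    exact this _ _ _ hFne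
  obtain ⟨k1, _⟩ := hps z w (hmem z (by omega) hzx hzy) (hmem w (by omega) hwx hwy) hzw
  rcases lt_or_gt_of_ne k1 with k | k
  · exact key z w hz hw hzx hzy hwx hwy hzw k
  · have h5 := key w z hw hz hwx hwy hzx hzy hzw.symm k
    rw [(Xn_alt N).s12 w z, h5]
    have e : hZ F off hN x y z - hZ F off hN x y w =
        -(hZ F off hN x y w - hZ F off hN x y z) := by ring
    rw [e, Left.sign_neg]
    have : ∀ a b c d : SignType, -(a * b * c * d) = a * c * b * -d := by decide
    exact this _ _ _ _

end Pool.Agent.H145.Euc
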