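import Pool.Agent.H145.Euc.Check

namespace Pool.Agent.H145.Euc

open SignType

lemma tau_xor (N B m : ℕ) : tau (N ^^^ 2 ^ B) m = if B = m then - tau N m else tau N m := by
  unfold tau
  rw [Nat.testBit_xor, Nat.testBit_two_pow]
  by_cases h : B = m
  · rw [if_pos h]
    simp only [h, decide_true, Bool.xor_true]
    cases N.testBit m <;> simp
  · rw [if_neg h]
    simp [h]

lemma Xn_xor (N B a b c d : ℕ) : Xn (N ^^^ 2 ^ B) a b c d =
    if B = 2 ^ a + 2 ^ b + 2 ^ c + 2 ^ d then - Xn N a b c d else Xn N a b c d := by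
  unfold Xn
  rw [tau_xor]
  split_ifs with h
  · rw [mul_neg]
  · rfl

/-- bit mask of a set of `Fin m` -/
def fmask (m : ℕ) (T : Finset (Fin m)) : ℕ := ∑ e ∈ T, 2 ^ e.val

lemma fmask_inj (m : ℕ) : Function.Injective (fmask m) := by
  intro S T h
  have h1 : ∀ S : Finset (Fin m), fmask m S = ∑ i ∈ S.image (fun e : Fin m => e.val), 2 ^ i := by
    intro S
    rw [Finset.sum_image (fun a _ b _ h => Fin.ext h)]
    rfl
  rw [h1 S, h1 T] at h
  have h2 := Finset.geomSum_injective (n := 2) le_rfl h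
  exact Finset.image_injective (fun _ _ h => Fin.ext h) h2

lemma fmask_lt (m : ℕ) (T : Finset (Fin m)) : fmask m T < 2 ^ m := by
  have h1 : fmask m T ≤ fmask m Finset.univ := Finset.sum_le_sum_of_subset (Finset.subset_univ _)
  have h2 : fmask m Finset.univ = ∑ i ∈ Finset.range m, 2 ^ i := by
    unfold fmask
    rw [Finset.sum_range]
  have h3 := Nat.geomSum_lt (m := 2) (n := m) (s := Finset.range m) le_rfl
    (fun i hi => Finset.mem_range.mp hi)
  omega

lemma mutant_table (N m : ℕ) (M1 M' : Chirotope (Fin m) 2) (s0 : SignType) (hs0 : s0 ≠ 0)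
    (h1 : ∀ a b c d : Fin m, M1.X a b c d = s0 * Xn N a b c d) (hmut : M1.Mutant M') :
    ∃ s : SignType, s ≠ 0 ∧ ∃ B, B < 2 ^ m ∧
      ∀ a b c d : Fin m, M'.X a b c d = s * Xn (N ^^^ 2 ^ B) a b c d := by
  classical
  obtain ⟨B, _, s, hs, hB1, hB2⟩ := hmut
  refine ⟨s * s0, mul_ne_zero hs hs0, fmask m B.toFinset, fmask_lt _ _, ?_⟩
  intro a b c d
  rw [Xn_xor]
  have hXM' := M'.X_alt
  by_cases hd : a ≠ b ∧ a ≠ c ∧ a ≠ d ∧ b ≠ c ∧ b ≠ d ∧ c ≠ d
  · obtain ⟨k1, k2, k3, k4, k5, k6⟩ := hd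
    have hr : Set.range ![a, b, c, d] = (({a, b, c, d} : Finset (Fin m)) : Set (Fin m)) := by
      ext t
      simp only [Set.mem_range, Finset.coe_insert, Finset.coe_singleton, Set.mem_insert_iff,
        Set.mem_singleton_iff]
      constructor
      · rintro ⟨i, rfl⟩
        fin_cases i <;> simp
      · rintro (h | h | h | h)
        · exact ⟨0, h.symm⟩
        · exact ⟨1, h.symm⟩
        · exact ⟨2, h.symm⟩
        · exact ⟨3, h.symm⟩
    have hm : fmask m ({a, b, c, d} : Finset (Fin m)) =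
        2 ^ a.val + 2 ^ b.val + 2 ^ c.val + 2 ^ d.val := by
      unfold fmask
      rw [Finset.sum_insert (by simp [k1, k2, k3]), Finset.sum_insert (by simp [k4, k5]),
        Finset.sum_insert (by simp [k6]), Finset.sum_singleton]
      ring
    by_cases hrB : Set.range ![a, b, c, d] = B
    · have e := hB1 ![a, b, c, d] hrB
      have e1 : fmask m B.toFinset = 2 ^ a.val + 2 ^ b.val + 2 ^ c.val + 2 ^ d.val := by
        rw [← hm]
        congr 1
        ext t
        rw [Set.mem_toFinset, ← hrB, hr]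
        simp
      rw [if_pos e1]
      have e2 : M'.X a b c d = -(s * M1.X a b c d) := e
      rw [e2, h1]
      have : ∀ p q r : SignType, -(p * (q * r)) = p * q * -r := by decide
      exact this _ _ _
    · have e := hB2 ![a, b, c, d] hrB
      have e1 : ¬ fmask m B.toFinset = 2 ^ a.val + 2 ^ b.val + 2 ^ c.val + 2 ^ d.val := by
        intro h
        apply hrB
        rw [← hm] at h
        have := fmask_inj m h
        rw [hr, ← this]
        simp
      rw [if_neg e1]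
      have e2 : M'.X a b c d = s * M1.X a b c d := e
      rw [e2, h1, mul_assoc]
  · have hz : ∀ X : Fin m → Fin m → Fin m → Fin m → SignType, Alt4 X → X a b c d = 0 := by
      intro X hX
      by_cases k1 : a = b
      · subst k1; exact hX.e12 _ _ _
      by_cases k2 : a = c
      · subst k2; exact hX.e13 _ _ _
      by_cases k3 : a = d
      · subst k3; exact hX.e14 _ _ _
      by_cases k4 : b = c
      · subst k4; exact hX.e23 _ _ _
      by_cases k5 : b = d
      · subst k5; exact hX.e24 _ _ _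
      by_cases k6 : c = d
      · subst k6; exact hX.e34 _ _ _
      exact absurd ⟨k1, k2, k3, k4, k5, k6⟩ hd
    rw [hz _ hXM']
    have h2 := hz (fun a b c d : Fin m => Xn N a b c d)
      ⟨fun _ _ _ _ => (Xn_alt N).s12 _ _ _ _, fun _ _ _ _ => (Xn_alt N).s23 _ _ _ _,
        fun _ _ _ _ => (Xn_alt N).s34 _ _ _ _⟩
    rw [h2]
    simp

lemma same_table (N m : ℕ) (M M' : Chirotope (Fin m) 2) (s0 : SignType) (hs0 : s0 ≠ 0)
    (h1 : ∀ a b c d : Fin m, M.X a b c d = s0 * Xn N a b c d) (h : M.SameOM M') :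
    ∃ s : SignType, s ≠ 0 ∧ ∀ a b c d : Fin m, M'.X a b c d = s * Xn N a b c d := by
  rcases h with h | h
  · exact ⟨s0, hs0, fun a b c d => by
      have := h ![a, b, c, d]
      have e : M'.X a b c d = M.X a b c d := this
      rw [e, h1]⟩
  · refine ⟨-s0, by clear h1; revert s0; decide, fun a b c d => ?_⟩
    have := h ![a, b, c, d]
    have e : M'.X a b c d = - M.X a b c d := this
    rw [e, h1, neg_mul]

lemma not_loop {m : ℕ} (hm : 4 ≤ m) (M : Chirotope (Fin m) 2) (hU : M.Uniform) (g : Fin m) :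
    ¬ M.IsLoop g := by
  intro h
  obtain ⟨a, b, c, d, h1, h2, h3, h4, h5, h6⟩ := fin_four hm
  -- an element tuple containing g
  have : ∃ x y z : Fin m, g ≠ x ∧ g ≠ y ∧ g ≠ z ∧ x ≠ y ∧ x ≠ z ∧ y ≠ z := by
    by_cases ha : g = a
    · exact ⟨b, c, d, ha ▸ h1, ha ▸ h2, ha ▸ h3, h4, h5, h6⟩
    · by_cases hb : g = b
      · exact ⟨a, c, d, ha, hb ▸ h4, hb ▸ h5, h2, h3, h6⟩
      · by_cases hc : g = c
        · exact ⟨a, b, d, ha, hb, hc ▸ h6, h1, h3, h5⟩
        · exact ⟨a, b, c, ha, hb, hc, h1, h2, h4⟩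
  obtain ⟨x, y, z, k1, k2, k3, k4, k5, k6⟩ := this
  have h7 := h ![g, x, y, z] (Chirotope.U4 hU g x y z k1 k2 k3 k4 k5 k6)
  exact h7 ⟨0, rfl⟩

lemma not_coloop {m : ℕ} (hm : 5 ≤ m) (M : Chirotope (Fin m) 2) (hU : M.Uniform) (f : Fin m) :
    ¬ M.IsColoop f := by
  intro h
  have : ∃ a b c d : Fin m, f ≠ a ∧ f ≠ b ∧ f ≠ c ∧ f ≠ d ∧ a ≠ b ∧ a ≠ c ∧ a ≠ d ∧ b ≠ c ∧
      b ≠ d ∧ c ≠ d := by
    have hcard : 4 ≤ (Finset.univ.erase f).card := by
      rw [Finset.card_erase_of_mem (Finset.mem_univ _), Finset.card_univ, Fintype.card_fin]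
      omega
    obtain ⟨T, hT, hT4⟩ := Finset.exists_subset_card_eq hcard
    obtain ⟨a, b, c, d, h1, h2, h3, h4, h5, h6, rfl⟩ := Finset.card_eq_four.mp hT4
    have hf : ∀ t ∈ ({a, b, c, d} : Finset (Fin m)), f ≠ t := by
      intro t ht h
      have := hT ht
      rw [h] at this
      simp at this
    exact ⟨a, b, c, d, hf a (by simp), hf b (by simp), hf c (by simp), hf d (by simp), h1, h2, h3,
      h4, h5, h6⟩
  obtain ⟨a, b, c, d, k1, k2, k3, k4, h1, h2, h3, h4, h5, h6⟩ := this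
  obtain ⟨i, hi⟩ := h ![a, b, c, d] (Chirotope.U4 hU a b c d h1 h2 h3 h4 h5 h6)
  fin_cases i
  · exact k1 hi.symm
  · exact k2 hi.symm
  · exact k3 hi.symm
  · exact k4 hi.symm

/-- If every one-bit change of the table still carries a cycle, then the flip distance to
Euclidean oriented matroids exceeds one. -/
theorem far_from_euclidean (N m : ℕ) (hm : 5 ≤ m) (M : Chirotope (Fin m) 2)
    (h1 : ∀ a b c d : Fin m, M.X a b c d = Xn N a b c d) (cs : List CycData)
    (h0 : cs.any (cycOK N m) = true)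
    (hB : (List.range (2 ^ m)).all (fun B => cs.any (cycOK (N ^^^ 2 ^ B) m)) = true)
    (M' : Chirotope (Fin m) 2) (hU' : M'.Uniform) (hE : M'.Euclidean) :
    ¬ Chirotope.FlipDistLE 1 M M' := by
  have h1' : ∀ a b c d : Fin m, M.X a b c d = 1 * Xn N a b c d := by
    intro a b c d; rw [h1, one_mul]
  have fin : ∀ (N' : ℕ) (s : SignType), s ≠ 0 →
      (∀ a b c d : Fin m, M'.X a b c d = s * Xn N' a b c d) → cs.any (cycOK N' m) = true →
      False := by
    intro N' s hs hX hc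
    rw [List.any_eq_true] at hc
    obtain ⟨d, _, hd⟩ := hc
    have hd' := hd
    unfold cycOK at hd'
    simp only [Bool.and_eq_true, decide_eq_true_eq] at hd'
    obtain ⟨⟨⟨⟨⟨⟨hg, hf⟩, _⟩, _⟩, _⟩, hdist⟩, _⟩ := hd'
    have hgf : (⟨d.g, hg⟩ : Fin m) ≠ ⟨d.f, hf⟩ := by
      unfold distOK at hdist
      simp only [Bool.and_eq_true, bne_iff_ne] at hdist
      obtain ⟨⟨⟨⟨⟨⟨⟨⟨⟨k, _⟩, _⟩, _⟩, _⟩, _⟩, _⟩, _⟩, _⟩, _⟩ := hdist
      intro h
      exact k (congrArg Fin.val h).symm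
    exact not_euclidean_of_cycOK N' m M' s hX hs hU' d hd ⟨d.g, hg⟩ ⟨d.f, hf⟩ rfl rfl
      (hE _ _ hgf (not_loop (by omega) M' hU' _) (not_coloop hm M' hU' _))
  intro hdist
  cases hdist with
  | refl _ hs =>
    obtain ⟨s, hs0, hX⟩ := same_table N m M M' 1 (by decide) h1' hs
    exact fin N s hs0 hX h0
  | step _ hd hU1 hmut =>
    cases hd with
    | refl _ hs =>
      obtain ⟨s, hs0, hX⟩ := same_table N m M _ 1 (by decide) h1' hs
      obtain ⟨s', hs', B, hBlt, hX'⟩ := mutant_table N m _ M' s hs0 hX hmut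
      rw [List.all_eq_true] at hB
      exact fin _ s' hs' hX' (hB B (List.mem_range.mpr hBlt))

end Pool.Agent.H145.Euc
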