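import Pool.Agent.H145.Euc.Basic

namespace Pool.Agent.H145.Euc

open SignType

section path

variable {E : Type*}

/-- an upward step on the line `a, b` from `c` to `w` -/
structure UpStep (X : E → E → E → E → SignType) (g f a b c w : E) : Prop where
  ga : g ≠ a
  gb : g ≠ b
  gc : g ≠ c
  gw : g ≠ w
  fa : f ≠ a
  fb : f ≠ b
  ab : a ≠ b
  ac : a ≠ c
  aw : a ≠ w
  bc : b ≠ c
  bw : b ≠ w
  cw : c ≠ w
  sg : X f g a b * X c w a b * X g c a b * X g w a b = -1

/-- reachability through upward steps; the flag records whether a step was made last -/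
inductive Reach (X : E → E → E → E → SignType) (g f : E) (a0 b0 c0 : E) :
    Bool → E → E → E → Prop
  | start : Reach X g f a0 b0 c0 false a0 b0 c0
  | rot {t a b c} : Reach X g f a0 b0 c0 t a b c → Reach X g f a0 b0 c0 t b c a
  | swap {t a b c} : Reach X g f a0 b0 c0 t a b c → Reach X g f a0 b0 c0 t b a c
  | step {t a b c w} : Reach X g f a0 b0 c0 t a b c → UpStep X g f a b c w →
      Reach X g f a0 b0 c0 true a b w

end path

lemma sgn_const (P P' D D' q : SignType) (hD : D ≠ 0) (hD' : D' ≠ 0)
    (h : GP3 (0 * q) (-(P * D')) (P' * D)) : P * D = P' * D' := by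
  revert P P' D D' q; decide

lemma sgn_step (P D q Pz Pw Gz Gw : SignType) (h1 : D * q * Gz * Gw = -1)
    (h : GP3 (P * q) (-(Pz * Gw)) (Pw * Gz)) (hP : P * D ≠ 0)
    (hz : Pz * Gz = 0 ∨ Pz * Gz = P * D) : Pw * Gw = P * D := by
  revert P D q Pz Pw Gz Gw; decide

namespace Chirotope

variable {E : Type*}

lemma exch_chain (N : Chirotope (Option E) 2) (w : Fin 4 → Option E) (hw : N.χ w ≠ 0)
    (v : Fin 4 → Option E) (hv : N.χ v ≠ 0) (i0 : Fin 4) (h0 : v i0 = none) (s : Finset (Fin 4))
    (hs : i0 ∉ s) : ∃ v', N.χ v' ≠ 0 ∧ v' i0 = none ∧ ∀ i ∈ s, v' i ∈ Set.range w := by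
  classical
  induction s using Finset.induction_on with
  | empty => exact ⟨v, hv, h0, by simp⟩
  | insert i s his ih =>
    obtain ⟨v', h1, h2, h3⟩ := ih (fun h => hs (Finset.mem_insert_of_mem h))
    obtain ⟨j, hj⟩ := N.exch v' w h1 hw i
    have hi0 : i0 ≠ i := fun h => hs (h ▸ Finset.mem_insert_self _ _)
    refine ⟨Function.update v' i (w j), hj, ?_, ?_⟩
    · rw [Function.update_of_ne hi0]; exact h2
    · intro l hl
      by_cases hli : l = i
      · subst hli; rw [Function.update_self]; exact ⟨j, rfl⟩
      · rw [Function.update_of_ne hli]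
        exact h3 l (Finset.mem_of_mem_insert_of_ne hl hli)

/-- A directed cycle certificate refutes Euclideanness. -/
theorem not_euclidean_of_cycle (M : Chirotope E 2) (hU : M.Uniform) (g f : E) (hfg : f ≠ g)
    (x0 y0 z0 : E) (hg0 : M.X g x0 y0 z0 ≠ 0) (hfx : f ≠ x0) (hfy : f ≠ y0)
    (hfz : f ≠ z0)
    (hcyc : Reach M.X g f x0 y0 z0 true x0 y0 z0) : ¬ M.EuclideanProgram g f := by
  intro hE
  obtain ⟨N, hext, hloop, hcl1, hcl2⟩ := hE ![x0, y0, z0] hg0
  have hYX : ∀ a b c d : E, N.X (some a) (some b) (some c) (some d) = M.X a b c d := by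
    intro a b c d
    have := hext ![a, b, c, d]
    rw [N.χ_eq_X] at this
    exact this
  have hY := N.X_alt
  have hX := M.X_alt
  have hU4 : ∀ a b c d : E, a ≠ b → a ≠ c → a ≠ d → b ≠ c → b ≠ d → c ≠ d → M.X a b c d ≠ 0 := by
    intro a b c d h1 h2 h3 h4 h5 h6
    apply hU
    intro i j hij
    fin_cases i <;> fin_cases j <;> simp_all
  -- p lies in cl {f, g}
  have hpfg : ∀ c, N.X none (some f) (some g) c = 0 := by
    intro c
    apply hcl2 ![some f, some g, c]
    intro s hs
    rcases hs with rfl | hs
    · exact hY.e12 _ _ _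
    · rw [Set.mem_singleton_iff] at hs
      subst hs
      exact hY.e13 _ _ _
  have hpT : N.X none (some x0) (some y0) (some z0) = 0 := by
    apply hcl1 ![some x0, some y0, some z0]
    rintro s ⟨t, ⟨i, rfl⟩, rfl⟩
    fin_cases i
    · exact hY.e12 _ _ _
    · exact hY.e13 _ _ _
    · exact hY.e14 _ _ _
  -- the constant alpha
  let α : E → E → SignType := fun x y => N.X none (some g) (some x) (some y) * M.X f g x y
  have hαsymm : ∀ x y, α x y = α y x := by
    intro x y
    simp only [α]
    rw [hY.s34 none (some g) (some x) (some y), hX.s34 f g x y]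
    simp
  have hα1 : ∀ x y y', f ≠ x → g ≠ x → f ≠ y → g ≠ y → f ≠ y' → g ≠ y' → x ≠ y → x ≠ y' →
      α x y = α x y' := by
    intro x y y' h1 h2 h3 h4 h5 h6 h7 h8
    have h := N.X_gp (some g) (some x) none (some f) (some y) (some y')
    unfold GPat at h
    have e1 : N.X none (some f) (some g) (some x) = 0 := hpfg _
    have e2 : N.X none (some y) (some g) (some x) = N.X none (some g) (some x) (some y) := by
      rw [hY.s23, hY.s34]; simp
    have e3 : N.X none (some y') (some g) (some x) = N.X none (some g) (some x) (some y') := by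
      rw [hY.s23, hY.s34]; simp
    have e4 : ∀ t, M.X f t g x = M.X f g x t := by
      intro t; rw [hX.s23, hX.s34]; simp
    rw [e1, e2, e3, hYX, hYX, hYX, e4, e4] at h
    exact sgn_const _ _ _ _ _ (hU4 _ _ _ _ hfg h1 h3 h2 h4 h7)
      (hU4 _ _ _ _ hfg h1 h5 h2 h6 h8) h
  have hαc : ∀ x y x' y', f ≠ x → g ≠ x → f ≠ y → g ≠ y → f ≠ x' → g ≠ x' → f ≠ y' → g ≠ y' →
      x ≠ y → x' ≠ y' → α x y = α x' y' := by
    intro x y x' y' h1 h2 h3 h4 h5 h6 h7 h8 h9 h10
    by_cases hxy : x = y'
    · subst hxy
      rw [hαsymm x' x]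
      exact hα1 _ _ _ h1 h2 h3 h4 h5 h6 h9 h10.symm
    · rw [hα1 x y y' h1 h2 h3 h4 h7 h8 h9 hxy, hαsymm x y', hαsymm x' y']
      exact hα1 _ _ _ h7 h8 h1 h2 h5 h6 (Ne.symm hxy) h10.symm
  -- distinctness of the start
  have hd : g ≠ x0 ∧ g ≠ y0 ∧ g ≠ z0 ∧ x0 ≠ y0 ∧ x0 ≠ z0 ∧ y0 ≠ z0 := by
    refine ⟨?_, ?_, ?_, ?_, ?_, ?_⟩ <;> rintro rfl <;> apply hg0
    · exact hX.e12 _ _ _
    · exact hX.e13 _ _ _
    · exact hX.e14 _ _ _
    · exact hX.e23 _ _ _
    · exact hX.e24 _ _ _
    · exact hX.e34 _ _ _
  obtain ⟨hgx, hgy, hgz, hxy, hxz, hyz⟩ := hd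
  -- alpha is non-zero
  have hα0 : α x0 y0 ≠ 0 := by
    unfold IsLoop at hloop
    push Not at hloop
    obtain ⟨v, hv, i0, hi0⟩ := hloop
    have hw : N.χ ![some g, some x0, some y0, some z0] ≠ 0 := by
      have := hYX g x0 y0 z0
      unfold X at this
      rw [this]
      exact hg0
    obtain ⟨v', h1, h2, h3⟩ := N.exch_chain _ hw v hv i0 hi0 (Finset.univ.erase i0) (by simp)
    have h4 : ∃ b : Fin 3 → Option E, (∀ i, b i ∈ Set.range ![some g, some x0, some y0, some z0]) ∧
        N.X none (b 0) (b 1) (b 2) ≠ 0 := by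
      have h5 : ∀ i, i ≠ i0 → v' i ∈ Set.range ![some g, some x0, some y0, some z0] := by
        intro i hi; exact h3 i (by simp [hi])
      have h6 : N.X (v' 0) (v' 1) (v' 2) (v' 3) ≠ 0 := by rw [← N.χ_eq_X]; exact h1
      fin_cases i0
      · refine ⟨![v' 1, v' 2, v' 3], ?_, ?_⟩
        · intro i
          fin_cases i
          · exact h5 1 (by decide)
          · exact h5 2 (by decide)
          · exact h5 3 (by decide)
        · have h2' : v' 0 = none := h2
          rw [h2'] at h6
          exact h6
      · refine ⟨![v' 0, v' 2, v' 3], ?_, ?_⟩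
        · intro i
          fin_cases i
          · exact h5 0 (by decide)
          · exact h5 2 (by decide)
          · exact h5 3 (by decide)
        · have h2' : v' 1 = none := h2
          rw [h2', hY.s12] at h6
          intro h7
          apply h6
          have h8 : N.X none (v' 0) (v' 2) (v' 3) = 0 := h7
          rw [h8]; rfl
      · refine ⟨![v' 1, v' 0, v' 3], ?_, ?_⟩
        · intro i
          fin_cases i
          · exact h5 1 (by decide)
          · exact h5 0 (by decide)
          · exact h5 3 (by decide)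
        · have h2' : v' 2 = none := h2
          rw [h2', hY.s13] at h6
          intro h7
          apply h6
          have h8 : N.X none (v' 1) (v' 0) (v' 3) = 0 := h7
          rw [h8]; rfl
      · refine ⟨![v' 1, v' 2, v' 0], ?_, ?_⟩
        · intro i
          fin_cases i
          · exact h5 1 (by decide)
          · exact h5 2 (by decide)
          · exact h5 0 (by decide)
        · have h2' : v' 3 = none := h2
          rw [h2', hY.s14] at h6
          intro h7
          apply h6
          have h8 : N.X none (v' 1) (v' 2) (v' 0) = 0 := h7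
          rw [h8]; rfl
    obtain ⟨b, hb, hb0⟩ := h4
    have hr : ∀ i, b i = some g ∨ b i = some x0 ∨ b i = some y0 ∨ b i = some z0 := by
      intro i
      obtain ⟨j, hj⟩ := hb i
      fin_cases j
      · left; exact hj.symm
      · right; left; exact hj.symm
      · right; right; left; exact hj.symm
      · right; right; right; exact hj.symm
    -- if all alphas vanish, contradiction
    intro hα
    have hxy0 : N.X none (some g) (some x0) (some y0) = 0 := by
      have h5 := hα
      simp only [α] at h5
      rcases mul_eq_zero.mp h5 with h | h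
      · exact h
      · exact absurd h (hU4 _ _ _ _ hfg hfx hfy hgx hgy hxy)
    have hxz0 : N.X none (some g) (some x0) (some z0) = 0 := by
      have h5 := hα
      rw [hαc x0 y0 x0 z0 hfx hgx hfy hgy hfx hgx hfz hgz hxy hxz] at h5
      simp only [α] at h5
      rcases mul_eq_zero.mp h5 with h | h
      · exact h
      · exact absurd h (hU4 _ _ _ _ hfg hfx hfz hgx hgz hxz)
    have hyz0 : N.X none (some g) (some y0) (some z0) = 0 := by
      have h5 := hα
      rw [hαc x0 y0 y0 z0 hfx hgx hfy hgy hfy hgy hfz hgz hxy hyz] at h5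
      simp only [α] at h5
      rcases mul_eq_zero.mp h5 with h | h
      · exact h
      · exact absurd h (hU4 _ _ _ _ hfg hfy hfz hgy hgz hyz)
    -- all values on {g,x0,y0,z0} vanish
    have hz1 : ∀ a b c : Option E, N.X none a b c = 0 → N.X none b a c = 0 := by
      intro a b c h; rw [hY.s23, h]; rfl
    have hz2 : ∀ a b c : Option E, N.X none a b c = 0 → N.X none a c b = 0 := by
      intro a b c h; rw [hY.s34, h]; rfl
    apply hb0
    rcases hr 0 with h0 | h0 | h0 | h0 <;> rcases hr 1 with h1 | h1 | h1 | h1 <;>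
      rcases hr 2 with h2 | h2 | h2 | h2 <;> rw [h0, h1, h2] <;>
      first
        | exact hY.e23 _ _ _
        | exact hY.e34 _ _ _
        | exact hY.e24 _ _ _
        | assumption
        | (apply hz1; assumption)
        | (apply hz2; assumption)
        | (apply hz1; apply hz2; assumption)
        | (apply hz2; apply hz1; assumption)
        | (apply hz1; apply hz2; apply hz1; assumption)
  -- monotonicity along the path
  have key : ∀ t a b c, Reach M.X g f x0 y0 z0 t a b c →
      ((t = false ∧ N.X none (some a) (some b) (some c) * M.X g a b c = 0) ∨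
      N.X none (some a) (some b) (some c) * M.X g a b c = α x0 y0) := by
    intro t a b c h
    induction h with
    | start => left; exact ⟨rfl, by rw [hpT]; simp⟩
    | @rot t a b c _ ih =>
      have e1 : N.X none (some b) (some c) (some a) = N.X none (some a) (some b) (some c) := by
        rw [hY.s24, hY.s34]; simp
      have e2 : M.X g b c a = M.X g a b c := by
        rw [hX.s24, hX.s34]; simp
      rw [e1, e2]; exact ih
    | @swap t a b c _ ih =>
      have e1 : N.X none (some b) (some a) (some c) = - N.X none (some a) (some b) (some c) := by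
        rw [hY.s23]
      have e2 : M.X g b a c = - M.X g a b c := by
        rw [hX.s23]
      rw [e1, e2, neg_mul_neg]; exact ih
    | @step t a b c w _ hu ih =>
      right
      have h := N.X_gp (some a) (some b) none (some g) (some c) (some w)
      unfold GPat at h
      rw [hYX, hYX, hYX] at h
      have hα : α a b = α x0 y0 := hαc a b x0 y0 hu.fa hu.ga hu.fb hu.gb hfx hgx hfy hgy hu.ab hxy
      have r1 : N.X none (some g) (some a) (some b) * M.X f g a b = α a b := rfl
      have c1 : ∀ t, N.X none t (some a) (some b) = N.X none (some a) (some b) t := by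
        intro t; rw [hY.s24, hY.s23]; simp
      have c2 : ∀ t, M.X g t a b = M.X g a b t := by
        intro t; rw [hX.s24, hX.s23]; simp
      have h1 : N.X none (some w) (some a) (some b) * M.X g w a b = α a b := by
        rw [← r1]
        refine sgn_step _ _ _ (N.X none (some c) (some a) (some b)) _ (M.X g c a b) _ hu.sg h ?_ ?_
        · rw [r1, hα]; exact hα0
        · rw [r1, hα, c1, c2]
          rcases ih with ih | ih
          · left; exact ih.2
          · right; exact ih
      rw [← c1, ← c2, h1, hα]
  rcases key _ _ _ _ hcyc with h | h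
  · exact absurd h.1 (by decide)
  · rw [hpT, zero_mul] at h
    exact hα0 h.symm

end Chirotope

end Pool.Agent.H145.Euc
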