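import Pool.Agent.H145.Euc.Basic

namespace Pool.Agent.H145.Euc

open SignType

/-- rank two duality: the four line conditions imply the condition with the new element in the
common part -/
lemma sgn_L4 (sab sac sad sbc sbd scd Da Db Dc Dd : SignType)
    (ha : Da ≠ 0) (hb : Db ≠ 0) (hc : Dc ≠ 0) (hd : Dd ≠ 0)
    (h1 : GP3 (-sab * Db) (-(-sac * Dc)) (-sad * Dd))
    (h2 : GP3 (sab * Da) (-(-sbc * -Dc)) (-sbd * -Dd))
    (h3 : GP3 (sac * -Da) (-(sbc * -Db)) (-scd * Dd))
    (h4 : GP3 (sad * Da) (-(sbd * Db)) (scd * Dc)) :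
    GP3 (sab * scd) (-(sac * sbd)) (sad * sbc) := by
  have key : ∀ Da : SignType, Da ≠ 0 → ∀ Db : SignType, Db ≠ 0 → ∀ Dc : SignType, Dc ≠ 0 →
    ∀ Dd : SignType, Dd ≠ 0 → ∀ sab sac sad : SignType,
      GP3 (-sab * Db) (-(-sac * Dc)) (-sad * Dd) → ∀ sbc sbd : SignType,
      GP3 (sab * Da) (-(-sbc * -Dc)) (-sbd * -Dd) → ∀ scd : SignType,
      GP3 (sac * -Da) (-(sbc * -Db)) (-scd * Dd) → GP3 (sad * Da) (-(sbd * Db)) (scd * Dc) →
      GP3 (sab * scd) (-(sac * sbd)) (sad * sbc) := by decide +kernel
  exact key Da ha Db hb Dc hc Dd hd sab sac sad h1 sbc sbd h2 scd h3 h4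

section ext

variable {E : Type*}

/-- extension of a four-place function by a three-place function -/
def XN (X : E → E → E → E → SignType) (σ : E → E → E → SignType) :
    Option E → Option E → Option E → Option E → SignType
  | some a, some b, some c, some d => X a b c d
  | none, some b, some c, some d => σ b c d
  | some a, none, some c, some d => - σ a c d
  | some a, some b, none, some d => σ a b d
  | some a, some b, some c, none => - σ a b c
  | _, _, _, _ => 0

/-- alternating three-place function -/
structure Alt3 (σ : E → E → E → SignType) : Prop where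
  s12 : ∀ a b c, σ b a c = - σ a b c
  s23 : ∀ a b c, σ a c b = - σ a b c

lemma Alt3.e12 {σ : E → E → E → SignType} (h : Alt3 σ) (a b : E) : σ a a b = 0 :=
  neg_self_eq _ (h.s12 a a b)
lemma Alt3.e23 {σ : E → E → E → SignType} (h : Alt3 σ) (a b : E) : σ a b b = 0 :=
  neg_self_eq _ (h.s23 a b b)
lemma Alt3.e13 {σ : E → E → E → SignType} (h : Alt3 σ) (a b : E) : σ a b a = 0 := by
  rw [h.s23, h.e12]; rfl

lemma XN_alt {X : E → E → E → E → SignType} {σ : E → E → E → SignType} (hX : Alt4 X)
    (hσ : Alt3 σ) : Alt4 (XN X σ) := by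
  constructor
  · rintro (_ | a) (_ | b) (_ | c) (_ | d) <;> simp only [XN, neg_neg, neg_zero] <;>
      first
        | exact hX.s12 _ _ _ _
        | exact hσ.s12 _ _ _
        | (rw [hσ.s12]; simp)
  · rintro (_ | a) (_ | b) (_ | c) (_ | d) <;> simp only [XN, neg_neg, neg_zero] <;>
      first
        | exact hX.s23 _ _ _ _
        | exact hσ.s12 _ _ _
        | (rw [hσ.s23]; simp)
  · rintro (_ | a) (_ | b) (_ | c) (_ | d) <;> simp only [XN, neg_neg, neg_zero] <;>
      first
        | exact hX.s34 _ _ _ _
        | exact hσ.s23 _ _ _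
        | (rw [hσ.s23]; simp)

/-- reduction of the three-term conditions of an extension to the line conditions -/
lemma XN_gp {X : E → E → E → E → SignType} {σ : E → E → E → SignType} (hX : Alt4 X)
    (hσ : Alt3 σ) (hgp : ∀ x y a b c d, GPat X x y a b c d)
    (hU : ∀ a b c d : E, a ≠ b → a ≠ c → a ≠ d → b ≠ c → b ≠ d → c ≠ d → X a b c d ≠ 0)
    (hline : ∀ x y b c d : E, x ≠ y → b ≠ x → b ≠ y → c ≠ x → c ≠ y → d ≠ x → d ≠ y → b ≠ c →
      b ≠ d → c ≠ d →
      GP3 (σ b x y * X c d x y) (-(σ c x y * X b d x y)) (σ d x y * X b c x y))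
    (x y a b c d : Option E) : GPat (XN X σ) x y a b c d := by
  have hN := XN_alt hX hσ
  have main1 : ∀ x y b c d : E, x ≠ y → b ≠ x → b ≠ y → c ≠ x → c ≠ y → d ≠ x → d ≠ y → b ≠ c →
      b ≠ d → c ≠ d → GPat (XN X σ) (some x) (some y) none (some b) (some c) (some d) := by
    intro x y b c d h1 h2 h3 h4 h5 h6 h7 h8 h9 h10
    exact hline x y b c d h1 h2 h3 h4 h5 h6 h7 h8 h9 h10
  have main2 : ∀ y a b c d : E, y ≠ a → y ≠ b → y ≠ c → y ≠ d → a ≠ b → a ≠ c → a ≠ d → b ≠ c →
      b ≠ d → c ≠ d → GPat (XN X σ) none (some y) (some a) (some b) (some c) (some d) := by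
    intro y a b c d h1 h2 h3 h4 h5 h6 h7 h8 h9 h10
    have l1 := hline a y b c d h1.symm h5.symm h2.symm h6.symm h3.symm h7.symm h4.symm h8 h9 h10
    have l2 := hline b y a c d h2.symm h5 h1.symm h8.symm h3.symm h9.symm h4.symm h6 h7 h10
    have l3 := hline c y a b d h3.symm h6 h1.symm h8 h2.symm h10.symm h4.symm h5 h7 h9
    have l4 := hline d y a b c h4.symm h7 h1.symm h9 h2.symm h10 h3.symm h5 h6 h8
    have c1 : ∀ p q r s : E, X p q r s = X r p q s := by
      intro p q r s; rw [hX.s23 p r q s, hX.s12 r p q s]; simp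
    rw [hσ.s12 a b y, hσ.s12 a c y, hσ.s12 a d y, c1 c d a y, c1 b d a y, c1 b c a y] at l1
    rw [hσ.s12 b c y, hσ.s12 b d y, c1 c d b y, hX.s23 a b d y, hX.s23 a b c y] at l2
    rw [hσ.s12 c d y, hX.s23 b c d y, hX.s23 a c d y] at l3
    have e := sgn_L4 (σ a b y) (σ a c y) (σ a d y) (σ b c y) (σ b d y) (σ c d y) (X b c d y)
      (X a c d y) (X a b d y) (X a b c y) (hU _ _ _ _ h8 h9 h2.symm h10 h3.symm h4.symm)
      (hU _ _ _ _ h6 h7 h1.symm h10 h3.symm h4.symm) (hU _ _ _ _ h5 h7 h1.symm h9 h2.symm h4.symm)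
      (hU _ _ _ _ h5 h6 h1.symm h8 h2.symm h3.symm) l1 l2 l3 l4
    exact e
  by_cases hd : (a ≠ b ∧ a ≠ c ∧ a ≠ d ∧ b ≠ c ∧ b ≠ d ∧ c ≠ d ∧ x ≠ y ∧ x ≠ a ∧ x ≠ b ∧ x ≠ c ∧
      x ≠ d ∧ y ≠ a ∧ y ≠ b ∧ y ≠ c ∧ y ≠ d)
  · obtain ⟨k1, k2, k3, k4, k5, k6, k7, k8, k9, k10, k11, k12, k13, k14, k15⟩ := hd
    rcases x with _ | x
    · rcases y with _ | y
      · exact absurd rfl k7
      rcases a with _ | a
      · exact absurd rfl k8
      rcases b with _ | b
      · exact absurd rfl k9
      rcases c with _ | c
      · exact absurd rfl k10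
      rcases d with _ | d
      · exact absurd rfl k11
      simp only [ne_eq, Option.some.injEq] at k1 k2 k3 k4 k5 k6 k12 k13 k14 k15
      exact main2 y a b c d k12 k13 k14 k15 k1 k2 k3 k4 k5 k6
    rcases y with _ | y
    · rcases a with _ | a
      · exact absurd rfl k12
      rcases b with _ | b
      · exact absurd rfl k13
      rcases c with _ | c
      · exact absurd rfl k14
      rcases d with _ | d
      · exact absurd rfl k15
      simp only [ne_eq, Option.some.injEq] at k1 k2 k3 k4 k5 k6 k8 k9 k10 k11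
      exact (main2 x a b c d k8 k9 k10 k11 k1 k2 k3 k4 k5 k6).swap_xy hN
    rcases a with _ | a
    · rcases b with _ | b
      · exact absurd rfl k1
      rcases c with _ | c
      · exact absurd rfl k2
      rcases d with _ | d
      · exact absurd rfl k3
      simp only [ne_eq, Option.some.injEq] at k4 k5 k6 k7 k9 k10 k11 k13 k14 k15
      exact main1 x y b c d k7 (Ne.symm k9) (Ne.symm k13) (Ne.symm k10) (Ne.symm k14)
        (Ne.symm k11) (Ne.symm k15) k4 k5 k6
    rcases b with _ | b
    · rcases c with _ | c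
      · exact absurd rfl k4
      rcases d with _ | d
      · exact absurd rfl k5
      simp only [ne_eq, Option.some.injEq] at k2 k3 k6 k7 k8 k10 k11 k12 k14 k15
      exact (main1 x y a c d k7 (Ne.symm k8) (Ne.symm k12) (Ne.symm k10) (Ne.symm k14)
        (Ne.symm k11) (Ne.symm k15) k2 k3 k6).swap_ab hN
    rcases c with _ | c
    · rcases d with _ | d
      · exact absurd rfl k6
      simp only [ne_eq, Option.some.injEq] at k1 k3 k5 k7 k8 k9 k11 k12 k13 k15
      exact ((main1 x y a b d k7 (Ne.symm k8) (Ne.symm k12) (Ne.symm k9) (Ne.symm k13)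
        (Ne.symm k11) (Ne.symm k15) k1 k3 k5).swap_ab hN).swap_bc hN
    rcases d with _ | d
    · simp only [ne_eq, Option.some.injEq] at k1 k2 k4 k7 k8 k9 k10 k12 k13 k14
      exact (((main1 x y a b c k7 (Ne.symm k8) (Ne.symm k12) (Ne.symm k9) (Ne.symm k13)
        (Ne.symm k10) (Ne.symm k14) k1 k2 k4).swap_ab hN).swap_bc hN).swap_cd hN
    exact hgp x y a b c d
  · exact gpat_of_eq hN hd

end ext

section exchange

variable {E : Type*} [DecidableEq E]

/-- bases of the extension -/
def Good (f g x0 y0 z0 : E) (B : Finset (Option E)) : Prop :=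
  none ∈ B → ¬ (some f ∈ B ∧ some g ∈ B) ∧ B ≠ {none, some x0, some y0, some z0}

lemma good_exch (f g x0 y0 z0 : E) (hfx : f ≠ x0) (hfy : f ≠ y0) (hfz : f ≠ z0) (hgx : g ≠ x0)
    (hgy : g ≠ y0) (hgz : g ≠ z0) (hfg : f ≠ g) (S B2 : Finset (Option E)) (hS : S.card = 3)
    (hB2 : B2.card = 4) (x : Option E) (hgood : Good f g x0 y0 z0 (insert x S))
    (hgood2 : Good f g x0 y0 z0 B2) :
    ∃ t ∈ B2, t ∉ S ∧ Good f g x0 y0 z0 (insert t S) := by
  by_contra hcon
  push Not at hcon
  have hcardins : ∀ t, t ∉ S → (insert t S).card = 4 := by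
    intro t ht; rw [Finset.card_insert_of_notMem ht, hS]
  have hex : ∃ t ∈ B2, t ∉ S := by
    by_contra h
    push Not at h
    have := Finset.card_le_card (s := B2) (t := S) h
    omega
  by_cases hn : none ∈ S
  · have h1 := hgood (Finset.mem_insert_of_mem hn)
    by_cases hf : some f ∈ S
    · have hg : some g ∉ S := fun hg =>
        h1.1 ⟨Finset.mem_insert_of_mem hf, Finset.mem_insert_of_mem hg⟩
      have hsub : B2 ⊆ insert (some g) S := by
        intro t ht
        by_cases hts : t ∈ S
        · exact Finset.mem_insert_of_mem hts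
        · have h2 := hcon t ht hts
          unfold Good at h2
          push Not at h2
          obtain ⟨h3, h4⟩ := h2
          by_cases h5 : some f ∈ insert t S ∧ some g ∈ insert t S
          · rcases Finset.mem_insert.mp h5.2 with h6 | h6
            · rw [h6]; exact Finset.mem_insert_self _ _
            · exact absurd h6 hg
          · have h6 := h4 (fun h => fun h' => h5 ⟨h, h'⟩)
            have h7 : some f ∈ ({none, some x0, some y0, some z0} : Finset (Option E)) := by
              rw [← h6]; exact Finset.mem_insert_of_mem hf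
            simp [hfx, hfy, hfz] at h7
      have heq := Finset.eq_of_subset_of_card_le hsub (by rw [hcardins _ hg, hB2])
      have h2 := hgood2 (by rw [heq]; exact Finset.mem_insert_of_mem hn)
      exact h2.1 ⟨by rw [heq]; exact Finset.mem_insert_of_mem hf,
        by rw [heq]; exact Finset.mem_insert_self _ _⟩
    · by_cases hg : some g ∈ S
      · have hsub : B2 ⊆ insert (some f) S := by
          intro t ht
          by_cases hts : t ∈ S
          · exact Finset.mem_insert_of_mem hts
          · have h2 := hcon t ht hts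
            unfold Good at h2
            push Not at h2
            obtain ⟨h3, h4⟩ := h2
            by_cases h5 : some f ∈ insert t S ∧ some g ∈ insert t S
            · rcases Finset.mem_insert.mp h5.1 with h6 | h6
              · rw [h6]; exact Finset.mem_insert_self _ _
              · exact absurd h6 hf
            · have h6 := h4 (fun h => fun h' => h5 ⟨h, h'⟩)
              have h7 : some g ∈ ({none, some x0, some y0, some z0} : Finset (Option E)) := by
                rw [← h6]; exact Finset.mem_insert_of_mem hg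
              simp [hgx, hgy, hgz] at h7
        have heq := Finset.eq_of_subset_of_card_le hsub (by rw [hcardins _ hf, hB2])
        have h2 := hgood2 (by rw [heq]; exact Finset.mem_insert_of_mem hn)
        exact h2.1 ⟨by rw [heq]; exact Finset.mem_insert_self _ _,
          by rw [heq]; exact Finset.mem_insert_of_mem hg⟩
      · have hT : ∀ t ∈ B2, t ∉ S → insert t S = {none, some x0, some y0, some z0} := by
          intro t ht hts
          have h2 := hcon t ht hts
          unfold Good at h2
          push Not at h2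
          obtain ⟨h3, h4⟩ := h2
          apply h4
          intro h5 h6
          rcases Finset.mem_insert.mp h5 with h7 | h7
          · rcases Finset.mem_insert.mp h6 with h8 | h8
            · rw [← h7] at h8
              exact hfg (Option.some.inj h8).symm
            · exact hg h8
          · exact hf h7
        obtain ⟨t0, ht0, ht0S⟩ := hex
        have hT0 := hT t0 ht0 ht0S
        have hsub : B2 ⊆ {none, some x0, some y0, some z0} := by
          intro t ht
          by_cases hts : t ∈ S
          · rw [← hT0]; exact Finset.mem_insert_of_mem hts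
          · rw [← hT t ht hts]; exact Finset.mem_insert_self _ _
        have heq := Finset.eq_of_subset_of_card_le hsub (by
          rw [hB2, ← hT0, hcardins _ ht0S])
        have h2 := hgood2 (by rw [heq]; simp)
        exact h2.2 heq
  · have hsub : B2 ⊆ insert none S := by
      intro t ht
      by_cases hts : t ∈ S
      · exact Finset.mem_insert_of_mem hts
      · have h2 := hcon t ht hts
        unfold Good at h2
        push Not at h2
        obtain ⟨h3, _⟩ := h2
        rcases Finset.mem_insert.mp h3 with h4 | h4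
        · rw [← h4]; exact Finset.mem_insert_self _ _
        · exact absurd h4 hn
    have heq := Finset.eq_of_subset_of_card_le hsub (by rw [hcardins _ hn, hB2])
    have h2 : none ∈ B2 := by rw [heq]; exact Finset.mem_insert_self _ _
    exact hcon none h2 hn (heq ▸ hgood2)

end exchange

end Pool.Agent.H145.Euc
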