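import Pool.Agent.H145.Euc.T2

namespace Pool.Agent.H145.Euc

open SignType

section supp

variable {E : Type*} [DecidableEq E]

lemma insert_none_eq_iff (a b c x y z : E) :
    ({none, some a, some b, some c} : Finset (Option E)) = {none, some x, some y, some z} ↔
      ({a, b, c} : Finset E) = {x, y, z} := by
  constructor
  · intro h
    ext t
    have := Finset.ext_iff.mp h (some t)
    simpa using this
  · intro h
    ext t
    rcases t with _ | t
    · simp
    · have := Finset.ext_iff.mp h t
      simpa using this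

lemma good_none_iff (f g x0 y0 z0 a b c : E) :
    Good f g x0 y0 z0 {none, some a, some b, some c} ↔
      (¬ ((f = a ∨ f = b ∨ f = c) ∧ (g = a ∨ g = b ∨ g = c)) ∧
        ({a, b, c} : Finset E) ≠ {x0, y0, z0}) := by
  unfold Good
  rw [ne_eq, insert_none_eq_iff]
  simp

lemma supp4 {X : E → E → E → E → SignType} {σ : E → E → E → SignType} (f g x0 y0 z0 : E)
    (hU : ∀ a b c d : E, a ≠ b → a ≠ c → a ≠ d → b ≠ c → b ≠ d → c ≠ d → X a b c d ≠ 0)
    (hs : ∀ a b c : E, a ≠ b → a ≠ c → b ≠ c → (σ a b c ≠ 0 ↔
      (¬ ((f = a ∨ f = b ∨ f = c) ∧ (g = a ∨ g = b ∨ g = c)) ∧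
        ({a, b, c} : Finset E) ≠ {x0, y0, z0})))
    (a b c d : Option E) (hab : a ≠ b) (hac : a ≠ c) (had : a ≠ d) (hbc : b ≠ c) (hbd : b ≠ d)
    (hcd : c ≠ d) : XN X σ a b c d ≠ 0 ↔ Good f g x0 y0 z0 {a, b, c, d} := by
  have neg0 : ∀ s : SignType, -s ≠ 0 ↔ s ≠ 0 := by decide
  rcases a with _ | a
  · rcases b with _ | b
    · exact absurd rfl hab
    rcases c with _ | c
    · exact absurd rfl hac
    rcases d with _ | d
    · exact absurd rfl had
    rw [good_none_iff]
    exact hs b c d (fun h => hbc (congrArg some h)) (fun h => hbd (congrArg some h))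
      (fun h => hcd (congrArg some h))
  rcases b with _ | b
  · rcases c with _ | c
    · exact absurd rfl hbc
    rcases d with _ | d
    · exact absurd rfl hbd
    rw [Finset.insert_comm (some a) none, good_none_iff]
    show -σ a c d ≠ 0 ↔ _
    rw [neg0]
    exact hs a c d (fun h => hac (congrArg some h)) (fun h => had (congrArg some h))
      (fun h => hcd (congrArg some h))
  rcases c with _ | c
  · rcases d with _ | d
    · exact absurd rfl hcd
    rw [Finset.insert_comm (some b) none, Finset.insert_comm (some a) none, good_none_iff]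
    show σ a b d ≠ 0 ↔ _
    exact hs a b d (fun h => hab (congrArg some h)) (fun h => had (congrArg some h))
      (fun h => hbd (congrArg some h))
  rcases d with _ | d
  · have e : ({some a, some b, some c, none} : Finset (Option E)) =
        {none, some a, some b, some c} := by
      ext t; simp only [Finset.mem_insert, Finset.mem_singleton]; tauto
    rw [e, good_none_iff]
    show -σ a b c ≠ 0 ↔ _
    rw [neg0]
    exact hs a b c (fun h => hab (congrArg some h)) (fun h => hac (congrArg some h))
      (fun h => hbc (congrArg some h))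
  · have h1 : Good f g x0 y0 z0 {some a, some b, some c, some d} := by
      intro h; simp at h
    simp only [h1, iff_true]
    exact hU a b c d (fun h => hab (congrArg some h)) (fun h => hac (congrArg some h))
      (fun h => had (congrArg some h)) (fun h => hbc (congrArg some h))
      (fun h => hbd (congrArg some h)) (fun h => hcd (congrArg some h))

lemma image_univ4 {α : Type*} [DecidableEq α] (v : Fin 4 → α) :
    Finset.univ.image v = {v 0, v 1, v 2, v 3} := by
  ext t
  simp only [Finset.mem_image, Finset.mem_univ, true_and, Finset.mem_insert,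
    Finset.mem_singleton]
  constructor
  · rintro ⟨i, rfl⟩
    fin_cases i <;> simp
  · rintro (h | h | h | h)
    · exact ⟨0, h.symm⟩
    · exact ⟨1, h.symm⟩
    · exact ⟨2, h.symm⟩
    · exact ⟨3, h.symm⟩

lemma suppv {X : E → E → E → E → SignType} {σ : E → E → E → SignType} (hX : Alt4 X)
    (hσ : Alt3 σ) (f g x0 y0 z0 : E)
    (hU : ∀ a b c d : E, a ≠ b → a ≠ c → a ≠ d → b ≠ c → b ≠ d → c ≠ d → X a b c d ≠ 0)
    (hs : ∀ a b c : E, a ≠ b → a ≠ c → b ≠ c → (σ a b c ≠ 0 ↔
      (¬ ((f = a ∨ f = b ∨ f = c) ∧ (g = a ∨ g = b ∨ g = c)) ∧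
        ({a, b, c} : Finset E) ≠ {x0, y0, z0})))
    (v : Fin 4 → Option E) :
    XN X σ (v 0) (v 1) (v 2) (v 3) ≠ 0 ↔
      Function.Injective v ∧ Good f g x0 y0 z0 (Finset.univ.image v) := by
  have hN := XN_alt hX hσ
  by_cases hv : Function.Injective v
  · have hne : ∀ i j, i ≠ j → v i ≠ v j := fun i j hij h => hij (hv h)
    rw [image_univ4]
    simp only [hv, true_and]
    exact supp4 f g x0 y0 z0 hU hs _ _ _ _ (hne 0 1 (by decide)) (hne 0 2 (by decide))
      (hne 0 3 (by decide)) (hne 1 2 (by decide)) (hne 1 3 (by decide)) (hne 2 3 (by decide))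
  · simp only [hv, false_and, iff_false, not_not]
    by_contra h0
    apply hv
    have h01 : v 0 ≠ v 1 := fun h => h0 (by rw [h]; exact hN.e12 _ _ _)
    have h02 : v 0 ≠ v 2 := fun h => h0 (by rw [h]; exact hN.e13 _ _ _)
    have h03 : v 0 ≠ v 3 := fun h => h0 (by rw [h]; exact hN.e14 _ _ _)
    have h12 : v 1 ≠ v 2 := fun h => h0 (by rw [h]; exact hN.e23 _ _ _)
    have h13 : v 1 ≠ v 3 := fun h => h0 (by rw [h]; exact hN.e24 _ _ _)
    have h23 : v 2 ≠ v 3 := fun h => h0 (by rw [h]; exact hN.e34 _ _ _)
    intro i j hij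
    fin_cases i <;> fin_cases j <;>
      first
        | rfl
        | exact absurd hij h01
        | exact absurd hij h02
        | exact absurd hij h03
        | exact absurd hij h12
        | exact absurd hij h13
        | exact absurd hij h23
        | exact absurd hij.symm h01
        | exact absurd hij.symm h02
        | exact absurd hij.symm h03
        | exact absurd hij.symm h12
        | exact absurd hij.symm h13
        | exact absurd hij.symm h23

lemma XN_exch {X : E → E → E → E → SignType} {σ : E → E → E → SignType} (hX : Alt4 X)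
    (hσ : Alt3 σ) (f g x0 y0 z0 : E) (hfx : f ≠ x0) (hfy : f ≠ y0) (hfz : f ≠ z0) (hgx : g ≠ x0)
    (hgy : g ≠ y0) (hgz : g ≠ z0) (hfg : f ≠ g)
    (hU : ∀ a b c d : E, a ≠ b → a ≠ c → a ≠ d → b ≠ c → b ≠ d → c ≠ d → X a b c d ≠ 0)
    (hs : ∀ a b c : E, a ≠ b → a ≠ c → b ≠ c → (σ a b c ≠ 0 ↔
      (¬ ((f = a ∨ f = b ∨ f = c) ∧ (g = a ∨ g = b ∨ g = c)) ∧
        ({a, b, c} : Finset E) ≠ {x0, y0, z0})))
    (v w : Fin 4 → Option E) (hv : XN X σ (v 0) (v 1) (v 2) (v 3) ≠ 0)
    (hw : XN X σ (w 0) (w 1) (w 2) (w 3) ≠ 0) (i : Fin 4) :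
    ∃ j, XN X σ (Function.update v i (w j) 0) (Function.update v i (w j) 1)
        (Function.update v i (w j) 2) (Function.update v i (w j) 3) ≠ 0 := by
  rw [suppv hX hσ f g x0 y0 z0 hU hs] at hv hw
  obtain ⟨hvi, hvg⟩ := hv
  obtain ⟨hwi, hwg⟩ := hw
  have hScard : ((Finset.univ.erase i).image v).card = 3 := by
    rw [Finset.card_image_of_injective _ hvi, Finset.card_erase_of_mem (Finset.mem_univ _)]
    simp
  have hBcard : (Finset.univ.image w).card = 4 := by
    rw [Finset.card_image_of_injective _ hwi]
    simp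
  have hins : insert (v i) ((Finset.univ.erase i).image v) = Finset.univ.image v := by
    rw [← Finset.image_insert, Finset.insert_erase (Finset.mem_univ _)]
  obtain ⟨t, htB, htS, htg⟩ := good_exch f g x0 y0 z0 hfx hfy hfz hgx hgy hgz hfg
    ((Finset.univ.erase i).image v) (Finset.univ.image w) hScard hBcard (v i)
    (by rw [hins]; exact hvg) hwg
  obtain ⟨j, -, rfl⟩ := Finset.mem_image.mp htB
  refine ⟨j, ?_⟩
  rw [suppv hX hσ f g x0 y0 z0 hU hs]
  have hnot : ∀ l, l ≠ i → v l ≠ w j := by
    intro l hl h
    apply htS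
    rw [← h]
    exact Finset.mem_image_of_mem _ (by simp [hl])
  constructor
  · intro a b hab
    by_cases ha : a = i
    · by_cases hb : b = i
      · rw [ha, hb]
      · rw [ha, Function.update_self, Function.update_of_ne hb] at hab
        exact absurd hab.symm (hnot b hb)
    · by_cases hb : b = i
      · rw [hb, Function.update_self, Function.update_of_ne ha] at hab
        exact absurd hab (hnot a ha)
      · rw [Function.update_of_ne ha, Function.update_of_ne hb] at hab
        exact hvi hab
  · have himg : Finset.univ.image (Function.update v i (w j)) =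
        insert (w j) ((Finset.univ.erase i).image v) := by
      ext t
      simp only [Finset.mem_image, Finset.mem_univ, true_and, Finset.mem_insert,
        Finset.mem_erase, and_true]
      constructor
      · rintro ⟨a, rfl⟩
        by_cases ha : a = i
        · left; rw [ha, Function.update_self]
        · right; exact ⟨a, ha, (Function.update_of_ne ha _ _).symm⟩
      · rintro (h | ⟨a, ha, rfl⟩)
        · exact ⟨i, by rw [Function.update_self, h]⟩
        · exact ⟨a, Function.update_of_ne ha _ _⟩
    rw [himg]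
    exact htg

end supp

end Pool.Agent.H145.Euc
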