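import Pool.Agent.H145.Euc.T4
import Pool.Agent.H145.Euc.T1

namespace Pool.Agent.H145.Euc

open SignType

/-- comparison sign -/
def sg (a b : ℕ) : SignType := if a < b then 1 else if b < a then -1 else 0

/-- table sign -/
def tau (N m : ℕ) : SignType := if N.testBit m then 1 else -1

/-- chirotope value read off a bit table indexed by bit masks -/
def Xn (N a b c d : ℕ) : SignType :=
  sg a b * sg a c * sg a d * sg b c * sg b d * sg c d * tau N (2 ^ a + 2 ^ b + 2 ^ c + 2 ^ d)

lemma sg_neg (a b : ℕ) : sg b a = - sg a b := by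
  unfold sg
  rcases lt_trichotomy a b with h | h | h
  · simp [h, h.not_gt]
  · subst h; simp
  · simp [h, h.not_gt]

lemma sg_ne_zero {a b : ℕ} (h : a ≠ b) : sg a b ≠ 0 := by
  unfold sg
  rcases lt_or_gt_of_ne h with h | h
  · simp [h]
  · simp [h, h.not_gt]

lemma tau_ne_zero (N m : ℕ) : tau N m ≠ 0 := by
  unfold tau; split_ifs <;> decide

lemma Xn_alt (N : ℕ) : Alt4 (Xn N) := by
  constructor
  · intro a b c d
    unfold Xn
    rw [sg_neg a b, show 2 ^ b + 2 ^ a + 2 ^ c + 2 ^ d = 2 ^ a + 2 ^ b + 2 ^ c + 2 ^ d by ring]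
    generalize sg a b = p
    generalize sg a c = q
    generalize sg a d = r
    generalize sg b c = s
    generalize sg b d = t
    generalize sg c d = u
    generalize tau _ _ = w
    rw [show -p * s * t * q * r * u = -(p * q * r * s * t * u) by
      revert p q r s t u; decide]
    rw [neg_mul]
  · intro a b c d
    unfold Xn
    rw [sg_neg b c, show 2 ^ a + 2 ^ c + 2 ^ b + 2 ^ d = 2 ^ a + 2 ^ b + 2 ^ c + 2 ^ d by ring]
    generalize sg a b = p
    generalize sg a c = q
    generalize sg a d = r
    generalize sg b c = s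
    generalize sg b d = t
    generalize sg c d = u
    generalize tau _ _ = w
    rw [show q * p * r * -s * u * t = -(p * q * r * s * t * u) by
      revert p q r s t u; decide]
    rw [neg_mul]
  · intro a b c d
    unfold Xn
    rw [sg_neg c d, show 2 ^ a + 2 ^ b + 2 ^ d + 2 ^ c = 2 ^ a + 2 ^ b + 2 ^ c + 2 ^ d by ring]
    generalize sg a b = p
    generalize sg a c = q
    generalize sg a d = r
    generalize sg b c = s
    generalize sg b d = t
    generalize sg c d = u
    generalize tau _ _ = w
    rw [show p * r * q * t * s * -u = -(p * q * r * s * t * u) by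
      revert p q r s t u; decide]
    rw [neg_mul]

lemma Xn_ne_zero (N : ℕ) {a b c d : ℕ} (h1 : a ≠ b) (h2 : a ≠ c) (h3 : a ≠ d) (h4 : b ≠ c)
    (h5 : b ≠ d) (h6 : c ≠ d) : Xn N a b c d ≠ 0 := by
  unfold Xn
  simp only [ne_eq, mul_eq_zero, not_or]
  exact ⟨⟨⟨⟨⟨⟨sg_ne_zero h1, sg_ne_zero h2⟩, sg_ne_zero h3⟩, sg_ne_zero h4⟩, sg_ne_zero h5⟩,
    sg_ne_zero h6⟩, tau_ne_zero _ _⟩

/-- the line `x, y` of the table is a rank two oriented matroid with explicit model -/
def LM (N n x y : ℕ) : Prop := ∃ (pos : ℕ → ℤ) (ε : ℕ → SignType), ∀ z w, z < n → w < n →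
  z ≠ x → z ≠ y → w ≠ x → w ≠ y → z ≠ w →
  Xn N z w x y = ε z * ε w * SignType.sign (pos w - pos z)

/-- boolean pairwise check -/
def pairAll {α : Type*} (p : α → α → Bool) : List α → Bool
  | [] => true
  | a :: l => l.all (p a) && pairAll p l

lemma pairAll_pairwise {α : Type*} (p : α → α → Bool) (l : List α) (h : pairAll p l = true) :
    l.Pairwise (fun a b => p a b = true) := by
  induction l with
  | nil => exact List.Pairwise.nil
  | cons a l ih =>
    simp only [pairAll, Bool.and_eq_true, List.all_eq_true] at h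
    exact List.Pairwise.cons h.1 (ih h.2)

/-- check of one line -/
def lineOK (N n x y : ℕ) (L : List (ℕ × Bool)) : Bool :=
  pairAll (fun p q => N.testBit (2 ^ x + 2 ^ y + 2 ^ p.1 + 2 ^ q.1) ==
    (decide (p.1 < q.1) == (p.2 == q.2))) L &&
  (List.range n).all (fun z => z == x || z == y || L.any (fun p => p.1 == z))

/-- boolean to sign -/
def bs (b : Bool) : SignType := if b then 1 else -1

lemma exists_pos {R : (ℕ × Bool) → (ℕ × Bool) → Prop} (L : List (ℕ × Bool)) (h : L.Pairwise R) :
    ∃ (pos : ℕ → ℕ) (s : ℕ → Bool), ∀ z w, (∃ p ∈ L, p.1 = z) → (∃ p ∈ L, p.1 = w) → z ≠ w →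
      pos z ≠ pos w ∧ (pos z < pos w → R (z, s z) (w, s w)) := by
  classical
  let pos : ℕ → ℕ := fun z => L.findIdx (fun p => p.1 == z)
  let s : ℕ → Bool := fun z => (L.getD (pos z) (0, true)).2
  have hpos : ∀ z, (∃ p ∈ L, p.1 = z) → ∃ h : pos z < L.length, L[pos z] = (z, s z) := by
    intro z hz
    have h1 : pos z < L.length := by
      apply List.findIdx_lt_length_of_exists
      obtain ⟨p, hp, hpz⟩ := hz
      exact ⟨p, hp, by simp [hpz]⟩
    refine ⟨h1, ?_⟩
    have h2 : (fun p : ℕ × Bool => p.1 == z) L[pos z] = true := List.findIdx_getElem (w := h1)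
    have h3 : L[pos z].1 = z := by simpa using h2
    have h4 : L[pos z].2 = s z := by
      simp only [s]
      rw [List.getD_eq_getElem _ _ h1]
    exact Prod.ext h3 h4
  refine ⟨pos, s, ?_⟩
  intro z w hz hw hzw
  obtain ⟨h1, h2⟩ := hpos z hz
  obtain ⟨h3, h4⟩ := hpos w hw
  constructor
  · intro he
    apply hzw
    have h5 : L[pos z] = L[pos w] := by
      simp only [he]
    rw [h2, h4] at h5
    exact congrArg Prod.fst h5
  · intro hlt
    have := (List.pairwise_iff_getElem.mp h) (pos z) (pos w) h1 h3 hlt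
    rw [h2, h4] at this
    exact this

lemma rel_sign {N x y z w : ℕ} {s t : Bool} (hxy : x < y) (hzw : z ≠ w)
    (h : (N.testBit (2 ^ x + 2 ^ y + 2 ^ z + 2 ^ w) ==
      (decide (z < w) == (s == t))) = true) :
    Xn N z w x y = (sg z x * sg z y * bs s) * (sg w x * sg w y * bs t) := by
  unfold Xn
  rw [show 2 ^ z + 2 ^ w + 2 ^ x + 2 ^ y = 2 ^ x + 2 ^ y + 2 ^ z + 2 ^ w by ring]
  have h1 : sg x y = 1 := by unfold sg; simp [hxy]
  have h2 : sg z w * tau N (2 ^ x + 2 ^ y + 2 ^ z + 2 ^ w) = bs s * bs t := by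
    unfold tau sg bs
    generalize N.testBit _ = b at *
    rcases lt_or_gt_of_ne hzw with h3 | h3
    · simp only [h3, decide_true, if_true] at *
      revert b s t; decide
    · simp only [h3, h3.not_gt, decide_false, if_true, if_false] at *
      revert b s t; decide
  rw [h1]
  have h3 : ∀ a b c d e f : SignType, a * b * c * d * e * 1 * f = b * c * (d * e) * (a * f) := by
    decide
  rw [h3, h2]
  have h4 : ∀ a b c d e f : SignType, a * b * (c * d) * (e * f) = a * b * e * (c * d * f) := by
    decide
  rw [h4]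

lemma LM_of_lineOK (N n x y : ℕ) (hxy : x < y) (L : List (ℕ × Bool))
    (h : lineOK N n x y L = true) : LM N n x y := by
  unfold lineOK at h
  rw [Bool.and_eq_true] at h
  obtain ⟨h1, h2⟩ := h
  obtain ⟨pos, s, hps⟩ := exists_pos L (pairAll_pairwise _ _ h1)
  have hmem : ∀ z, z < n → z ≠ x → z ≠ y → ∃ p ∈ L, p.1 = z := by
    intro z hz hzx hzy
    rw [List.all_eq_true] at h2
    have := h2 z (List.mem_range.mpr hz)
    simpa [hzx, hzy] using this
  refine ⟨fun z => (pos z : ℤ), fun z => sg z x * sg z y * bs (s z), ?_⟩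
  intro z w hz hw hzx hzy hwx hwy hzw
  obtain ⟨k1, k2⟩ := hps z w (hmem z hz hzx hzy) (hmem w hw hwx hwy) hzw
  obtain ⟨_, k3⟩ := hps w z (hmem w hw hwx hwy) (hmem z hz hzx hzy) hzw.symm
  rcases lt_or_gt_of_ne k1 with k | k
  · rw [rel_sign hxy hzw (k2 k)]
    have : (0 : ℤ) < (pos w : ℤ) - (pos z : ℤ) := by omega
    rw [sign_pos this, mul_one]
  · have h5 := rel_sign hxy hzw.symm (k3 k)
    rw [(Xn_alt N).s12 w z, h5]
    have : (pos w : ℤ) - (pos z : ℤ) < 0 := by omega
    rw [sign_neg this]
    have h6 : ∀ a b : SignType, -(a * b) = b * a * -1 := by decide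
    exact h6 _ _

section build

variable {E : Type*} (N n : ℕ) (code : E → ℕ)

lemma codeX_alt : Alt4 (fun a b c d : E => Xn N (code a) (code b) (code c) (code d)) :=
  ⟨fun _ _ _ _ => (Xn_alt N).s12 _ _ _ _, fun _ _ _ _ => (Xn_alt N).s23 _ _ _ _,
    fun _ _ _ _ => (Xn_alt N).s34 _ _ _ _⟩

lemma code_gp (hinj : Function.Injective code) (hlt : ∀ e, code e < n)
    (hLM : ∀ x y, x < y → y < n → LM N n x y) (x y a b c d : E) :
    GPat (fun a b c d : E => Xn N (code a) (code b) (code c) (code d)) x y a b c d := by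
  have hX := codeX_alt N code
  by_cases hd : (a ≠ b ∧ a ≠ c ∧ a ≠ d ∧ b ≠ c ∧ b ≠ d ∧ c ≠ d ∧ x ≠ y ∧ x ≠ a ∧ x ≠ b ∧ x ≠ c ∧
      x ≠ d ∧ y ≠ a ∧ y ≠ b ∧ y ≠ c ∧ y ≠ d)
  · have key : ∀ x y : E, code x < code y → x ≠ a → x ≠ b → x ≠ c → x ≠ d → y ≠ a → y ≠ b →
        y ≠ c → y ≠ d →
        GPat (fun a b c d : E => Xn N (code a) (code b) (code c) (code d)) x y a b c d := by
      intro x y hxy h1 h2 h3 h4 h5 h6 h7 h8
      obtain ⟨pos, ε, hm⟩ := hLM (code x) (code y) hxy (hlt y)
      have hm' : ∀ z w : E, z ≠ x → z ≠ y → w ≠ x → w ≠ y → z ≠ w →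
          Xn N (code z) (code w) (code x) (code y) = ε (code z) * ε (code w) *
            SignType.sign ((-(pos (code z)) : ℤ) * 1 - 1 * (-(pos (code w)))) := by
        intro z w k1 k2 k3 k4 k5
        rw [hm (code z) (code w) (hlt z) (hlt w) (fun h => k1 (hinj h)) (fun h => k2 (hinj h))
          (fun h => k3 (hinj h)) (fun h => k4 (hinj h)) (fun h => k5 (hinj h))]
        congr 2
        ring
      obtain ⟨e1, e2, e3, e4, e5, e6, -⟩ := hd
      exact gpat_of_model (v := fun z => (-(pos (code z)), 1)) (e := fun z => ε (code z))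
        (hm' a b h1.symm h5.symm h2.symm h6.symm e1) (hm' a c h1.symm h5.symm h3.symm h7.symm e2)
        (hm' a d h1.symm h5.symm h4.symm h8.symm e3) (hm' b c h2.symm h6.symm h3.symm h7.symm e4)
        (hm' b d h2.symm h6.symm h4.symm h8.symm e5) (hm' c d h3.symm h7.symm h4.symm h8.symm e6)
    have hd' := hd
    obtain ⟨-, -, -, -, -, -, f1, f2, f3, f4, f5, f6, f7, f8, f9⟩ := hd'
    rcases lt_or_gt_of_ne (fun h => f1 (hinj h) : code x ≠ code y) with h | h
    · exact key x y h f2 f3 f4 f5 f6 f7 f8 f9
    · exact (key y x h f6 f7 f8 f9 f2 f3 f4 f5).swap_xy hX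
  · exact gpat_of_eq hX hd

/-- the uniform rank-four chirotope of a valid table -/
def tabChirotope (hinj : Function.Injective code) (hlt : ∀ e, code e < n)
    (hLM : ∀ x y, x < y → y < n → LM N n x y)
    (hex : ∃ a b c d : E, a ≠ b ∧ a ≠ c ∧ a ≠ d ∧ b ≠ c ∧ b ≠ d ∧ c ≠ d) : Chirotope E 2 :=
  Chirotope.ofFun (fun a b c d : E => Xn N (code a) (code b) (code c) (code d))
    (codeX_alt N code)
    (by
      obtain ⟨a, b, c, d, h1, h2, h3, h4, h5, h6⟩ := hex
      exact ⟨a, b, c, d, Xn_ne_zero N (fun h => h1 (hinj h)) (fun h => h2 (hinj h))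
        (fun h => h3 (hinj h)) (fun h => h4 (hinj h)) (fun h => h5 (hinj h))
        (fun h => h6 (hinj h))⟩)
    (by
      classical
      intro v w hv hw i
      have hX := codeX_alt N code
      have hinjv : ∀ v : Fin 4 → E,
          Xn N (code (v 0)) (code (v 1)) (code (v 2)) (code (v 3)) ≠ 0 →
          Function.Injective v := by
        intro v h0
        have h01 : v 0 ≠ v 1 := fun h => h0 (by rw [h]; exact (Xn_alt N).e12 _ _ _)
        have h02 : v 0 ≠ v 2 := fun h => h0 (by rw [h]; exact (Xn_alt N).e13 _ _ _)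
        have h03 : v 0 ≠ v 3 := fun h => h0 (by rw [h]; exact (Xn_alt N).e14 _ _ _)
        have h12 : v 1 ≠ v 2 := fun h => h0 (by rw [h]; exact (Xn_alt N).e23 _ _ _)
        have h13 : v 1 ≠ v 3 := fun h => h0 (by rw [h]; exact (Xn_alt N).e24 _ _ _)
        have h23 : v 2 ≠ v 3 := fun h => h0 (by rw [h]; exact (Xn_alt N).e34 _ _ _)
        intro i j hij
        fin_cases i <;> fin_cases j <;>
          first
            | rfl
            | exact absurd hij h01
            | exact absurd hij h02
            | exact absurd hij h03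
            | exact absurd hij h12
            | exact absurd hij h13
            | exact absurd hij h23
            | exact absurd hij.symm h01
            | exact absurd hij.symm h02
            | exact absurd hij.symm h03
            | exact absurd hij.symm h12
            | exact absurd hij.symm h13
            | exact absurd hij.symm h23
      have hv' := hinjv v hv
      have hw' := hinjv w hw
      -- some w j avoids the other entries of v
      have hj : ∃ j, ∀ l, l ≠ i → v l ≠ w j := by
        by_contra hcon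
        push Not at hcon
        have hsub : Finset.univ.image w ⊆ (Finset.univ.erase i).image v := by
          intro t ht
          obtain ⟨j, -, rfl⟩ := Finset.mem_image.mp ht
          obtain ⟨l, hl, hlj⟩ := hcon j
          exact Finset.mem_image.mpr ⟨l, by simp [hl], hlj⟩
        have := Finset.card_le_card hsub
        rw [Finset.card_image_of_injective _ hw', Finset.card_image_of_injective _ hv',
          Finset.card_erase_of_mem (Finset.mem_univ _)] at this
        simp at this
      obtain ⟨j, hj⟩ := hj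
      refine ⟨j, ?_⟩
      have hu : Function.Injective (Function.update v i (w j)) := by
        intro a b hab
        by_cases ha : a = i
        · by_cases hb : b = i
          · rw [ha, hb]
          · rw [ha, Function.update_self, Function.update_of_ne hb] at hab
            exact absurd hab.symm (hj b hb)
        · by_cases hb : b = i
          · rw [hb, Function.update_self, Function.update_of_ne ha] at hab
            exact absurd hab (hj a ha)
          · rw [Function.update_of_ne ha, Function.update_of_ne hb] at hab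
            exact hv' hab
      have hne : ∀ a b : Fin 4, a ≠ b →
          code (Function.update v i (w j) a) ≠ code (Function.update v i (w j) b) :=
        fun a b hab h => hab (hu (hinj h))
      exact Xn_ne_zero N (hne 0 1 (by decide)) (hne 0 2 (by decide)) (hne 0 3 (by decide))
        (hne 1 2 (by decide)) (hne 1 3 (by decide)) (hne 2 3 (by decide)))
    (code_gp N n code hinj hlt hLM)

end build

end Pool.Agent.H145.Euc
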